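import Mathlib

/-! Birkhoff and Kakutani: a first countable Hausdorff group has a left invariant metric. -/

set_option autoImplicit false

open Topology Set Filter
open scoped NNReal Pointwise

namespace Pool.Agent.PathAct

universe u

/-- A first countable `T0` group has a compatible left invariant metric. -/
theorem exists_left_invariant_metric (G : Type u) [Group G] [t : TopologicalSpace G]
    [IsTopologicalGroup G] [FirstCountableTopology G] [T0Space G] :
    ∃ M : MetricSpace G, t = M.toPseudoMetricSpace.toUniformSpace.toTopologicalSpace ∧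
      ∀ a x y : G, M.dist (a * x) (a * y) = M.dist x y := by
  classical
  obtain ⟨u, hu, hmul⟩ := IsTopologicalGroup.exists_antitone_basis_nhds_one G
  -- symmetric sets
  let w : ℕ → Set G := fun n => u (2 * n) ∩ (u (2 * n))⁻¹
  have hw1 : ∀ n x, x ∈ w n ↔ x⁻¹ ∈ w n := by
    intro n x
    simp only [w, mem_inter_iff, Set.mem_inv, inv_inv]
    tauto
  have hone : ∀ n, (1 : G) ∈ u n := fun n => mem_of_mem_nhds (hu.1.mem_of_mem trivial)
  have hw2 : ∀ n, w n ∈ 𝓝 (1 : G) := by
    intro n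
    refine inter_mem (hu.1.mem_of_mem trivial) ?_
    have : u (2 * n) ∈ 𝓝 (1⁻¹ : G) := by
      rw [inv_one]
      exact hu.1.mem_of_mem trivial
    exact continuous_inv.continuousAt.preimage_mem_nhds this
  have hw3 : ∀ n x y z, x ∈ w (n + 1) → y ∈ w (n + 1) → z ∈ w (n + 1) → x * y * z ∈ u (2 * n) := by
    intro n x y z hx hy hz
    have h1 : x * y ∈ u (2 * n + 1) := hmul (2 * n + 1) (mul_mem_mul hx.1 hy.1)
    have h2 : z ∈ u (2 * n + 1) := hu.2 (by omega) hz.1
    exact hmul (2 * n) (mul_mem_mul h1 h2)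
  have hw4 : ∀ n x y z, x ∈ w (n + 1) → y ∈ w (n + 1) → z ∈ w (n + 1) → x * y * z ∈ w n := by
    intro n x y z hx hy hz
    refine ⟨hw3 n x y z hx hy hz, ?_⟩
    rw [Set.mem_inv]
    have : (x * y * z)⁻¹ = z⁻¹ * y⁻¹ * x⁻¹ := by group
    rw [this]
    exact hw3 n _ _ _ ((hw1 _ _).1 hz) ((hw1 _ _).1 hy) ((hw1 _ _).1 hx)
  have hanti : Antitone w := by
    intro m n hmn x hx
    have h1 : 2 * m ≤ 2 * n := by omega
    exact ⟨hu.2 h1 hx.1, hu.2 h1 hx.2⟩
  let d : G → G → ℝ≥0 := fun x y => if h : ∃ n, x⁻¹ * y ∉ w n then (1 / 2) ^ Nat.find h else 0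
  have hr : (1 / 2 : ℝ≥0) ∈ Ioo (0 : ℝ≥0) 1 :=
    ⟨half_pos one_pos, NNReal.half_lt_self one_ne_zero⟩
  have hself : ∀ x, d x x = 0 := by
    intro x
    have : ¬ ∃ n, x⁻¹ * x ∉ w n := by
      rintro ⟨n, hn⟩
      apply hn
      rw [inv_mul_cancel]
      exact mem_of_mem_nhds (hw2 n)
    simp only [d, dif_neg this]
  have hinvd : ∀ a x y, d (a * x) (a * y) = d x y := by
    intro a x y
    have : (a * x)⁻¹ * (a * y) = x⁻¹ * y := by group
    simp only [d, this]
  have hsymm : ∀ x y, d x y = d y x := by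
    intro x y
    have : ∀ n, x⁻¹ * y ∉ w n ↔ y⁻¹ * x ∉ w n := by
      intro n
      rw [hw1]
      have : (x⁻¹ * y)⁻¹ = y⁻¹ * x := by group
      rw [this]
    simp only [d, this]
  have hle_d : ∀ {x y : G} {n : ℕ}, (1 / 2) ^ n ≤ d x y ↔ x⁻¹ * y ∉ w n := by
    intro x y n
    dsimp only [d]
    split_ifs with h
    · rw [(pow_right_strictAnti₀ hr.1 hr.2).le_iff_ge, Nat.find_le_iff]
      exact ⟨fun ⟨m, hmn, hm⟩ hn => hm (hanti hmn hn), fun h => ⟨n, le_rfl, h⟩⟩
    · push Not at h
      simp only [h, not_true, (pow_pos hr.1 _).not_ge]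
  let I : PseudoMetricSpace G := PseudoMetricSpace.ofPreNNDist d hself hsymm
  have hdist_le : ∀ x y, I.dist x y ≤ d x y := PseudoMetricSpace.dist_ofPreNNDist_le _ _ _
  have hd_le : ∀ x y, (d x y : ℝ) ≤ 2 * I.dist x y := by
    refine PseudoMetricSpace.le_two_mul_dist_ofPreNNDist _ _ _ fun x₁ x₂ x₃ x₄ => ?_
    by_cases H : ∃ n, x₁⁻¹ * x₄ ∉ w n
    · refine (dif_pos H).trans_le ?_
      rw [← div_le_iff₀' zero_lt_two, ← mul_one_div (_ ^ _), ← pow_succ]
      simp only [le_max_iff, hle_d, ← not_and_or]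
      rintro ⟨h₁₂, h₂₃, h₃₄⟩
      refine Nat.find_spec H ?_
      have : x₁⁻¹ * x₄ = (x₁⁻¹ * x₂) * (x₂⁻¹ * x₃) * (x₃⁻¹ * x₄) := by group
      have h5 := hw4 _ _ _ _ h₁₂ h₂₃ h₃₄
      exact (congrArg (fun g => g ∈ w (Nat.find H)) this).mpr h5
    · exact (dif_neg H).trans_le zero_le
  have hinv : ∀ a x y, I.dist (a * x) (a * y) = I.dist x y := by
    intro a x y
    show (↑(⨅ l : List G, ((a * x :: l).zipWith d (l ++ [a * y])).sum : ℝ≥0) : ℝ) =
      ↑(⨅ l : List G, ((x :: l).zipWith d (l ++ [y])).sum : ℝ≥0)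
    congr 1
    symm
    have hsurj : Function.Surjective (List.map (fun g : G => a * g)) := by
      intro l
      refine ⟨l.map (fun g => a⁻¹ * g), ?_⟩
      rw [List.map_map]
      have : (fun g : G => a * g) ∘ (fun g => a⁻¹ * g) = id := by
        funext g
        simp
      rw [this, List.map_id]
    refine Function.Surjective.iInf_congr _ hsurj fun l => ?_
    have h1 : (a * x :: l.map (fun g => a * g)) = (x :: l).map (fun g => a * g) := by simp
    have h2 : (l.map (fun g => a * g) ++ [a * y]) = (l ++ [y]).map (fun g => a * g) := by simp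
    rw [h1, h2, List.zipWith_map]
    simp only [hinvd]
  have htop : t = I.toUniformSpace.toTopologicalSpace := by
    refine TopologicalSpace.ext_nhds fun x => ?_
    have h1 : (@nhds G t x).HasBasis (fun _ : ℕ => True) (fun n => {y | x⁻¹ * y ∈ w n}) := by
      have hwb : (𝓝 (1 : G)).HasBasis (fun _ : ℕ => True) w := by
        rw [hasBasis_iff]
        intro s
        constructor
        · intro hs
          obtain ⟨n, _, hn⟩ := hu.1.mem_iff.1 hs
          refine ⟨n, trivial, ?_⟩
          intro y hy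
          exact hn (hu.2 (by omega) hy.1)
        · rintro ⟨n, _, hn⟩
          exact mem_of_superset (hw2 n) hn
      have h2 := hwb.comap (fun y => x⁻¹ * y)
      have h3 : comap (fun y => x⁻¹ * y) (𝓝 (1 : G)) = @nhds G t x := by
        rw [show (fun y => x⁻¹ * y) = (Homeomorph.mulLeft x⁻¹) from rfl, Homeomorph.comap_nhds_eq]
        have h5 : (Homeomorph.mulLeft x⁻¹).symm 1 = x := by
          show x⁻¹⁻¹ * 1 = x
          simp
        rw [h5]
      rw [h3] at h2
      exact h2
    have h4 : (@nhds G I.toUniformSpace.toTopologicalSpace x).HasBasis (fun _ : ℕ => True)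
        (fun n => @Metric.ball G I x ((1 / 2 : ℝ) ^ n)) :=
      @Metric.nhds_basis_ball_pow G I x _ (by norm_num) (by norm_num)
    refine h1.ext h4 ?_ ?_
    · intro n _
      refine ⟨n + 1, trivial, ?_⟩
      intro y hy
      by_contra hcon
      have h5 : ((1 / 2 : ℝ≥0) ^ n : ℝ≥0) ≤ d x y := hle_d.2 hcon
      have h6 : ((1 / 2 : ℝ) ^ n) ≤ (d x y : ℝ) := by
        have := NNReal.coe_le_coe.2 h5
        simpa using this
      have h7 := hd_le x y
      have h8 : I.dist y x < (1 / 2 : ℝ) ^ (n + 1) := hy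
      have h9 : I.dist y x = I.dist x y := I.dist_comm y x
      rw [h9, pow_succ] at h8
      linarith
    · intro n _
      refine ⟨n, trivial, ?_⟩
      intro y hy
      have h5 : ¬ ((1 / 2 : ℝ≥0) ^ n : ℝ≥0) ≤ d x y := fun h => (hle_d.1 h) hy
      have h6 : (d x y : ℝ) < (1 / 2 : ℝ) ^ n := by
        have := NNReal.coe_lt_coe.2 (not_le.1 h5)
        simpa using this
      have h7 := hdist_le x y
      have h9 : I.dist y x = I.dist x y := I.dist_comm y x
      show I.dist y x < _
      rw [h9]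
      exact h7.trans_lt h6
  let I' : PseudoMetricSpace G := I.replaceTopology htop
  refine ⟨@MetricSpace.ofT0PseudoMetricSpace G I' ?_, rfl, hinv⟩
  exact ‹T0Space G›

end Pool.Agent.PathAct
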