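import Pool.Agent.PathAct.Line
import Pool.Agent.PathAct.LeftMetric

/-! The group of paths which start at the identity. -/

set_option autoImplicit false
set_option linter.unusedSectionVars false

open Topology Set Metric TopologicalSpace
open scoped unitInterval

namespace Pool.Agent.PathAct

universe u

section top

variable {G : Type u} [Group G] [TopologicalSpace G] [IsTopologicalGroup G]

instance : IsTopologicalGroup C(I, G) where
  continuous_inv := ContinuousMap.continuous_postcomp (⟨fun g : G => g⁻¹, continuous_inv⟩ : C(G, G))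

variable (G)

/-- The group of paths which start at the identity. -/
def pathSubgroup : Subgroup C(I, G) where
  carrier := {γ | γ 0 = 1}
  mul_mem' := by
    intro a b ha hb
    show a 0 * b 0 = 1
    rw [show a 0 = 1 from ha, show b 0 = 1 from hb, one_mul]
  one_mem' := rfl
  inv_mem' := by
    intro a ha
    show (a 0)⁻¹ = 1
    rw [show a 0 = 1 from ha, inv_one]

/-- The endpoint of a path. -/
def endpoint : pathSubgroup G →* G where
  toFun γ := γ.1 1
  map_one' := rfl
  map_mul' _ _ := rfl

variable {G}

theorem continuous_endpoint : Continuous (endpoint G) :=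
  (continuous_eval_const (F := C(I, G)) (1 : I)).comp continuous_subtype_val

theorem isClosed_pathSubgroup [T1Space G] : IsClosed (pathSubgroup G : Set C(I, G)) :=
  isClosed_singleton.preimage (continuous_eval_const (F := C(I, G)) (0 : I))

theorem range_endpoint : Set.range (endpoint G) = pathComponent (1 : G) := by
  ext g
  constructor
  · rintro ⟨γ, rfl⟩
    exact ⟨{ toContinuousMap := γ.1, source' := γ.2, target' := rfl }⟩
  · rintro ⟨p⟩
    exact ⟨⟨p.toContinuousMap, p.source⟩, p.target⟩

theorem endpoint_normal (g : G) (γ : pathSubgroup G) :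
    ∃ γ' : pathSubgroup G, endpoint G γ' = g * endpoint G γ * g⁻¹ := by
  refine ⟨⟨⟨fun t => g * γ.1 t * g⁻¹, by fun_prop⟩, ?_⟩, rfl⟩
  show g * γ.1 0 * g⁻¹ = 1
  rw [show γ.1 0 = 1 from γ.2]
  simp

instance [PolishSpace G] : PolishSpace (pathSubgroup G) := by
  have h : PolishSpace C(I, G) := by
    let _ := TopologicalSpace.upgradeIsCompletelyMetrizable G
    infer_instance
  exact isClosed_pathSubgroup.polishSpace

/-- Shrinking a path: `contract γ s t = γ (s t)`. -/
noncomputable def contract (γ : C(I, G)) : C(I, C(I, G)) :=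
  ContinuousMap.curry ⟨fun p : I × I => γ (p.1 * p.2), by fun_prop⟩

theorem contract_apply (γ : C(I, G)) (s t : I) : contract γ s t = γ (s * t) := rfl

theorem contract_one (γ : C(I, G)) : contract γ 1 = γ := by
  ext t
  rw [contract_apply, one_mul]

theorem contract_zero (γ : C(I, G)) (h : γ 0 = 1) : contract γ 0 = 1 := by
  ext t
  rw [contract_apply, zero_mul, h]
  rfl

theorem contract_mem (γ : C(I, G)) (h : γ 0 = 1) (s : I) : contract γ s 0 = 1 := by
  rw [contract_apply, mul_zero, h]

/-- The shrinking of a path, inside the path group. -/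
noncomputable def contract' (γ : pathSubgroup G) (s : I) : pathSubgroup G :=
  ⟨contract γ.1 s, contract_mem γ.1 γ.2 s⟩

theorem continuous_contract' (γ : pathSubgroup G) : Continuous (contract' γ) :=
  (contract γ.1).continuous.subtype_mk _

theorem isPreconnected_of_contract {S : Set (pathSubgroup G)}
    (hS : ∀ γ ∈ S, ∀ s, contract' γ s ∈ S) : IsPreconnected S := by
  rcases S.eq_empty_or_nonempty with h | ⟨γ₀, h₀⟩
  · rw [h]
    exact isPreconnected_empty
  have hzero : ∀ γ : pathSubgroup G, contract' γ 0 = 1 := fun γ =>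
    Subtype.ext (contract_zero γ.1 γ.2)
  refine isPreconnected_of_forall (1 : pathSubgroup G) fun γ hγ => ⟨range (contract' γ), ?_, ?_, ?_, ?_⟩
  · rintro _ ⟨s, rfl⟩
    exact hS γ hγ s
  · exact ⟨0, hzero γ⟩
  · exact ⟨1, Subtype.ext (contract_one γ.1)⟩
  · exact isPreconnected_range (continuous_contract' γ)

instance : PreconnectedSpace (pathSubgroup G) :=
  ⟨isPreconnected_of_contract fun _ _ _ => mem_univ _⟩

end top

section metric

variable {G : Type u} [Group G] [MetricSpace G] [IsTopologicalGroup G] [IsIsometricSMul G G]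

instance : IsIsometricSMul (pathSubgroup G) (pathSubgroup G) where
  isometry_smul := by
    intro γ
    refine Isometry.of_dist_eq fun a b => ?_
    show dist (γ.1 * a.1) (γ.1 * b.1) = dist a.1 b.1
    apply le_antisymm
    · rw [ContinuousMap.dist_le dist_nonneg]
      intro t
      show dist (γ.1 t * a.1 t) (γ.1 t * b.1 t) ≤ _
      rw [dist_mul_left]
      exact ContinuousMap.dist_apply_le_dist t
    · rw [ContinuousMap.dist_le dist_nonneg]
      intro t
      rw [← dist_mul_left (γ.1 t)]
      exact ContinuousMap.dist_apply_le_dist (f := γ.1 * a.1) (g := γ.1 * b.1) t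

theorem isPreconnected_ball (r : ℝ) : IsPreconnected (ball (1 : pathSubgroup G) r) := by
  refine isPreconnected_of_contract fun γ hγ s => ?_
  rw [mem_ball] at hγ ⊢
  refine lt_of_le_of_lt ?_ hγ
  show dist (contract γ.1 s) 1 ≤ dist γ.1 1
  rw [ContinuousMap.dist_le dist_nonneg]
  intro t
  exact ContinuousMap.dist_apply_le_dist (f := γ.1) (g := 1) (s * t)

/-- The balls form a scale of the path group. -/
noncomputable def pathScale : Scale (pathSubgroup G) where
  V m := ball 1 ((1 / 2 : ℝ) ^ m)
  ρ m := (1 / 2 : ℝ) ^ m
  isOpen _ := isOpen_ball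
  preconn _ := isPreconnected_ball _
  one_mem m := mem_ball_self (by positivity)
  anti := by
    intro m n h
    exact ball_subset_ball (pow_le_pow_of_le_one (by norm_num) (by norm_num) h)
  ρ_pos m := by positivity
  ball _ := Subset.rfl
  basis := by
    intro W hW
    obtain ⟨n, _, hn⟩ := (nhds_basis_ball_pow (by norm_num : (0 : ℝ) < 1 / 2)
      (by norm_num : (1 / 2 : ℝ) < 1)).mem_iff.1 hW
    exact ⟨n, hn⟩

end metric

end Pool.Agent.PathAct
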