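import Pool.Agent.PathAct.Main1
import Pool.Agent.PathAct.PathGroup
import Pool.Agent.LeftAct.Main

/-! Universality of the left action for groups with a large identity path component. -/

set_option autoImplicit false
set_option linter.unusedSectionVars false

open Topology Set Metric TopologicalSpace

namespace Pool.Agent.PathAct

open Pool.Agent.LeftAct

universe u v w

section line

/-- A small version of the Kuratowski and Ulam theorem. -/
theorem exists_meagre_line {A : Type w} [TopologicalSpace A] [SecondCountableTopology A]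
    {G : Type u} [Group G] [TopologicalSpace G] [IsTopologicalGroup G] [BaireSpace G]
    {φ : A → G} (hφ : Continuous φ) {M : Set G} (hM : IsMeagre M) :
    ∃ q : G, IsMeagre {a | q * φ a ∈ M} := by
  obtain ⟨S, hS, hSc, hMS⟩ := isMeagre_iff_countable_union_isNowhereDense.1 hM
  obtain ⟨b, hbc, hbe, hb⟩ := exists_countable_basis A
  have ho : ∀ p ∈ S ×ˢ b, IsOpen {q : G | ∃ a ∈ p.2, q * φ a ∈ (closure p.1)ᶜ} := by
    intro p hp
    have : {q : G | ∃ a ∈ p.2, q * φ a ∈ (closure p.1)ᶜ} =
        ⋃ a ∈ p.2, (fun q => q * φ a) ⁻¹' (closure p.1)ᶜ := by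
      ext q
      simp
    rw [this]
    exact isOpen_biUnion fun a _ => (isClosed_closure.isOpen_compl).preimage
      (continuous_mul_const _)
  have hd : ∀ p ∈ S ×ˢ b, Dense {q : G | ∃ a ∈ p.2, q * φ a ∈ (closure p.1)ᶜ} := by
    intro p hp
    rw [dense_iff_inter_open]
    rintro U hU ⟨u, hu⟩
    have hne : p.2.Nonempty := by
      rw [nonempty_iff_ne_empty]
      intro h
      exact hbe (h ▸ hp.2)
    obtain ⟨a, ha⟩ := hne
    have h1 : IsOpen ((fun q => q * φ a) '' U) := isOpenMap_mul_right _ _ hU
    have h2 : Dense (closure p.1)ᶜ := by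
      have := hS p.1 hp.1
      rwa [IsNowhereDense, interior_eq_empty_iff_dense_compl] at this
    obtain ⟨_, ⟨q, hq, rfl⟩, hqc⟩ := h2.inter_open_nonempty _ h1 ⟨_, u, hu, rfl⟩
    exact ⟨q, hq, a, ha, hqc⟩
  have hdense := dense_biInter_of_isOpen ho (hSc.prod hbc) hd
  obtain ⟨q, hq⟩ := hdense.nonempty
  refine ⟨q, ?_⟩
  have h3 : {a | q * φ a ∈ M} ⊆ ⋃ t ∈ S, {a | q * φ a ∈ closure t} := by
    intro a ha
    obtain ⟨t, ht, hat⟩ := hMS ha
    exact mem_biUnion ht (subset_closure hat)
  refine (isMeagre_biUnion hSc fun t ht => ?_).mono h3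
  have h4 : IsClosed {a | q * φ a ∈ closure t} :=
    isClosed_closure.preimage (continuous_const.mul hφ)
  have h5 : interior {a | q * φ a ∈ closure t} = ∅ := by
    by_contra hne
    obtain ⟨a, ha⟩ := nonempty_iff_ne_empty.2 hne
    obtain ⟨V, hV, haV, hVs⟩ := hb.exists_subset_of_mem_open ha isOpen_interior
    obtain ⟨a', ha', hqa'⟩ := mem_iInter₂.1 hq (t, V) ⟨ht, hV⟩
    have h9 : a' ∈ {a | q * φ a ∈ closure t} := interior_subset (hVs ha')
    exact hqa' h9
  have h6 : IsNowhereDense {a | q * φ a ∈ closure t} := by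
    rw [IsNowhereDense, h4.closure_eq, h5]
  exact h6.isMeagre

end line

variable {G : Type u} [Group G] [TopologicalSpace G] [IsTopologicalGroup G] [PolishSpace G]
  [MeasurableSpace G] [BorelSpace G] {X : Type v} [MeasurableSpace X] [StandardBorelSpace X]
  [MulAction G X]

/-- The stabilizers of a Borel action are closed. -/
theorem isClosed_stabilizer (hact : Measurable fun p : G × X => p.1 • p.2) (x : X) :
    IsClosed {g : G | g • x = x} := by
  obtain ⟨B, F, -, -, hFc, hFe, -, hFinj, -⟩ := exists_coding (fun (g : G) (x : X) => g • x)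
    (fun x => one_smul G x) (fun g h x => mul_smul g h x) hact
  have h1 : {g : G | g • x = x} =
      ⋂ n, ({g : G | ∀ c ∈ F x n, g * c ∈ F x n} ∩ {g : G | ∀ c ∈ F x n, g⁻¹ * c ∈ F x n}) := by
    ext g
    simp only [mem_ofPred_eq, mem_iInter, mem_inter_iff]
    constructor
    · intro hg n
      have h2 := hFe g x n
      rw [hg] at h2
      constructor
      · intro c hc
        rw [h2]
        exact ⟨c, hc, rfl⟩
      · intro c hc
        rw [h2] at hc
        obtain ⟨d, hd, rfl⟩ := hc
        simpa using hd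
    · intro h
      apply hFinj
      funext n
      rw [hFe]
      ext c
      constructor
      · rintro ⟨d, hd, rfl⟩
        exact (h n).1 d hd
      · intro hc
        exact ⟨g⁻¹ * c, (h n).2 c hc, by simp⟩
  rw [h1]
  refine isClosed_iInter fun n => IsClosed.inter ?_ ?_
  · have : {g : G | ∀ c ∈ F x n, g * c ∈ F x n} = ⋂ c ∈ F x n, (fun g => g * c) ⁻¹' F x n := by
      ext g
      simp
    rw [this]
    exact isClosed_biInter fun c _ => (hFc x n).preimage (continuous_mul_const c)
  · have : {g : G | ∀ c ∈ F x n, g⁻¹ * c ∈ F x n} = ⋂ c ∈ F x n, (fun g => g⁻¹ * c) ⁻¹' F x n := by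
      ext g
      simp
    rw [this]
    exact isClosed_biInter fun c _ => (hFc x n).preimage (by fun_prop)

/-- The points which are not fixed by the path component. -/
def Moved (G : Type u) [Group G] [TopologicalSpace G] [IsTopologicalGroup G] (X : Type v)
    [MulAction G X] : Set X := {x | ∃ γ : pathSubgroup G, endpoint G γ • x ≠ x}

theorem smul_mem_moved {g : G} {x : X} (hx : x ∈ Moved G X) : g • x ∈ Moved G X := by
  obtain ⟨γ, hγ⟩ := hx
  obtain ⟨γ', hγ'⟩ := endpoint_normal g γ
  refine ⟨γ', ?_⟩
  rw [hγ', ← mul_smul, inv_mul_cancel_right, mul_smul]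
  intro h
  exact hγ (smul_left_cancel g h)

theorem smul_mem_moved_iff {g : G} {x : X} : g • x ∈ Moved G X ↔ x ∈ Moved G X := by
  constructor
  · intro h
    have := smul_mem_moved (g := g⁻¹) h
    simpa using this
  · exact smul_mem_moved

/-- The first half of the embedding: off the points fixed by the path component, the action
embeds equivariantly. -/
theorem exists_moved_coding (hact : Measurable fun p : G × X => p.1 • p.2) :
    ∃ f : X → Closeds G, @Measurable X (Closeds G) _ (effros G) f ∧
      (∀ g x, f (g • x) = translate g (f x)) ∧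
      (∀ x ∈ Moved G X, ∀ y, f x = f y → x = y) ∧
      ∀ x ∈ Moved G X, (interior (f x : Set G)).Nonempty := by
  obtain ⟨M, hM, hinv⟩ := exists_left_invariant_metric G
  subst hM
  let _ := M
  have : IsIsometricSMul G G := ⟨fun a => Isometry.of_dist_eq fun x y => hinv a x y⟩
  let _ : MeasurableSpace (pathSubgroup G) := borel _
  have : BorelSpace (pathSubgroup G) := ⟨rfl⟩
  have hactA : Measurable fun p : pathSubgroup G × X => endpoint G p.1 • p.2 :=
    hact.comp ((continuous_endpoint.measurable.comp measurable_fst).prodMk measurable_snd)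
  obtain ⟨P, hP, hPnf, hPnm, hPsep⟩ := exists_line_code pathScale
    (fun (γ : pathSubgroup G) (x : X) => endpoint G γ • x)
    (fun x => by simp) (fun g h x => by simp [mul_smul]) hactA
  let S : X → Set G := fun x => {p | p⁻¹ • x ∈ P}
  have hSm : MeasurableSet {p : X × G | p.2⁻¹ • p.1 ∈ P} := by
    have h1 : Measurable fun p : X × G => p.2⁻¹ • p.1 :=
      hact.comp ((measurable_inv.comp measurable_snd).prodMk measurable_fst)
    exact h1 hP
  have hSx : ∀ x, MeasurableSet (S x) := fun x => measurable_prodMk_left hSm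
  have hline : ∀ (x : X) (q : G), {γ : pathSubgroup G | q * endpoint G γ ∈ S x} =
      {γ : pathSubgroup G | endpoint G γ⁻¹ • q⁻¹ • x ∈ P} := by
    intro x q
    ext γ
    show (q * endpoint G γ)⁻¹ • x ∈ P ↔ endpoint G γ⁻¹ • q⁻¹ • x ∈ P
    rw [mul_inv_rev, mul_smul, map_inv]
  have hnm : ∀ x ∈ Moved G X, ¬ IsMeagre (S x) := by
    intro x hx hm
    obtain ⟨q, hq⟩ := exists_meagre_line (φ := endpoint G) continuous_endpoint hm
    rw [hline] at hq
    exact hPnm (q⁻¹ • x) (smul_mem_moved hx) hq
  refine ⟨fun x => ⟨hull (S x), isClosed_hull _⟩, ?_, ?_, ?_, ?_⟩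
  · refine @measurable_generateFrom _ _ _ _ _ ?_
    rintro _ ⟨U, hU, rfl⟩
    have h1 := measurableSet_category hSm U hU
    convert h1 using 1
    ext x
    exact hull_inter_nonempty hU
  · intro g x
    apply Closeds.ext
    show hull (S (g • x)) = (fun h => g * h) '' hull (S x)
    have hS : S (g • x) = (fun h => g⁻¹ * h) ⁻¹' S x := by
      ext p
      show p⁻¹ • g • x ∈ P ↔ (g⁻¹ * p)⁻¹ • x ∈ P
      rw [mul_inv_rev, inv_inv, mul_smul]
    rw [hS, hull_mul_left]
  · intro x hx y hxy
    have hxy' : hull (S x) = hull (S y) := congrArg (fun F : Closeds G => (F : Set G)) hxy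
    have h1 : IsMeagre ((S x \ S y) ∪ (S y \ S x)) :=
      (meagre_diff_of_hull (hSx x) (hSx y) hxy').union
        (meagre_diff_of_hull (hSx y) (hSx x) hxy'.symm)
    obtain ⟨q, hq⟩ := exists_meagre_line (φ := endpoint G) continuous_endpoint h1
    have h2 : q⁻¹ • x = q⁻¹ • y := by
      refine hPsep _ _ (smul_mem_moved hx) (hq.mono ?_)
      intro γ hγ
      have hx1 := Set.ext_iff.1 (hline x q) γ
      have hy1 := Set.ext_iff.1 (hline y q) γ
      by_cases h3 : q * endpoint G γ ∈ S x
      · by_cases h4 : q * endpoint G γ ∈ S y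
        · exact absurd ⟨fun _ => hy1.1 h4, fun _ => hx1.1 h3⟩ hγ
        · exact Or.inl ⟨h3, h4⟩
      · by_cases h4 : q * endpoint G γ ∈ S y
        · exact Or.inr ⟨h4, h3⟩
        · exact absurd ⟨fun h5 => absurd (hx1.2 h5) h3, fun h5 => absurd (hy1.2 h5) h4⟩ hγ
    exact smul_left_cancel _ h2
  · intro x hx
    refine interior_hull_nonempty (hSx x) ?_
    have := (hull_inter_nonempty (S := S x) isOpen_univ).2 (by simpa using hnm x hx)
    simpa using this

end Pool.Agent.PathAct
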