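import Pool.Agent.LeftAct.Vaught

/-! Coding of a sequence of subsets of a connected, locally connected group `A` with a left
invariant metric by one subset of `A`, up to meagre sets. -/

set_option autoImplicit false
set_option linter.unusedSectionVars false

open Topology Set Metric

namespace Pool.Agent.PathAct

open Pool.Agent.LeftAct

universe u

/-- A basis of connected open neighbourhoods of the identity, together with radii of balls which
they contain. -/
structure Scale (A : Type u) [Group A] [MetricSpace A] where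
  V : ℕ → Set A
  ρ : ℕ → ℝ
  isOpen : ∀ m, IsOpen (V m)
  preconn : ∀ m, IsPreconnected (V m)
  one_mem : ∀ m, (1 : A) ∈ V m
  anti : Antitone V
  ρ_pos : ∀ m, 0 < ρ m
  ball : ∀ m, ball (1 : A) (ρ m) ⊆ V m
  basis : ∀ W ∈ 𝓝 (1 : A), ∃ m, V m ⊆ W

variable {A : Type u} [Group A] [MetricSpace A] [IsTopologicalGroup A] [IsIsometricSMul A A]

namespace Scale

variable (S : Scale A)

/-- The open set of the centres of translates of `V m` inside `C`. -/
def R (C : Set A) (m : ℕ) : Set A := interior {p | ∀ v ∈ S.V m, p * v ∈ C}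

/-- The union of the translates of `V m` with centres in `R C m`. -/
def T (C : Set A) (m : ℕ) : Set A := {a | ∃ p ∈ S.R C m, p⁻¹ * a ∈ S.V m}

theorem isOpen_R (C : Set A) (m : ℕ) : IsOpen (S.R C m) := isOpen_interior

theorem mem_of_R {C : Set A} {m : ℕ} {p v : A} (hp : p ∈ S.R C m) (hv : v ∈ S.V m) :
    p * v ∈ C := interior_subset hp v hv

theorem isOpen_T (C : Set A) (m : ℕ) : IsOpen (S.T C m) := by
  have : S.T C m = ⋃ p ∈ S.R C m, (fun a => p⁻¹ * a) ⁻¹' S.V m := by
    ext a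
    simp [T]
  rw [this]
  exact isOpen_biUnion fun p _ => (S.isOpen m).preimage (continuous_const_mul _)

theorem T_subset (C : Set A) (m : ℕ) : S.T C m ⊆ C := by
  rintro a ⟨p, hp, hpa⟩
  have := S.mem_of_R hp hpa
  simpa using this

theorem mul_mem_T {C : Set A} {m : ℕ} {p v : A} (hp : p ∈ S.R C m) (hv : v ∈ S.V m) :
    p * v ∈ S.T C m := ⟨p, hp, by simpa using hv⟩

theorem R_subset_T (C : Set A) (m : ℕ) : S.R C m ⊆ S.T C m := fun p hp => by
  simpa using S.mul_mem_T hp (S.one_mem m)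

/-- If `C` has interior points then it contains a translate of some `V m`. -/
theorem exists_R_nonempty {C : Set A} (hC : (interior C).Nonempty) : ∃ m, (S.R C m).Nonempty := by
  obtain ⟨g, hg⟩ := hC
  have h1 : {q : A × A | q.1 * q.2 ∈ interior C} ∈ 𝓝 (g, (1 : A)) := by
    refine (isOpen_interior.preimage continuous_mul).mem_nhds ?_
    simpa using hg
  rw [nhds_prod_eq, Filter.mem_prod_iff] at h1
  obtain ⟨U, hU, W, hW, hUW⟩ := h1
  obtain ⟨m, hm⟩ := S.basis W hW
  refine ⟨m, g, ?_⟩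
  rw [R, mem_interior_iff_mem_nhds]
  refine Filter.mem_of_superset hU fun p hp v hv => ?_
  exact interior_subset (hUW (mk_mem_prod hp (hm hv)))

/-- The left endpoints of the windows. -/
noncomputable def wl (j : ℕ) : ℝ := 3 / 4 - 1 / (4 * (j + 1))

/-- The right endpoints of the windows. -/
noncomputable def wr (j : ℕ) : ℝ := 3 / 4 - 1 / (4 * (j + 2))

theorem half_le_wl (j : ℕ) : 1 / 2 ≤ wl j := by
  unfold wl
  have h : (0 : ℝ) < 4 * ((j : ℝ) + 1) := by positivity
  have h2 : 1 / (4 * ((j : ℝ) + 1)) ≤ 1 / 4 := by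
    apply one_div_le_one_div_of_le (by norm_num)
    have : (0 : ℝ) ≤ j := Nat.cast_nonneg j
    linarith
  linarith

theorem wl_lt_wr (j : ℕ) : wl j < wr j := by
  unfold wl wr
  have h2 : 1 / (4 * ((j : ℝ) + 2)) < 1 / (4 * ((j : ℝ) + 1)) := by
    apply one_div_lt_one_div_of_lt (by positivity)
    linarith
  linarith

theorem wr_lt (j : ℕ) : wr j < 3 / 4 := by
  unfold wr
  have : (0 : ℝ) < 1 / (4 * ((j : ℝ) + 2)) := by positivity
  linarith

theorem wr_le_wl {i j : ℕ} (h : i < j) : wr i ≤ wl j := by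
  unfold wl wr
  have h' : (i : ℝ) + 1 ≤ j := by exact_mod_cast h
  have h2 : 1 / (4 * ((j : ℝ) + 1)) ≤ 1 / (4 * ((i : ℝ) + 2)) := by
    apply one_div_le_one_div_of_le (by positivity)
    linarith
  linarith

theorem tendsto_wl {ε : ℝ} (hε : 0 < ε) : ∃ J : ℕ, ∀ j, J ≤ j → 3 / 4 - ε < wl j := by
  obtain ⟨J, hJ⟩ := exists_nat_gt (1 / ε)
  refine ⟨J, fun j hj => ?_⟩
  unfold wl
  have h1 : (J : ℝ) ≤ j := by exact_mod_cast hj
  have h2 : 1 / (4 * ((j : ℝ) + 1)) < ε := by
    have h0 : (0 : ℝ) < 1 / ε := by positivity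
    rw [div_lt_iff₀ (by positivity)]
    have h3 : 1 / ε < 4 * ((j : ℝ) + 1) := by linarith
    rw [div_lt_iff₀ hε] at h3
    linarith
  linarith

/-- The `j`-th window. -/
def W (C : Set A) (m s j : ℕ) : Set A :=
  {p | (1 / 2 : ℝ) ^ s * wl j < infDist p (S.T C m) ∧ infDist p (S.T C m) < (1 / 2 : ℝ) ^ s * wr j}

theorem isOpen_W (C : Set A) (m s j : ℕ) : IsOpen (S.W C m s j) :=
  (isOpen_lt continuous_const (continuous_infDist_pt _)).inter
    (isOpen_lt (continuous_infDist_pt _) continuous_const)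

/-- `s` is an admissible scale for the windows. -/
def Good (C : Set A) (m s : ℕ) : Prop :=
  (1 / 2 : ℝ) ^ s ≤ S.ρ m ∧ ∃ p, (1 / 2 : ℝ) ^ s < infDist p (S.T C m)

theorem exists_good {C : Set A} {m : ℕ} (hC : IsClosed C) (hne : C ≠ univ)
    (hR : (S.R C m).Nonempty) : ∃ s, S.Good C m s := by
  obtain ⟨p, hp⟩ := (ne_univ_iff_exists_notMem C).1 hne
  have hTne : (S.T C m).Nonempty := hR.mono (S.R_subset_T C m)
  have h1 : 0 < infDist p (S.T C m) := by
    rcases (infDist_nonneg (x := p) (s := S.T C m)).eq_or_lt with h | h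
    · exfalso
      have h2 : p ∈ closure (S.T C m) := (mem_closure_iff_infDist_zero hTne).2 h.symm
      exact hp (closure_minimal (S.T_subset C m) hC h2)
    · exact h
  obtain ⟨s, hs⟩ := exists_pow_lt_of_lt_one (lt_min (S.ρ_pos m) h1) (by norm_num : (1 / 2 : ℝ) < 1)
  exact ⟨s, (hs.trans_le (min_le_left _ _)).le, p, hs.trans_le (min_le_right _ _)⟩

/-- The set that codes the sequence `D`. -/
def code (C : Set A) (m s : ℕ) (D : ℕ → Set A) : Set A := S.T C m ∪ ⋃ j, (S.W C m s j ∩ D j)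

theorem code_inter_W (C : Set A) (m s : ℕ) (D : ℕ → Set A) (j : ℕ) :
    S.code C m s D ∩ S.W C m s j = D j ∩ S.W C m s j := by
  have hpos : (0 : ℝ) < (1 / 2 : ℝ) ^ s := by positivity
  ext p
  constructor
  · rintro ⟨hp | hp, hpW⟩
    · exfalso
      have h0 : infDist p (S.T C m) = 0 := infDist_zero_of_mem hp
      have h1 := hpW.1
      rw [h0] at h1
      have h2 := half_le_wl j
      have : (0 : ℝ) < (1 / 2 : ℝ) ^ s * wl j := mul_pos hpos (by linarith)
      linarith
    · obtain ⟨i, hiW, hiD⟩ := mem_iUnion.1 hp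
      have hij : i = j := by
        rcases lt_trichotomy i j with h | h | h
        · exfalso
          have h1 := wr_le_wl h
          have h2 := hiW.2
          have h3 := hpW.1
          have := mul_le_mul_of_nonneg_left h1 hpos.le
          linarith
        · exact h
        · exfalso
          have h1 := wr_le_wl h
          have h2 := hiW.1
          have h3 := hpW.2
          have := mul_le_mul_of_nonneg_left h1 hpos.le
          linarith
      subst hij
      exact ⟨hiD, hpW⟩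
  · rintro ⟨hD, hW⟩
    exact ⟨Or.inr (mem_iUnion.2 ⟨j, hW, hD⟩), hW⟩

end Scale

/-- A set is contained in its hull if it is open (in a Baire space). -/
theorem isOpen_subset_hull {K : Type u} [TopologicalSpace K] [BaireSpace K] {U S : Set K}
    (hU : IsOpen U) (hUS : U ⊆ S) : U ⊆ hull S := by
  intro g hg V hV hgV hm
  refine not_isMeagre_of_isOpen (hV.inter hU) ⟨g, hgV, hg⟩ (hm.mono ?_)
  exact inter_subset_inter_right _ hUS

theorem hull_subset_of_isClosed {K : Type u} [TopologicalSpace K] {Z S : Set K}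
    (hZ : IsClosed Z) (hSZ : S ⊆ Z) : hull S ⊆ Z := by
  intro g hg
  by_contra hgZ
  refine hg Zᶜ hZ.isOpen_compl hgZ ?_
  have : Zᶜ ∩ S = ∅ := by
    rw [eq_empty_iff_forall_notMem]
    rintro x ⟨hx, hxS⟩
    exact hx (hSZ hxS)
  rw [this]
  exact IsMeagre.empty

theorem hull_subset_of_meagre {K : Type u} [TopologicalSpace K] {S S' : Set K}
    (h : IsMeagre (S \ S')) : hull S ⊆ hull S' := by
  intro g hg V hV hgV hm
  refine hg V hV hgV ((hm.union h).mono ?_)
  rintro x ⟨hxV, hxS⟩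
  by_cases hx : x ∈ S'
  · exact Or.inl ⟨hxV, hx⟩
  · exact Or.inr ⟨hxS, hx⟩

namespace Scale

variable (S : Scale A)

/-- The main step of the decoding. -/
theorem R_subset_of_code [BaireSpace A] {C C' : Set A} {m m' s s' : ℕ} {D D' : ℕ → Set A}
    (hC' : IsClosed C') (hR' : (S.R C' m').Nonempty) (hmm : m ≤ m') (hs' : S.Good C' m' s')
    (h : IsMeagre (S.code C m s D \ S.code C' m' s' D')) :
    S.R C m ⊆ S.R C' m := by
  have hTne : (S.T C' m').Nonempty := hR'.mono (S.R_subset_T C' m')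
  have hpos : (0 : ℝ) < (1 / 2 : ℝ) ^ s' := by positivity
  set Z : Set A := {p | (1 / 2 : ℝ) ^ s' * (1 / 2) ≤ infDist p (S.T C' m') ∧
    infDist p (S.T C' m') ≤ (1 / 2 : ℝ) ^ s' * (3 / 4)} with hZ
  have hZc : IsClosed Z := (isClosed_le continuous_const (continuous_infDist_pt _)).inter
    (isClosed_le (continuous_infDist_pt _) continuous_const)
  have h1 : S.T C m ⊆ closure (S.T C' m') ∪ Z := by
    have h2 : S.T C m ⊆ hull (S.code C m s D) :=
      isOpen_subset_hull (S.isOpen_T C m) subset_union_left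
    refine h2.trans ((hull_subset_of_meagre h).trans ?_)
    refine hull_subset_of_isClosed (isClosed_closure.union hZc) ?_
    rintro p (hp | hp)
    · exact Or.inl (subset_closure hp)
    · obtain ⟨j, hjW, _⟩ := mem_iUnion.1 hp
      refine Or.inr ⟨?_, ?_⟩
      · exact (mul_le_mul_of_nonneg_left (half_le_wl j) hpos.le).trans hjW.1.le
      · exact hjW.2.le.trans (mul_le_mul_of_nonneg_left (wr_lt j).le hpos.le)
  have hdisj : ∀ p, p ∈ closure (S.T C' m') → p ∉ Z := by
    intro p hp hpZ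
    have h0 : infDist p (S.T C' m') = 0 := (mem_closure_iff_infDist_zero hTne).1 hp
    have h3 := hpZ.1
    rw [h0] at h3
    have : (0 : ℝ) < (1 / 2 : ℝ) ^ s' * (1 / 2) := by positivity
    linarith
  refine interior_maximal ?_ (S.isOpen_R C m)
  intro p hp
  -- the translate of `V m` is connected
  have hsub : ∀ v ∈ S.V m, p * v ∈ closure (S.T C' m') ∪ Z := fun v hv =>
    h1 (S.mul_mem_T hp hv)
  have hconn : IsPreconnected ((fun v => p * v) '' S.V m) :=
    (S.preconn m).image _ (continuous_const_mul p).continuousOn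
  have hnot : ∀ x, x ∈ (fun v => p * v) '' S.V m → ∀ y, y ∈ (fun v => p * v) '' S.V m →
      x ∈ closure (S.T C' m') → y ∉ Z := by
    intro x hx y hy hxT hyZ
    have h4 := isPreconnected_closed_iff.1 hconn _ _ isClosed_closure hZc
      (by rintro _ ⟨v, hv, rfl⟩; exact hsub v hv) ⟨x, hx, hxT⟩ ⟨y, hy, hyZ⟩
    obtain ⟨z, _, hz1, hz2⟩ := h4
    exact hdisj z hz1 hz2
  have hpT : p ∈ closure (S.T C' m') := by
    have hp1 : p ∈ closure (S.T C' m') ∪ Z := by simpa using hsub 1 (S.one_mem m)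
    rcases hp1 with hp1 | hp1
    · exact hp1
    · exfalso
      have h5 : infDist p (S.T C' m') < S.ρ m' := by
        refine hp1.2.trans_lt (lt_of_lt_of_le ?_ hs'.1)
        nlinarith
      obtain ⟨t, ht, hpt⟩ := (infDist_lt_iff hTne).1 h5
      have h6 : p⁻¹ * t ∈ S.V m := by
        refine S.anti hmm (S.ball m' ?_)
        rw [mem_ball, dist_comm, ← dist_mul_left p, mul_one, mul_inv_cancel_left]
        exact hpt
      refine hnot t ⟨p⁻¹ * t, h6, by simp⟩ p ⟨1, S.one_mem m, by simp⟩ (subset_closure ht) hp1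
  intro v hv
  rcases hsub v hv with hv1 | hv1
  · exact closure_minimal (S.T_subset C' m') hC' hv1
  · exact absurd hv1 (hnot p ⟨1, S.one_mem m, by simp⟩ _ ⟨v, hv, rfl⟩ hpT)

/-- **Decoding.** -/
theorem decode [BaireSpace A] {C C' : Set A} {m m' s s' : ℕ} {D D' : ℕ → Set A}
    (hC : IsClosed C) (hC' : IsClosed C') (hR : (S.R C m).Nonempty) (hR' : (S.R C' m').Nonempty)
    (hmin : ∀ k, (S.R C k).Nonempty → m ≤ k) (hmin' : ∀ k, (S.R C' k).Nonempty → m' ≤ k)
    (hs : S.Good C m s) (hs' : S.Good C' m' s')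
    (hsmin : ∀ k, S.Good C m k → s ≤ k) (hsmin' : ∀ k, S.Good C' m' k → s' ≤ k)
    (h : IsMeagre (S.code C m s D \ S.code C' m' s' D'))
    (h' : IsMeagre (S.code C' m' s' D' \ S.code C m s D)) :
    m = m' ∧ s = s' ∧ S.T C m = S.T C' m' ∧
      ∀ j, IsMeagre {p | p ∈ S.W C m s j ∧ ¬ (p ∈ D j ↔ p ∈ D' j)} := by
  have hmm : m = m' := by
    rcases le_total m m' with h1 | h1
    · refine le_antisymm h1 (hmin' m ?_)
      exact hR.mono (S.R_subset_of_code hC' hR' h1 hs' h)
    · refine le_antisymm (hmin m' ?_) h1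
      exact hR'.mono (S.R_subset_of_code hC hR h1 hs h')
  subst hmm
  have hRR : S.R C m = S.R C' m :=
    Subset.antisymm (S.R_subset_of_code hC' hR' le_rfl hs' h)
      (S.R_subset_of_code hC hR le_rfl hs h')
  have hTT : S.T C m = S.T C' m := by
    ext a
    simp [T, hRR]
  have hgood : ∀ k, S.Good C m k ↔ S.Good C' m k := fun k => by simp [Good, hTT]
  have hss : s = s' := le_antisymm (hsmin s' ((hgood s').2 hs')) (hsmin' s ((hgood s).1 hs))
  subst hss
  have hWW : ∀ j, S.W C m s j = S.W C' m s j := fun j => by simp [W, hTT]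
  refine ⟨rfl, rfl, hTT, fun j => (h.union h').mono ?_⟩
  rintro p ⟨hpW, hp⟩
  have h1 : p ∈ S.code C m s D ↔ p ∈ D j := by
    have := S.code_inter_W C m s D j
    constructor
    · intro hc
      have : p ∈ D j ∩ S.W C m s j := this ▸ ⟨hc, hpW⟩
      exact this.1
    · intro hd
      have h2 : p ∈ S.code C m s D ∩ S.W C m s j := this ▸ ⟨hd, hpW⟩
      exact h2.1
  have h2 : p ∈ S.code C' m s D' ↔ p ∈ D' j := by
    have h3 := S.code_inter_W C' m s D' j
    rw [← hWW j] at h3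
    constructor
    · intro hc
      have : p ∈ D' j ∩ S.W C m s j := h3 ▸ ⟨hc, hpW⟩
      exact this.1
    · intro hd
      have h4 : p ∈ S.code C' m s D' ∩ S.W C m s j := h3 ▸ ⟨hd, hpW⟩
      exact h4.1
  by_cases hd : p ∈ D j
  · have hd' : p ∉ D' j := fun hd' => hp ⟨fun _ => hd', fun _ => hd⟩
    exact Or.inl ⟨h1.2 hd, fun hc => hd' (h2.1 hc)⟩
  · have hd' : p ∈ D' j := by
      by_contra hd'
      exact hp ⟨fun h5 => absurd h5 hd, fun h5 => absurd h5 hd'⟩
    exact Or.inr ⟨h2.2 hd', fun hc => hd (h1.1 hc)⟩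

/-- **Coverage**: translates of the windows are dense. -/
theorem coverage [PreconnectedSpace A] {C : Set A} {m s : ℕ}
    (hR : (S.R C m).Nonempty) (hs : S.Good C m s) {lam : ℕ → A}
    (hlam : ∀ O : Set A, IsOpen O → O.Nonempty → ∀ N, ∃ i, N ≤ i ∧ lam i ∈ O) (q : A)
    {O : Set A} (hO : IsOpen O) (hq : q ∈ O) (k : ℕ) :
    ∃ i, ∃ p ∈ S.W C m s (Nat.pair i k), p * lam i ∈ O := by
  have hpos : (0 : ℝ) < (1 / 2 : ℝ) ^ s := by positivity
  have hTne : (S.T C m).Nonempty := hR.mono (S.R_subset_T C m)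
  set c : ℝ := (1 / 2 : ℝ) ^ s * (3 / 4) with hc
  have hcpos : 0 < c := by positivity
  set B : Set A := {p | infDist p (S.T C m) < c} with hB
  have hBo : IsOpen B := isOpen_lt (continuous_infDist_pt _) continuous_const
  have hBne : B.Nonempty := by
    obtain ⟨t, ht⟩ := hTne
    refine ⟨t, ?_⟩
    show infDist t (S.T C m) < c
    rw [infDist_zero_of_mem ht]
    exact hcpos
  have hBu : B ≠ univ := by
    intro h
    obtain ⟨p, hp⟩ := hs.2
    have : p ∈ B := h ▸ mem_univ p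
    have h1 : infDist p (S.T C m) < c := this
    rw [hc] at h1
    nlinarith
  obtain ⟨p₀, hp₀⟩ := nonempty_frontier_iff.2 ⟨hBne, hBu⟩
  have hp₀c : p₀ ∈ closure B := hp₀.1
  have hp₀B : p₀ ∉ B := by
    have := hp₀.2
    rwa [hBo.interior_eq] at this
  have hge : c ≤ infDist p₀ (S.T C m) := not_lt.1 hp₀B
  -- continuity
  have h1 : {w : A × A | p₀ * w.1 * w.2 ∈ O} ∈ 𝓝 ((1 : A), p₀⁻¹ * q) := by
    refine (hO.preimage (by fun_prop)).mem_nhds ?_
    simpa using hq
  rw [nhds_prod_eq, Filter.mem_prod_iff] at h1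
  obtain ⟨U, hU, Γ, hΓ, hUΓ⟩ := h1
  obtain ⟨n, hn⟩ := S.basis U hU
  have hVo : IsOpen ((fun v => p₀ * v) '' S.V n) := isOpenMap_mul_left p₀ _ (S.isOpen n)
  obtain ⟨p₁, hp₁V, hp₁B⟩ := mem_closure_iff.1 hp₀c _ hVo ⟨1, S.one_mem n, by simp⟩
  have hconn : IsPreconnected ((fun v => p₀ * v) '' S.V n) :=
    (S.preconn n).image _ (continuous_const_mul p₀).continuousOn
  have hp₀V : p₀ ∈ (fun v => p₀ * v) '' S.V n := ⟨1, S.one_mem n, by simp⟩
  have hivt := hconn.intermediate_value hp₁V hp₀V (f := fun p => infDist p (S.T C m))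
    (continuous_infDist_pt (S.T C m)).continuousOn
  have hlt : infDist p₁ (S.T C m) < c := hp₁B
  obtain ⟨J, hJ⟩ := tendsto_wl (ε := (c - infDist p₁ (S.T C m)) / (1 / 2 : ℝ) ^ s)
    (div_pos (by linarith) hpos)
  obtain ⟨i, hi, hiΓ⟩ := hlam (interior Γ) isOpen_interior ⟨_, mem_interior_iff_mem_nhds.2 hΓ⟩ J
  have hj : J ≤ Nat.pair i k := hi.trans (Nat.left_le_pair i k)
  have h3 := hJ _ hj
  have h4 : infDist p₁ (S.T C m) < (1 / 2 : ℝ) ^ s * wl (Nat.pair i k) := by
    have h5 : (1 / 2 : ℝ) ^ s * (3 / 4 - (c - infDist p₁ (S.T C m)) / (1 / 2 : ℝ) ^ s) <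
        (1 / 2 : ℝ) ^ s * wl (Nat.pair i k) := mul_lt_mul_of_pos_left h3 hpos
    rw [mul_sub, mul_div_cancel₀ _ hpos.ne', ← hc] at h5
    linarith
  set j := Nat.pair i k with hjdef
  have h6 : (1 / 2 : ℝ) ^ s * wl j < (1 / 2 : ℝ) ^ s * wr j :=
    mul_lt_mul_of_pos_left (wl_lt_wr j) hpos
  have h7 : (1 / 2 : ℝ) ^ s * wr j < c := mul_lt_mul_of_pos_left (wr_lt j) hpos
  have hmem : ((1 / 2 : ℝ) ^ s * wl j + (1 / 2 : ℝ) ^ s * wr j) / 2 ∈
      Icc (infDist p₁ (S.T C m)) (infDist p₀ (S.T C m)) := by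
    constructor <;> linarith
  obtain ⟨p, hpV, hp⟩ := hivt hmem
  obtain ⟨v, hv, rfl⟩ := hpV
  refine ⟨i, p₀ * v, ⟨?_, ?_⟩, ?_⟩
  · have : infDist (p₀ * v) (S.T C m) =
      ((1 / 2 : ℝ) ^ s * wl j + (1 / 2 : ℝ) ^ s * wr j) / 2 := hp
    rw [this]
    linarith
  · have : infDist (p₀ * v) (S.T C m) =
      ((1 / 2 : ℝ) ^ s * wl j + (1 / 2 : ℝ) ^ s * wr j) / 2 := hp
    rw [this]
    linarith
  · exact hUΓ (mk_mem_prod (hn hv) (interior_subset hiΓ))

end Scale

end Pool.Agent.PathAct
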