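import Pool.Agent.PathAct.Relative

/-! Universality of the left action: the points fixed by the path component are coded by means of a
subgroup of infinite index. -/

set_option autoImplicit false
set_option linter.unusedSectionVars false

open Topology Set TopologicalSpace

namespace Pool.Agent.PathAct

open Pool.Agent.LeftAct

universe u v

variable {G : Type u} [Group G] [TopologicalSpace G] [IsTopologicalGroup G] [PolishSpace G]
  [MeasurableSpace G] [BorelSpace G]

theorem mem_of_isOpen_of_mem {L : Subgroup G} (ho : IsOpen (L : Set G)) {g : G}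
    (hg : g ∈ pathComponent (1 : G)) : g ∈ L := by
  have h1 : IsClopen (L : Set G) := ⟨L.isClosed_of_isOpen ho, ho⟩
  exact h1.connectedComponent_subset L.one_mem (pathComponent_subset_component _ hg)

theorem translate_translate (g h : G) (F : Closeds G) :
    translate g (translate h F) = translate (g * h) F := by
  apply Closeds.ext
  show (fun x => g * x) '' ((fun x => h * x) '' (F : Set G)) =
    (fun x => g * h * x) '' (F : Set G)
  rw [image_image]
  simp [mul_assoc]

theorem interior_translate_nonempty {g : G} {F : Closeds G}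
    (h : (interior (translate g F : Set G)).Nonempty) : (interior (F : Set G)).Nonempty := by
  obtain ⟨z, hz⟩ := h
  refine ⟨g⁻¹ * z, ?_⟩
  have h1 : IsOpen ((fun h => g * h) ⁻¹' interior (translate g F : Set G)) :=
    isOpen_interior.preimage (continuous_const_mul g)
  have h2 : (fun h => g * h) ⁻¹' interior (translate g F : Set G) ⊆ (F : Set G) := by
    intro w hw
    have hw' : g * w ∈ (fun h => g * h) '' (F : Set G) := interior_subset hw
    obtain ⟨v, hv, hvw⟩ := hw'
    have : v = w := mul_left_cancel hvw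
    rwa [← this]
  have h3 := interior_maximal h2 h1
  refine h3 ?_
  show g * (g⁻¹ * z) ∈ interior (translate g F : Set G)
  rwa [mul_inv_cancel_left]

/-- The case of a homomorphism from a subgroup of infinite index onto the quotient by the closure
of the path component, modulo a compact normal subgroup. -/
theorem universal_of_virtual (G₀ : Subgroup G) [G₀.Normal]
    (h₀ : (G₀ : Set G) = closure (pathComponent (1 : G))) (N : Subgroup (G ⧸ G₀)) [N.Normal]
    (L : Subgroup G) (hN : IsCompact (N : Set (G ⧸ G₀))) (hL : IsClosed (L : Set G))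
    (hidx : L.index = 0) (φ : L →* G ⧸ G₀) (hφ : Continuous φ)
    (hNL : ¬ IsOpen (L : Set G) ∨
      ((N : Set (G ⧸ G₀)).Finite ∧ ∀ l : L, (l : G) ∈ G₀ → φ l = 1))
    (hs : ∀ g : G ⧸ G₀, ∃ l : L, ∃ n ∈ N, φ l * n = g) :
    LeftActionUniversal.{u, v} G := by
  classical
  intro X _ _ _ hact
  have hcl : IsClosed (G₀ : Set G) := by
    rw [h₀]
    exact isClosed_closure
  have hX₀ : MeasurableSet (Moved G X)ᶜ := (measurableSet_moved hact).compl
  have hinv : ∀ (g : G), ∀ x ∈ (Moved G X)ᶜ, g • x ∈ (Moved G X)ᶜ := fun g x hx h =>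
    hx (smul_mem_moved_iff.1 h)
  have hfix : ∀ x ∈ (Moved G X)ᶜ, ∀ g ∈ G₀, g • x = x := fun x hx g hg =>
    fixed_of_notMem_moved hact h₀ hx hg
  let _ := quotAction G₀ _ hinv hfix
  have : StandardBorelSpace ((Moved G X)ᶜ : Set X) := hX₀.standardBorel
  have : IsClosed (G₀ : Set G) := hcl
  have : T2Space (G ⧸ G₀) := inferInstance
  have : SecondCountableTopology (G ⧸ G₀) := inferInstance
  have hNL' : (N : Set (G ⧸ G₀)).Finite ∨ ¬ IsOpen (L : Set G) := by
    rcases hNL with h | h
    · exact Or.inr h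
    · exact Or.inl h.1
  obtain ⟨h, hm, hi, he, hint, hst⟩ := exists_relative_coding
    (measurable_quotAction G₀ hcl hact hX₀ hinv hfix) N L hN hL hidx hNL' φ hφ (by
    intro g x
    obtain ⟨l, n, hn, rfl⟩ := hs g
    exact ⟨l, n, hn, rfl⟩)
  let f₂ : X → Closeds G := fun x => if hx : x ∈ (Moved G X)ᶜ then h ⟨x, hx⟩ else ⊥
  have hf₂ : ∀ x (hx : x ∈ (Moved G X)ᶜ), f₂ x = h ⟨x, hx⟩ := fun x hx => dif_pos hx
  refine combine hact f₂ ?_ ?_ ?_ ?_
  · intro U hU
    have h1 : MeasurableSet {y : ((Moved G X)ᶜ : Set X) | ((h y : Set G) ∩ U).Nonempty} :=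
      hm (MeasurableSpace.measurableSet_generateFrom ⟨_, hU, rfl⟩)
    have h2 := hX₀.subtype_image h1
    convert h2 using 1
    ext x
    constructor
    · rintro ⟨hx, hne⟩
      refine ⟨⟨x, hx⟩, ?_, rfl⟩
      rw [hf₂ x hx] at hne
      exact hne
    · rintro ⟨y, hy, rfl⟩
      refine ⟨y.2, ?_⟩
      rw [hf₂ y y.2]
      exact hy
  · intro x hx y hy hxy
    rw [hf₂ x hx, hf₂ y hy] at hxy
    exact congrArg Subtype.val (hi hxy)
  · intro x hx y hy
    rw [hf₂ x hx, hf₂ y hy, ← he]
    constructor
    · rintro ⟨g, hg⟩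
      refine ⟨QuotientGroup.mk g, Subtype.ext ?_⟩
      rw [quotAction_mk G₀ _ hinv hfix g ⟨y, hy⟩]
      exact hg
    · rintro ⟨q, hq⟩
      obtain ⟨g, rfl⟩ := QuotientGroup.mk_surjective q
      refine ⟨g, ?_⟩
      have h1 := congrArg Subtype.val hq
      rw [quotAction_mk G₀ _ hinv hfix g ⟨y, hy⟩] at h1
      exact h1
  · intro f hfe hfi hfn x hx y hy g hg
    by_cases ho : IsOpen (L : Set G)
    · have hker : ∀ l : L, (l : G) ∈ G₀ → φ l = 1 := by
        rcases hNL with h | h
        · exact absurd ho h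
        · exact h.2
      obtain ⟨γ, hγ⟩ := hx
      apply hγ
      symm
      apply hfi x ⟨γ, hγ⟩
      obtain ⟨j, hj⟩ := hst ⟨y, hy⟩
      obtain ⟨γ', hγ'⟩ := endpoint_normal (g * j)⁻¹ γ
      have hpc : endpoint G γ' ∈ pathComponent (1 : G) := by
        rw [← range_endpoint]
        exact mem_range_self γ'
      have hmem : endpoint G γ' ∈ L := mem_of_isOpen_of_mem ho hpc
      have hmem₀ : endpoint G γ' ∈ G₀ := by
        show endpoint G γ' ∈ (G₀ : Set G)
        rw [h₀]
        exact subset_closure hpc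
      have hj' := hj ⟨endpoint G γ', hmem⟩ (by
        rw [hker ⟨endpoint G γ', hmem⟩ hmem₀, one_smul])
      rw [hfe, ← hg, hf₂ y hy, translate_translate]
      have h2 : endpoint G γ * g = g * (j * endpoint G γ' * j⁻¹) := by
        rw [hγ']
        group
      rw [h2, ← translate_translate]
      exact congrArg _ hj'.symm
    · have h1 := hfn x hx
      rw [← hg, hf₂ y hy] at h1
      have h2 := interior_translate_nonempty h1
      rw [hint ho] at h2
      exact absurd h2 (by simp)

/-- The case of a compact quotient. -/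
theorem universal_of_compact (G₀ : Subgroup G) [G₀.Normal]
    (h₀ : (G₀ : Set G) = closure (pathComponent (1 : G))) (hne : G₀ ≠ ⊥)
    [CompactSpace (G ⧸ G₀)] : LeftActionUniversal.{u, v} G := by
  have hno : ¬ IsOpen ((⊥ : Subgroup G) : Set G) := by
    intro ho
    apply hne
    rw [Subgroup.eq_bot_iff_forall]
    intro g hg
    have h2 : pathComponent (1 : G) ⊆ ((⊥ : Subgroup G) : Set G) := fun g hg =>
      mem_of_isOpen_of_mem ho hg
    have h3 : g ∈ closure (pathComponent (1 : G)) := by
      rw [← h₀]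
      exact hg
    have h4 : IsClosed ((⊥ : Subgroup G) : Set G) := by simp
    exact closure_minimal h2 h4 h3
  refine universal_of_virtual G₀ h₀ ⊤ ⊥ ?_ ?_ ?_ (1 : (⊥ : Subgroup G) →* G ⧸ G₀)
    continuous_const (Or.inl hno) fun g => ⟨1, g, Subgroup.mem_top g, by simp⟩
  · rw [Subgroup.coe_top]
    exact isCompact_univ
  · simp
  · rw [Subgroup.index_bot]
    by_contra hcard
    have hfin : Finite G := Nat.finite_of_card_ne_zero hcard
    exact hno (isOpen_discrete _)

/-- The equivariant map. -/
theorem exists_equivariant_map (G₀ : Subgroup G) [G₀.Normal]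
    (h₀ : (G₀ : Set G) = closure (pathComponent (1 : G))) (X : Type v) [MeasurableSpace X]
    [StandardBorelSpace X] [MulAction G X] (hact : Measurable fun p : G × X => p.1 • p.2) :
    ∃ f : X → Closeds G, @Measurable X (Closeds G) _ (effros G) f ∧
      (∀ (g : G) x, f (g • x) = translate g (f x)) ∧
      ∀ x y, (∃ g ∈ G₀, g • x ≠ x) → f x = f y → x = y := by
  obtain ⟨f, hm, he, hi, -⟩ := exists_moved_coding (G := G) (X := X) hact
  refine ⟨f, hm, he, fun x y ⟨g, hg, hgx⟩ hxy => hi x ?_ y hxy⟩
  by_contra hcon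
  exact hgx (fixed_of_notMem_moved hact h₀ hcon hg)

end Pool.Agent.PathAct
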