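import Pool.Agent.PathAct.NonArchMain
import Pool.Agent.PathAct.Virtual

/-! Universality of the left action: groups whose quotient by the closure of the path component is
non-archimedean and complete. -/

set_option autoImplicit false
set_option linter.unusedSectionVars false

open Topology Set TopologicalSpace

namespace Pool.Agent.PathAct

open Pool.Agent.LeftAct

universe u v

variable {G : Type u} [Group G] [TopologicalSpace G] [IsTopologicalGroup G] [PolishSpace G]
  [MeasurableSpace G] [BorelSpace G] {X : Type v} [MeasurableSpace X] [StandardBorelSpace X]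
  [MulAction G X]

theorem preimage_injective' (G₀ : Subgroup G) [G₀.Normal] :
    Function.Injective fun C : Closeds (G ⧸ G₀) =>
      (C.preimage QuotientGroup.continuous_mk : Closeds G) := by
  intro C C' hCC
  have h1 : (QuotientGroup.mk : G → G ⧸ G₀) ⁻¹' (C : Set (G ⧸ G₀)) =
      (QuotientGroup.mk : G → G ⧸ G₀) ⁻¹' (C' : Set (G ⧸ G₀)) :=
    congrArg (fun F : Closeds G => (F : Set G)) hCC
  apply Closeds.ext
  exact (QuotientGroup.mk_surjective (s := G₀)).preimage_injective h1

/-- The points with a non-open stabilizer embed equivariantly. -/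
theorem exists_nonopen_coding (G₀ : Subgroup G) [G₀.Normal]
    (h₀ : (G₀ : Set G) = closure (pathComponent (1 : G))) [NonarchimedeanGroup (G ⧸ G₀)]
    (hcomp : @CompleteSpace (G ⧸ G₀) (IsTopologicalGroup.leftUniformSpace (G ⧸ G₀)))
    (hact : Measurable fun p : G × X => p.1 • p.2) :
    ∃ f : X → Closeds G, @Measurable X (Closeds G) _ (effros G) f ∧
      (∀ (g : G) x, f (g • x) = translate g (f x)) ∧
      (∀ x, ¬ IsOpen {g : G | g • x = x} → ∀ y, f x = f y → x = y) ∧
      ∀ x, ¬ IsOpen {g : G | g • x = x} → (interior (f x : Set G)).Nonempty := by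
  classical
  have hcl : IsClosed (G₀ : Set G) := by
    rw [h₀]
    exact isClosed_closure
  have hMm := measurableSet_moved (G := G) (X := X) hact
  have hX₀ : MeasurableSet (Moved G X)ᶜ := hMm.compl
  have hinv : ∀ (g : G), ∀ x ∈ (Moved G X)ᶜ, g • x ∈ (Moved G X)ᶜ := fun g x hx h =>
    hx (smul_mem_moved_iff.1 h)
  have hfix : ∀ x ∈ (Moved G X)ᶜ, ∀ g ∈ G₀, g • x = x := fun x hx g hg =>
    fixed_of_notMem_moved hact h₀ hx hg
  let _ := quotAction G₀ _ hinv hfix
  have : StandardBorelSpace ((Moved G X)ᶜ : Set X) := hX₀.standardBorel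
  have : IsClosed (G₀ : Set G) := hcl
  have : T2Space (G ⧸ G₀) := inferInstance
  have : SecondCountableTopology (G ⧸ G₀) := inferInstance
  have : PolishSpace (G ⧸ G₀) := by
    let _ : UniformSpace (G ⧸ G₀) := IsTopologicalGroup.leftUniformSpace (G ⧸ G₀)
    have h1 : (uniformity (G ⧸ G₀)).IsCountablyGenerated := by
      rw [show uniformity (G ⧸ G₀) = Filter.comap
        (fun p : (G ⧸ G₀) × (G ⧸ G₀) => p.1⁻¹ * p.2) (𝓝 (1 : G ⧸ G₀)) from rfl]
      infer_instance
    let _ := UniformSpace.metricSpace (G ⧸ G₀)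
    infer_instance
  obtain ⟨h, hm, he, hi, hint⟩ := NA.exists_free_coding (H := G ⧸ G₀)
    (X := ((Moved G X)ᶜ : Set X)) hcomp (measurable_quotAction G₀ hcl hact hX₀ hinv hfix)
  obtain ⟨f₁, h1m, h1e, h1i, h1n⟩ := exists_moved_coding (G := G) (X := X) hact
  have hpre := preimage_injective' G₀
  let f : X → Closeds G := fun x =>
    if hx : x ∈ (Moved G X)ᶜ then (h ⟨x, hx⟩).preimage QuotientGroup.continuous_mk else f₁ x
  have hf₁ : ∀ x, x ∈ Moved G X → f x = f₁ x := fun x hx => dif_neg (not_not_intro hx)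
  have hf₂ : ∀ x (hx : x ∈ (Moved G X)ᶜ),
      f x = (h ⟨x, hx⟩).preimage QuotientGroup.continuous_mk := fun x hx => dif_pos hx
  have hstab : ∀ x (hx : x ∈ (Moved G X)ᶜ), ¬ IsOpen {g : G | g • x = x} →
      ¬ IsOpen {q : G ⧸ G₀ | q • (⟨x, hx⟩ : ((Moved G X)ᶜ : Set X)) = ⟨x, hx⟩} := by
    intro x hx hno ho
    apply hno
    have h1 := ho.preimage (QuotientGroup.continuous_mk (N := G₀))
    convert h1 using 1
    ext g
    show g • x = x ↔ (QuotientGroup.mk g : G ⧸ G₀) • (⟨x, hx⟩ : ((Moved G X)ᶜ : Set X)) = ⟨x, hx⟩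
    rw [Subtype.ext_iff, quotAction_mk G₀ _ hinv hfix g ⟨x, hx⟩]
  have hdisj : ∀ x ∈ Moved G X, ∀ y ∉ Moved G X, f x ≠ f y := by
    intro x hx y hy hxy
    obtain ⟨γ, hγ⟩ := hx
    apply hγ
    symm
    apply h1i x ⟨γ, hγ⟩
    have hk : endpoint G γ ∈ G₀ := by
      show endpoint G γ ∈ (G₀ : Set G)
      rw [h₀]
      refine subset_closure ?_
      rw [← range_endpoint]
      exact mem_range_self γ
    rw [hf₁ x ⟨γ, hγ⟩, hf₂ y hy] at hxy
    rw [h1e, hxy, translate_preimage]
    congr 1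
    apply Closeds.ext
    show (h ⟨y, hy⟩ : Set (G ⧸ G₀)) =
      (fun z => (QuotientGroup.mk (endpoint G γ) : G ⧸ G₀) * z) '' (h ⟨y, hy⟩ : Set (G ⧸ G₀))
    have h1 : (QuotientGroup.mk (endpoint G γ) : G ⧸ G₀) = 1 := (QuotientGroup.eq_one_iff _).2 hk
    rw [h1]
    simp
  refine ⟨f, ?_, ?_, ?_, ?_⟩
  · refine @measurable_generateFrom _ _ _ _ _ ?_
    rintro _ ⟨U, hU, rfl⟩
    have hU' : IsOpen ((QuotientGroup.mk : G → G ⧸ G₀) '' U) := QuotientGroup.isOpenMap_coe U hU
    have h1 : MeasurableSet {y : ((Moved G X)ᶜ : Set X) |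
        ((h y : Set (G ⧸ G₀)) ∩ (QuotientGroup.mk : G → G ⧸ G₀) '' U).Nonempty} :=
      hm (MeasurableSpace.measurableSet_generateFrom ⟨_, hU', rfl⟩)
    have h2 := hX₀.subtype_image h1
    have h3 : MeasurableSet (f₁ ⁻¹' {F : Closeds G | ((F : Set G) ∩ U).Nonempty}) :=
      h1m (MeasurableSpace.measurableSet_generateFrom ⟨U, hU, rfl⟩)
    convert (hMm.inter h3).union h2 using 1
    ext x
    constructor
    · intro hx
      by_cases hxM : x ∈ Moved G X
      · refine Or.inl ⟨hxM, ?_⟩
        have hx' : ((f x : Set G) ∩ U).Nonempty := hx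
        rw [hf₁ x hxM] at hx'
        exact hx'
      · obtain ⟨g, hg, hgU⟩ : ((f x : Set G) ∩ U).Nonempty := hx
        refine Or.inr ⟨⟨x, hxM⟩, ⟨QuotientGroup.mk g, ?_, g, hgU, rfl⟩, rfl⟩
        rw [hf₂ x hxM] at hg
        exact hg
    · rintro (⟨hxM, hx⟩ | ⟨y, ⟨q, hq, g, hgU, rfl⟩, rfl⟩)
      · show ((f x : Set G) ∩ U).Nonempty
        rw [hf₁ x hxM]
        exact hx
      · refine ⟨g, ?_, hgU⟩
        rw [hf₂ y y.2]
        exact hq
  · intro g x
    by_cases hx : x ∈ Moved G X
    · rw [hf₁ x hx, hf₁ _ (smul_mem_moved hx), h1e]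
    · rw [hf₂ x hx, hf₂ _ (hinv g x hx), translate_preimage, ← he]
      congr 2
      exact Subtype.ext (quotAction_mk G₀ _ hinv hfix g ⟨x, hx⟩).symm
  · intro x hno y hxy
    by_cases hx : x ∈ Moved G X
    · by_cases hy : y ∈ Moved G X
      · rw [hf₁ x hx, hf₁ y hy] at hxy
        exact h1i x hx y hxy
      · exact absurd hxy (hdisj x hx y hy)
    · by_cases hy : y ∈ Moved G X
      · exact absurd hxy.symm (hdisj y hy x hx)
      · rw [hf₂ x hx, hf₂ y hy] at hxy
        exact congrArg Subtype.val (hi _ (hstab x hx hno) _ (hpre hxy))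
  · intro x hno
    by_cases hx : x ∈ Moved G X
    · rw [hf₁ x hx]
      exact h1n x hx
    · rw [hf₂ x hx]
      obtain ⟨q, hq⟩ := hint ⟨x, hx⟩ (hstab x hx hno)
      obtain ⟨g, rfl⟩ := QuotientGroup.mk_surjective q
      have h1 : IsOpen ((QuotientGroup.mk : G → G ⧸ G₀) ⁻¹'
          interior (h ⟨x, hx⟩ : Set (G ⧸ G₀))) :=
        isOpen_interior.preimage QuotientGroup.continuous_mk
      have h2 : (QuotientGroup.mk : G → G ⧸ G₀) ⁻¹' interior (h ⟨x, hx⟩ : Set (G ⧸ G₀)) ⊆
          (((h ⟨x, hx⟩).preimage QuotientGroup.continuous_mk : Closeds G) : Set G) := by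
        intro z hz
        have h5 : (QuotientGroup.mk z : G ⧸ G₀) ∈ (h ⟨x, hx⟩ : Set (G ⧸ G₀)) :=
          interior_subset hz
        exact h5
      exact ⟨g, interior_maximal h2 h1 hq⟩

theorem measurableSet_isOpen_stabilizer (hact : Measurable fun p : G × X => p.1 • p.2) :
    MeasurableSet {x : X | IsOpen {g : G | g • x = x}} := by
  obtain ⟨C, hCc, hC⟩ := exists_countable_dense G
  obtain ⟨B, hB⟩ := (𝓝 (1 : G)).exists_antitone_basis
  have h1 : {x : X | IsOpen {g : G | g • x = x}} =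
      ⋃ n, ⋂ c ∈ C ∩ interior (B n), {x | c • x = x} := by
    ext x
    simp only [mem_iUnion, mem_iInter, mem_ofPred_eq]
    constructor
    · intro ho
      obtain ⟨n, -, hn⟩ := hB.1.mem_iff.1 (ho.mem_nhds (one_smul G x))
      exact ⟨n, fun c hc => hn (interior_subset hc.2)⟩
    · rintro ⟨n, hn⟩
      have h2 : interior (B n) ⊆ closure (C ∩ interior (B n)) := by
        rw [inter_comm]
        exact hC.open_subset_closure_inter isOpen_interior
      have h3 : interior (B n) ⊆ {g : G | g • x = x} :=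
        h2.trans (closure_minimal hn (isClosed_stabilizer hact x))
      have h4 : IsOpen ((MulAction.stabilizer G x : Subgroup G) : Set G) := by
        refine Subgroup.isOpen_of_mem_nhds _ (g := 1) ?_
        refine Filter.mem_of_superset (interior_mem_nhds.2 (hB.1.mem_of_mem trivial)) h3
      exact h4
  rw [h1]
  refine MeasurableSet.iUnion fun n => MeasurableSet.biInter (hCc.mono inter_subset_left)
    fun c _ => ?_
  have h2 : Measurable fun x : X => c • x := hact.comp measurable_prodMk_left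
  exact measurableSet_eq_fun h2 measurable_id

/-- Putting two embeddings together. -/
theorem combine' {M : Set X} (hMm : MeasurableSet M) (hMi : ∀ (g : G) x, g • x ∈ M ↔ x ∈ M)
    (f₁ f₂ : X → Closeds G) (h1m : @Measurable X (Closeds G) _ (effros G) f₁)
    (h1e : ∀ (g : G) x, f₁ (g • x) = translate g (f₁ x))
    (h1i : ∀ x ∈ M, ∀ y, f₁ x = f₁ y → x = y)
    (hm : ∀ U : Set G, IsOpen U → MeasurableSet {x | x ∉ M ∧ ((f₂ x : Set G) ∩ U).Nonempty})
    (hinj : ∀ x ∉ M, ∀ y ∉ M, f₂ x = f₂ y → x = y)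
    (hiff : ∀ x ∉ M, ∀ y ∉ M, (∃ g : G, g • y = x) ↔ ∃ g : G, translate g (f₂ y) = f₂ x)
    (hd : ∀ x ∈ M, ∀ y ∉ M, ∀ g : G, translate g (f₂ y) ≠ f₁ x) :
    ∃ f : X → Closeds G, @Measurable X (Closeds G) _ (effros G) f ∧ Function.Injective f ∧
        ∀ x y, (∃ g : G, g • y = x) ↔ ∃ g : G, translate g (f y) = f x := by
  classical
  have htr1 : ∀ F : Closeds G, translate (1 : G) F = F := by
    intro F
    apply Closeds.ext
    show (fun x => 1 * x) '' (F : Set G) = (F : Set G)
    simp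
  refine ⟨fun x => if x ∈ M then f₁ x else f₂ x, ?_, ?_, ?_⟩
  · refine @measurable_generateFrom _ _ _ _ _ ?_
    rintro _ ⟨U, hU, rfl⟩
    have e : (fun x => if x ∈ M then f₁ x else f₂ x) ⁻¹'
        {F : Closeds G | ((F : Set G) ∩ U).Nonempty} =
        (M ∩ f₁ ⁻¹' {F : Closeds G | ((F : Set G) ∩ U).Nonempty}) ∪
        {x | x ∉ M ∧ ((f₂ x : Set G) ∩ U).Nonempty} := by
      ext x
      by_cases hx : x ∈ M <;> simp [hx]
    rw [e]
    refine (hMm.inter ?_).union (hm U hU)
    exact h1m (MeasurableSpace.measurableSet_generateFrom ⟨U, hU, rfl⟩)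
  · intro x y hxy
    by_cases hx : x ∈ M
    · by_cases hy : y ∈ M
      · simp only [hx, hy, if_true] at hxy
        exact h1i x hx y hxy
      · simp only [hx, hy, if_true, if_false] at hxy
        exact absurd ((htr1 _).trans hxy.symm) (hd x hx y hy 1)
    · by_cases hy : y ∈ M
      · simp only [hx, hy, if_true, if_false] at hxy
        exact absurd ((htr1 _).trans hxy) (hd y hy x hx 1)
      · simp only [hx, hy, if_false] at hxy
        exact hinj x hx y hy hxy
  · intro x y
    by_cases hx : x ∈ M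
    · by_cases hy : y ∈ M
      · simp only [hx, hy, if_true]
        constructor
        · rintro ⟨g, rfl⟩
          exact ⟨g, (h1e g y).symm⟩
        · rintro ⟨g, hg⟩
          exact ⟨g, (h1i x hx (g • y) (by rw [h1e, hg])).symm⟩
      · simp only [hx, hy, if_true, if_false]
        constructor
        · rintro ⟨g, rfl⟩
          exact absurd ((hMi g y).1 hx) hy
        · rintro ⟨g, hg⟩
          exact absurd hg (hd x hx y hy g)
    · by_cases hy : y ∈ M
      · simp only [hx, hy, if_true, if_false]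
        constructor
        · rintro ⟨g, rfl⟩
          exact absurd ((hMi g y).2 hy) hx
        · rintro ⟨g, hg⟩
          refine absurd ?_ (hd y hy x hx g⁻¹)
          rw [← hg, translate_translate, inv_mul_cancel, htr1]
      · simp only [hx, hy, if_false]
        exact hiff x hx y hy

/-- Universality in case of a homomorphism with dense image modulo a compact normal subgroup. -/
theorem universal_of_dense (G₀ : Subgroup G) [G₀.Normal]
    (h₀ : (G₀ : Set G) = closure (pathComponent (1 : G))) [NonarchimedeanGroup (G ⧸ G₀)]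
    (hcomp : @CompleteSpace (G ⧸ G₀) (IsTopologicalGroup.leftUniformSpace (G ⧸ G₀)))
    (N : Subgroup (G ⧸ G₀)) [N.Normal]
    (L : Subgroup G) (hN : IsCompact (N : Set (G ⧸ G₀))) (hL : IsClosed (L : Set G))
    (hidx : L.index = 0) (φ : L →* G ⧸ G₀) (hφ : Continuous φ)
    (hNL : (N : Set (G ⧸ G₀)).Finite ∨ ¬ IsOpen (L : Set G))
    (hs : Dense {q : G ⧸ G₀ | ∃ l : L, ∃ n ∈ N, φ l * n = q}) :
    LeftActionUniversal.{u, v} G := by
  classical
  intro X _ _ _ hact
  have hcl : IsClosed (G₀ : Set G) := by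
    rw [h₀]
    exact isClosed_closure
  obtain ⟨f₁, h1m, h1e, h1i, h1n⟩ := exists_nonopen_coding (X := X) G₀ h₀ hcomp hact
  have hconj : ∀ (g : G) (x : X), IsOpen {a : G | a • x = x} → IsOpen {a : G | a • g • x = g • x} := by
    intro g x ho
    have h1 : Continuous fun a : G => g⁻¹ * a * g := by fun_prop
    have h2 := ho.preimage h1
    convert h2 using 1
    ext a
    show a • g • x = g • x ↔ (g⁻¹ * a * g) • x = x
    rw [mul_smul, mul_smul, inv_smul_eq_iff]
  have hconj' : ∀ (g : G) (x : X), IsOpen {a : G | a • g • x = g • x} ↔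
      IsOpen {a : G | a • x = x} := by
    intro g x
    constructor
    · intro ho
      have := hconj g⁻¹ (g • x) ho
      simpa only [inv_smul_smul] using this
    · exact hconj g x
  set X₁ : Set X := {x | IsOpen {g : G | g • x = x}} with hX₁def
  have hX₁ : MeasurableSet X₁ := measurableSet_isOpen_stabilizer hact
  have hinv : ∀ (g : G), ∀ x ∈ X₁, g • x ∈ X₁ := fun g x hx => (hconj' g x).2 hx
  have hfix : ∀ x ∈ X₁, ∀ g ∈ G₀, g • x = x := by
    intro x hx g hg
    refine fixed_of_notMem_moved hact h₀ ?_ hg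
    rintro ⟨γ, hγ⟩
    apply hγ
    have h1 : IsOpen ((MulAction.stabilizer G x : Subgroup G) : Set G) := hx
    have h2 : endpoint G γ ∈ pathComponent (1 : G) := by
      rw [← range_endpoint]
      exact mem_range_self γ
    exact mem_of_isOpen_of_mem h1 h2
  let _ := quotAction G₀ _ hinv hfix
  have : StandardBorelSpace X₁ := hX₁.standardBorel
  have : IsClosed (G₀ : Set G) := hcl
  have : T2Space (G ⧸ G₀) := inferInstance
  have : SecondCountableTopology (G ⧸ G₀) := inferInstance
  obtain ⟨h, hm, hi, he, hint, hst⟩ := exists_relative_coding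
    (measurable_quotAction G₀ hcl hact hX₁ hinv hfix) N L hN hL hidx hNL φ hφ (by
    intro q x
    obtain ⟨g, rfl⟩ := QuotientGroup.mk_surjective q
    have h1 : IsOpen {q : G ⧸ G₀ | q • x = (QuotientGroup.mk g : G ⧸ G₀) • x} := by
      have hq : IsQuotientMap (QuotientGroup.mk : G → G ⧸ G₀) :=
        QuotientGroup.isQuotientMap_mk _
      rw [← hq.isOpen_preimage]
      have h2 : Continuous fun a : G => g⁻¹ * a := by fun_prop
      have h3 := IsOpen.preimage h2 x.2
      convert h3 using 1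
      ext a
      show (QuotientGroup.mk a : G ⧸ G₀) • x = (QuotientGroup.mk g : G ⧸ G₀) • x ↔
        (g⁻¹ * a) • (x : X) = x
      rw [Subtype.ext_iff, quotAction_mk G₀ _ hinv hfix a x, quotAction_mk G₀ _ hinv hfix g x,
        mul_smul, inv_smul_eq_iff]
    obtain ⟨q, hq, l, n, hn, rfl⟩ := hs.inter_open_nonempty _ h1 ⟨_, rfl⟩
    exact ⟨l, n, hn, hq.symm⟩)
  let f₂ : X → Closeds G := fun x => if hx : x ∈ X₁ then h ⟨x, hx⟩ else ⊥
  have hf₂ : ∀ x (hx : x ∈ X₁), f₂ x = h ⟨x, hx⟩ := fun x hx => dif_pos hx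
  have hmem : ∀ x, x ∉ X₁ᶜ → x ∈ X₁ := fun x hx => not_not.1 hx
  refine combine' (M := X₁ᶜ) hX₁.compl (fun g x => not_congr (hconj' g x)) f₁ f₂ h1m h1e
    (fun x hx => h1i x hx) ?_ ?_ ?_ ?_
  · intro U hU
    have h1 : MeasurableSet {y : X₁ | ((h y : Set G) ∩ U).Nonempty} :=
      hm (MeasurableSpace.measurableSet_generateFrom ⟨_, hU, rfl⟩)
    have h2 := hX₁.subtype_image h1
    convert h2 using 1
    ext x
    constructor
    · rintro ⟨hx, hne⟩
      refine ⟨⟨x, hmem x hx⟩, ?_, rfl⟩
      rw [hf₂ x (hmem x hx)] at hne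
      exact hne
    · rintro ⟨y, hy, rfl⟩
      refine ⟨not_not_intro y.2, ?_⟩
      rw [hf₂ y y.2]
      exact hy
  · intro x hx y hy hxy
    rw [hf₂ x (hmem x hx), hf₂ y (hmem y hy)] at hxy
    exact congrArg Subtype.val (hi hxy)
  · intro x hx y hy
    rw [hf₂ x (hmem x hx), hf₂ y (hmem y hy), ← he]
    constructor
    · rintro ⟨g, hg⟩
      refine ⟨QuotientGroup.mk g, Subtype.ext ?_⟩
      rw [quotAction_mk G₀ _ hinv hfix g ⟨y, hmem y hy⟩]
      exact hg
    · rintro ⟨q, hq⟩
      obtain ⟨g, rfl⟩ := QuotientGroup.mk_surjective q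
      refine ⟨g, ?_⟩
      have h1 := congrArg Subtype.val hq
      rw [quotAction_mk G₀ _ hinv hfix g ⟨y, hmem y hy⟩] at h1
      exact h1
  · intro x hx y hy g hg
    have hx' : ¬ IsOpen {g : G | g • x = x} := hx
    have hy' := hmem y hy
    by_cases ho : IsOpen (L : Set G)
    · apply hx'
      obtain ⟨j, hj⟩ := hst ⟨y, hy'⟩
      -- the stabilizer of `y` in `L` is open
      have h1 : IsOpen {q : G ⧸ G₀ | q • (⟨y, hy'⟩ : X₁) = ⟨y, hy'⟩} := by
        have hq : IsQuotientMap (QuotientGroup.mk : G → G ⧸ G₀) :=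
          QuotientGroup.isQuotientMap_mk _
        rw [← hq.isOpen_preimage]
        have h3 : IsOpen {g : G | g • y = y} := hy'
        convert h3 using 1
        ext a
        show (QuotientGroup.mk a : G ⧸ G₀) • (⟨y, hy'⟩ : X₁) = ⟨y, hy'⟩ ↔ a • y = y
        rw [Subtype.ext_iff, quotAction_mk G₀ _ hinv hfix a ⟨y, hy'⟩]
      have h2 : IsOpen (Subtype.val '' (φ ⁻¹' {q : G ⧸ G₀ | q • (⟨y, hy'⟩ : X₁) = ⟨y, hy'⟩})) :=
        ho.isOpenMap_subtype_val _ (h1.preimage hφ)
      have h3 : Continuous fun a : G => (g * j)⁻¹ * a * (g * j) := by fun_prop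
      have h4 := h2.preimage h3
      have h5 : IsOpen ((MulAction.stabilizer G x : Subgroup G) : Set G) := by
        refine Subgroup.isOpen_of_mem_nhds _ (g := 1) ?_
        refine Filter.mem_of_superset (h4.mem_nhds ?_) ?_
        · refine ⟨(1 : L), ?_, ?_⟩
          · show φ 1 • (⟨y, hy'⟩ : X₁) = ⟨y, hy'⟩
            rw [map_one, one_smul]
          · show ((1 : L) : G) = (g * j)⁻¹ * 1 * (g * j)
            rw [mul_one, inv_mul_cancel]
            rfl
        · rintro a ⟨l, hl, hla⟩
          have hla' : (l : G) = (g * j)⁻¹ * a * (g * j) := hla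
          have hj' := hj l hl
          show a • x = x
          refine (h1i x hx' _ ?_).symm
          rw [h1e, ← hg, hf₂ y hy', translate_translate]
          have h6 : a * g = g * (j * l * j⁻¹) := by
            rw [hla']
            group
          rw [h6, ← translate_translate]
          exact congrArg _ hj'.symm
      exact h5
    · have h1 := h1n x hx'
      rw [← hg, hf₂ y hy'] at h1
      have h2 := interior_translate_nonempty h1
      rw [hint ho] at h2
      exact absurd h2 (by simp)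

end Pool.Agent.PathAct
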