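import Pool.Agent.PathAct.Fixed

/-! Universality of the left action for groups with a large identity path component. -/

set_option autoImplicit false
set_option linter.unusedSectionVars false

open Topology Set Metric TopologicalSpace

namespace Pool.Agent.PathAct

open Pool.Agent.LeftAct

universe u v w

variable {G : Type u} [Group G] [TopologicalSpace G] [IsTopologicalGroup G] [PolishSpace G]
  [MeasurableSpace G] [BorelSpace G]

theorem translate_preimage (G₀ : Subgroup G) [G₀.Normal] (g : G) (C : Closeds (G ⧸ G₀)) :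
    translate g (C.preimage QuotientGroup.continuous_mk) =
      (translate (QuotientGroup.mk g : G ⧸ G₀) C).preimage QuotientGroup.continuous_mk := by
  apply Closeds.ext
  show (fun h => g * h) '' (QuotientGroup.mk ⁻¹' (C : Set (G ⧸ G₀))) =
    QuotientGroup.mk ⁻¹' ((fun h => (QuotientGroup.mk g : G ⧸ G₀) * h) '' (C : Set (G ⧸ G₀)))
  ext x
  constructor
  · rintro ⟨y, hy, rfl⟩
    exact ⟨QuotientGroup.mk y, hy, rfl⟩
  · rintro ⟨q, hq, hqx⟩
    refine ⟨g⁻¹ * x, ?_, by simp⟩
    show (QuotientGroup.mk (g⁻¹ * x) : G ⧸ G₀) ∈ (C : Set (G ⧸ G₀))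
    have h1 : (QuotientGroup.mk (g⁻¹ * x) : G ⧸ G₀) = q := by
      rw [QuotientGroup.mk_mul, QuotientGroup.mk_inv, ← hqx, inv_mul_cancel_left]
    rw [h1]
    exact hq

/-- If `E_a` is universal for the quotient by the closure of the identity path component, then it
is universal for the group. -/
theorem universal_of_quotient (G₀ : Subgroup G) [G₀.Normal]
    (h₀ : (G₀ : Set G) = closure (pathComponent (1 : G)))
    (hH : LeftActionUniversal.{u, v} (G ⧸ G₀)) : LeftActionUniversal.{u, v} G := by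
  classical
  intro X _ _ _ hact
  have hcl : IsClosed (G₀ : Set G) := by
    rw [h₀]
    exact isClosed_closure
  have hX₀ : MeasurableSet (Moved G X)ᶜ := (measurableSet_moved hact).compl
  have hinv : ∀ (g : G), ∀ x ∈ (Moved G X)ᶜ, g • x ∈ (Moved G X)ᶜ := fun g x hx h =>
    hx (smul_mem_moved_iff.1 h)
  have hfix : ∀ x ∈ (Moved G X)ᶜ, ∀ g ∈ G₀, g • x = x := fun x hx g hg =>
    fixed_of_notMem_moved hact h₀ hx hg
  let _ := quotAction G₀ _ hinv hfix
  have : StandardBorelSpace ((Moved G X)ᶜ : Set X) := hX₀.standardBorel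
  obtain ⟨h, hm, hi, he⟩ := hH ((Moved G X)ᶜ : Set X)
    (measurable_quotAction G₀ hcl hact hX₀ hinv hfix)
  have hc : Continuous (QuotientGroup.mk : G → G ⧸ G₀) := QuotientGroup.continuous_mk
  have hpre : Function.Injective fun C : Closeds (G ⧸ G₀) =>
      (C.preimage QuotientGroup.continuous_mk : Closeds G) := by
    intro C C' hCC
    have h1 : (QuotientGroup.mk : G → G ⧸ G₀) ⁻¹' (C : Set (G ⧸ G₀)) =
        (QuotientGroup.mk : G → G ⧸ G₀) ⁻¹' (C' : Set (G ⧸ G₀)) :=
      congrArg (fun F : Closeds G => (F : Set G)) hCC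
    apply Closeds.ext
    exact (QuotientGroup.mk_surjective (s := G₀)).preimage_injective h1
  let f₂ : X → Closeds G := fun x =>
    if hx : x ∈ (Moved G X)ᶜ then (h ⟨x, hx⟩).preimage QuotientGroup.continuous_mk else ⊥
  have hf₂ : ∀ x (hx : x ∈ (Moved G X)ᶜ),
      f₂ x = (h ⟨x, hx⟩).preimage QuotientGroup.continuous_mk := fun x hx => dif_pos hx
  refine combine hact f₂ ?_ ?_ ?_ ?_
  · intro U hU
    have hU' : IsOpen ((QuotientGroup.mk : G → G ⧸ G₀) '' U) := QuotientGroup.isOpenMap_coe U hU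
    have h1 : MeasurableSet {y : ((Moved G X)ᶜ : Set X) |
        ((h y : Set (G ⧸ G₀)) ∩ (QuotientGroup.mk : G → G ⧸ G₀) '' U).Nonempty} :=
      hm (MeasurableSpace.measurableSet_generateFrom ⟨_, hU', rfl⟩)
    have h2 := hX₀.subtype_image h1
    convert h2 using 1
    ext x
    constructor
    · rintro ⟨hx, g, hg, hgU⟩
      refine ⟨⟨x, hx⟩, ⟨QuotientGroup.mk g, ?_, g, hgU, rfl⟩, rfl⟩
      rw [hf₂ x hx] at hg
      exact hg
    · rintro ⟨y, ⟨q, hq, g, hgU, rfl⟩, rfl⟩
      refine ⟨y.2, g, ?_, hgU⟩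
      rw [hf₂ y y.2]
      exact hq
  · intro x hx y hy hxy
    rw [hf₂ x hx, hf₂ y hy] at hxy
    exact congrArg Subtype.val (hi (hpre hxy))
  · intro x hx y hy
    rw [hf₂ x hx, hf₂ y hy]
    constructor
    · rintro ⟨g, hg⟩
      have h1 : ∃ q : G ⧸ G₀, q • (⟨y, hy⟩ : ((Moved G X)ᶜ : Set X)) = ⟨x, hx⟩ := by
        refine ⟨QuotientGroup.mk g, Subtype.ext ?_⟩
        rw [quotAction_mk G₀ _ hinv hfix g ⟨y, hy⟩]
        exact hg
      obtain ⟨q, hq⟩ := (he _ _).1 h1
      obtain ⟨g', rfl⟩ := QuotientGroup.mk_surjective q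
      exact ⟨g', by rw [translate_preimage, hq]⟩
    · rintro ⟨g, hg⟩
      rw [translate_preimage] at hg
      obtain ⟨q, hq⟩ := (he ⟨x, hx⟩ ⟨y, hy⟩).2 ⟨QuotientGroup.mk g, hpre hg⟩
      obtain ⟨g', rfl⟩ := QuotientGroup.mk_surjective q
      refine ⟨g', ?_⟩
      have h1 := congrArg Subtype.val hq
      rw [quotAction_mk G₀ _ hinv hfix g' ⟨y, hy⟩] at h1
      exact h1
  · intro f hfe hfi _ x hx y hy g hg
    obtain ⟨γ, hγ⟩ := hx
    apply hγ
    symm
    apply hfi x ⟨γ, hγ⟩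
    have hk : endpoint G γ ∈ G₀ := by
      show endpoint G γ ∈ (G₀ : Set G)
      rw [h₀]
      refine subset_closure ?_
      rw [← range_endpoint]
      exact mem_range_self γ
    rw [hfe, ← hg, hf₂ y hy, translate_preimage, translate_preimage]
    congr 1
    apply Closeds.ext
    show (fun z => (QuotientGroup.mk g : G ⧸ G₀) * z) '' (h ⟨y, hy⟩ : Set (G ⧸ G₀)) =
      (fun z => (QuotientGroup.mk (endpoint G γ) : G ⧸ G₀) * z) ''
        ((fun z => (QuotientGroup.mk g : G ⧸ G₀) * z) '' (h ⟨y, hy⟩ : Set (G ⧸ G₀)))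
    have h1 : (QuotientGroup.mk (endpoint G γ) : G ⧸ G₀) = 1 := (QuotientGroup.eq_one_iff _).2 hk
    rw [h1]
    simp

end Pool.Agent.PathAct
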