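import Pool.Agent.PathAct.Assembly

/-! The points which are fixed by the identity path component, and the final embedding. -/

set_option autoImplicit false
set_option linter.unusedSectionVars false

open Topology Set Metric TopologicalSpace

namespace Pool.Agent.PathAct

open Pool.Agent.LeftAct

universe u v w

variable {G : Type u} [Group G] [TopologicalSpace G] [IsTopologicalGroup G] [PolishSpace G]
  [MeasurableSpace G] [BorelSpace G] {X : Type v} [MeasurableSpace X] [StandardBorelSpace X]
  [MulAction G X]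

theorem measurableSet_moved (hact : Measurable fun p : G × X => p.1 • p.2) :
    MeasurableSet (Moved G X) := by
  obtain ⟨D, hDc, hD⟩ := exists_countable_dense (pathSubgroup G)
  have h1 : Moved G X = ⋃ γ ∈ D, {x | endpoint G γ • x = x}ᶜ := by
    ext x
    simp only [mem_iUnion, mem_compl_iff, exists_prop]
    constructor
    · rintro ⟨γ, hγ⟩
      by_contra hcon
      push Not at hcon
      apply hγ
      have h2 : IsClosed {γ : pathSubgroup G | endpoint G γ • x = x} :=
        (isClosed_stabilizer hact x).preimage continuous_endpoint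
      have h3 : D ⊆ {γ : pathSubgroup G | endpoint G γ • x = x} := fun γ' hγ' => by
        have := hcon γ' hγ'
        simpa using this
      have h4 : closure D ⊆ {γ : pathSubgroup G | endpoint G γ • x = x} :=
        closure_minimal h3 h2
      rw [hD.closure_eq] at h4
      exact h4 (mem_univ γ)
    · rintro ⟨γ, _, hγ⟩
      exact ⟨γ, hγ⟩
  rw [h1]
  refine MeasurableSet.biUnion hDc fun γ _ => ?_
  have h2 : Measurable fun x : X => endpoint G γ • x := hact.comp measurable_prodMk_left
  exact (measurableSet_eq_fun h2 measurable_id).compl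

theorem fixed_of_notMem_moved (hact : Measurable fun p : G × X => p.1 • p.2) {G₀ : Subgroup G}
    (h₀ : (G₀ : Set G) = closure (pathComponent (1 : G))) {x : X} (hx : x ∉ Moved G X) {g : G}
    (hg : g ∈ G₀) : g • x = x := by
  have h1 : closure (pathComponent (1 : G)) ⊆ {g : G | g • x = x} := by
    refine closure_minimal ?_ (isClosed_stabilizer hact x)
    intro g hg
    rw [← range_endpoint] at hg
    obtain ⟨γ, rfl⟩ := hg
    by_contra hcon
    exact hx ⟨γ, hcon⟩
  have h2 : g ∈ (G₀ : Set G) := hg
  rw [h₀] at h2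
  exact h1 h2

/-- Putting the two embeddings together. -/
theorem combine (hact : Measurable fun p : G × X => p.1 • p.2)
    (f₂ : X → Closeds G)
    (hm : ∀ U : Set G, IsOpen U → MeasurableSet {x | x ∉ Moved G X ∧ ((f₂ x : Set G) ∩ U).Nonempty})
    (hinj : ∀ x ∉ Moved G X, ∀ y ∉ Moved G X, f₂ x = f₂ y → x = y)
    (hiff : ∀ x ∉ Moved G X, ∀ y ∉ Moved G X, (∃ g : G, g • y = x) ↔
      ∃ g : G, translate g (f₂ y) = f₂ x)
    (hdisj : ∀ (f : X → Closeds G), (∀ g x, f (g • x) = translate g (f x)) →
      (∀ x ∈ Moved G X, ∀ y, f x = f y → x = y) →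
      (∀ x ∈ Moved G X, (interior (f x : Set G)).Nonempty) →
      ∀ x ∈ Moved G X, ∀ y ∉ Moved G X, ∀ g : G, translate g (f₂ y) ≠ f x) :
    ∃ f : X → Closeds G, @Measurable X (Closeds G) _ (effros G) f ∧ Function.Injective f ∧
        ∀ x y, (∃ g : G, g • y = x) ↔ ∃ g : G, translate g (f y) = f x := by
  classical
  obtain ⟨f₁, h1m, h1e, h1i, h1n⟩ := exists_moved_coding (G := G) (X := X) hact
  have hd := hdisj f₁ h1e h1i h1n
  have htr : ∀ (g h : G) (F : Closeds G), translate g (translate h F) = translate (g * h) F := by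
    intro g h F
    apply Closeds.ext
    show (fun x => g * x) '' ((fun x => h * x) '' (F : Set G)) = (fun x => g * h * x) '' (F : Set G)
    rw [image_image]
    simp [mul_assoc]
  have htr1 : ∀ F : Closeds G, translate (1 : G) F = F := by
    intro F
    apply Closeds.ext
    show (fun x => 1 * x) '' (F : Set G) = (F : Set G)
    simp
  have hMm := measurableSet_moved (G := G) (X := X) hact
  refine ⟨fun x => if x ∈ Moved G X then f₁ x else f₂ x, ?_, ?_, ?_⟩
  · refine @measurable_generateFrom _ _ _ _ _ ?_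
    rintro _ ⟨U, hU, rfl⟩
    have e : (fun x => if x ∈ Moved G X then f₁ x else f₂ x) ⁻¹'
        {F : Closeds G | ((F : Set G) ∩ U).Nonempty} =
        (Moved G X ∩ f₁ ⁻¹' {F : Closeds G | ((F : Set G) ∩ U).Nonempty}) ∪
        {x | x ∉ Moved G X ∧ ((f₂ x : Set G) ∩ U).Nonempty} := by
      ext x
      by_cases hx : x ∈ Moved G X <;> simp [hx]
    rw [e]
    refine (hMm.inter ?_).union (hm U hU)
    exact h1m (MeasurableSpace.measurableSet_generateFrom ⟨U, hU, rfl⟩)
  · intro x y hxy
    by_cases hx : x ∈ Moved G X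
    · by_cases hy : y ∈ Moved G X
      · simp only [hx, hy, if_true] at hxy
        exact h1i x hx y hxy
      · simp only [hx, hy, if_true, if_false] at hxy
        exact absurd ((htr1 _).trans hxy.symm) (hd x hx y hy 1)
    · by_cases hy : y ∈ Moved G X
      · simp only [hx, hy, if_true, if_false] at hxy
        exact absurd ((htr1 _).trans hxy) (hd y hy x hx 1)
      · simp only [hx, hy, if_false] at hxy
        exact hinj x hx y hy hxy
  · intro x y
    by_cases hx : x ∈ Moved G X
    · by_cases hy : y ∈ Moved G X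
      · simp only [hx, hy, if_true]
        constructor
        · rintro ⟨g, rfl⟩
          exact ⟨g, (h1e g y).symm⟩
        · rintro ⟨g, hg⟩
          exact ⟨g, (h1i x hx (g • y) (by rw [h1e, hg])).symm⟩
      · simp only [hx, hy, if_true, if_false]
        constructor
        · rintro ⟨g, rfl⟩
          exact absurd (smul_mem_moved_iff.1 hx) hy
        · rintro ⟨g, hg⟩
          exact absurd hg (hd x hx y hy g)
    · by_cases hy : y ∈ Moved G X
      · simp only [hx, hy, if_true, if_false]
        constructor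
        · rintro ⟨g, rfl⟩
          exact absurd (smul_mem_moved hy) hx
        · rintro ⟨g, hg⟩
          refine absurd ?_ (hd y hy x hx g⁻¹)
          rw [← hg, htr, inv_mul_cancel, htr1]
      · simp only [hx, hy, if_false]
        exact hiff x hx y hy

/-! ### The quotient action on the fixed points -/

section quot

variable (G₀ : Subgroup G) [G₀.Normal]

/-- The action of the quotient group on the points fixed by the kernel. -/
@[instance_reducible]
noncomputable def quotAction (X₀ : Set X) (hinv : ∀ (g : G), ∀ x ∈ X₀, g • x ∈ X₀)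
    (hfix : ∀ x ∈ X₀, ∀ g ∈ G₀, g • x = x) : MulAction (G ⧸ G₀) X₀ where
  smul q x := ⟨(Quotient.out q : G) • (x : X), hinv _ _ x.2⟩
  one_smul x := by
    apply Subtype.ext
    show (Quotient.out (1 : G ⧸ G₀) : G) • (x : X) = x
    apply hfix x x.2
    have : ((Quotient.out (1 : G ⧸ G₀) : G) : G ⧸ G₀) = 1 := QuotientGroup.out_eq' 1
    exact (QuotientGroup.eq_one_iff _).1 this
  mul_smul p q x := by
    apply Subtype.ext
    show (Quotient.out (p * q) : G) • (x : X) =
      (Quotient.out p : G) • (Quotient.out q : G) • (x : X)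
    have h1 : ((Quotient.out (p * q) : G) : G ⧸ G₀) =
        (((Quotient.out p : G) * (Quotient.out q : G) : G) : G ⧸ G₀) := by
      rw [QuotientGroup.mk_mul, QuotientGroup.out_eq', QuotientGroup.out_eq',
        QuotientGroup.out_eq']
    have h2 := QuotientGroup.eq.1 h1.symm
    have h3 : (Quotient.out (p * q) : G) • (x : X) =
        ((Quotient.out p : G) * (Quotient.out q : G)) •
          ((((Quotient.out p : G) * (Quotient.out q : G))⁻¹ * (Quotient.out (p * q) : G)) •
          (x : X)) := by
      rw [← mul_smul, mul_inv_cancel_left]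
    rw [h3, hfix x x.2 _ h2, mul_smul]

theorem quotAction_mk (X₀ : Set X) (hinv : ∀ (g : G), ∀ x ∈ X₀, g • x ∈ X₀)
    (hfix : ∀ x ∈ X₀, ∀ g ∈ G₀, g • x = x) (g : G) (x : X₀) :
    letI := quotAction G₀ X₀ hinv hfix
    (((QuotientGroup.mk g : G ⧸ G₀) • x : X₀) : X) = g • (x : X) := by
  show (Quotient.out (QuotientGroup.mk g : G ⧸ G₀) : G) • (x : X) = g • (x : X)
  have h1 : ((Quotient.out (QuotientGroup.mk g : G ⧸ G₀) : G) : G ⧸ G₀) = (g : G ⧸ G₀) :=
    QuotientGroup.out_eq' _
  have h2 := QuotientGroup.eq.1 h1.symm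
  have h3 : (Quotient.out (QuotientGroup.mk g : G ⧸ G₀) : G) • (x : X) =
      g • ((g⁻¹ * (Quotient.out (QuotientGroup.mk g : G ⧸ G₀) : G)) • (x : X)) := by
    rw [← mul_smul, mul_inv_cancel_left]
  rw [h3, hfix x x.2 _ h2]

theorem measurable_quotAction (hG₀ : IsClosed (G₀ : Set G))
    (hact : Measurable fun p : G × X => p.1 • p.2) {X₀ : Set X} (hX₀ : MeasurableSet X₀)
    (hinv : ∀ (g : G), ∀ x ∈ X₀, g • x ∈ X₀) (hfix : ∀ x ∈ X₀, ∀ g ∈ G₀, g • x = x) :
    letI := quotAction G₀ X₀ hinv hfix
    Measurable fun p : (G ⧸ G₀) × X₀ => p.1 • p.2 := by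
  let _ := quotAction G₀ X₀ hinv hfix
  have : IsClosed (G₀ : Set G) := hG₀
  have : StandardBorelSpace X₀ := hX₀.standardBorel
  intro s hs
  let π : G × X₀ → (G ⧸ G₀) × X₀ := fun p => (QuotientGroup.mk p.1, p.2)
  have hc : Continuous (QuotientGroup.mk : G → G ⧸ G₀) := QuotientGroup.continuous_mk
  have hπ : Measurable π := (hc.measurable.comp measurable_fst).prodMk measurable_snd
  have hπs : Function.Surjective π := by
    rintro ⟨q, x⟩
    obtain ⟨g, rfl⟩ := QuotientGroup.mk_surjective q
    exact ⟨(g, x), rfl⟩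
  rw [← hπ.measurableSet_preimage_iff_of_surjective hπs]
  have h1 : Measurable fun p : G × X₀ => (⟨p.1 • (p.2 : X), hinv _ _ p.2.2⟩ : X₀) :=
    (hact.comp (measurable_fst.prodMk (measurable_subtype_coe.comp measurable_snd))).subtype_mk
  have h2 := h1 hs
  convert h2 using 1
  ext p
  show ((QuotientGroup.mk p.1 : G ⧸ G₀) • p.2 : X₀) ∈ s ↔ _
  have h3 : ((QuotientGroup.mk p.1 : G ⧸ G₀) • p.2 : X₀) = ⟨p.1 • (p.2 : X), hinv _ _ p.2.2⟩ :=
    Subtype.ext (quotAction_mk G₀ X₀ hinv hfix p.1 p.2)
  rw [h3]
  rfl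

end quot

end Pool.Agent.PathAct
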