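import Pool.Agent.LeftAct.Invariants

/-! Invariants of a compact subgroup of a second countable Hausdorff group. -/

set_option autoImplicit false
set_option linter.unusedSectionVars false

open Topology Set TopologicalSpace

namespace Pool.Agent.PathAct

open Pool.Agent.LeftAct

universe v w

variable {H : Type w} {X : Type v} [Group H] [TopologicalSpace H] [IsTopologicalGroup H]
  [T2Space H] [SecondCountableTopology H] [MeasurableSpace H] [BorelSpace H] [MeasurableSpace X]
  [StandardBorelSpace X] [MulAction H X]

theorem polishSpace_of_compact (K : Type w) [TopologicalSpace K] [CompactSpace K] [T2Space K]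
    [SecondCountableTopology K] : PolishSpace K := by
  have : MetrizableSpace K := inferInstance
  let _ := metrizableSpaceMetric K
  infer_instance

theorem exists_invariants' (hact : Measurable fun p : H × X => p.1 • p.2) (N : Subgroup H)
    (hN : IsCompact (N : Set H)) :
    ∃ A : ℕ → Set X, (∀ k, MeasurableSet (A k)) ∧ (∀ k, ∀ n ∈ N, ∀ x, n • x ∈ A k ↔ x ∈ A k) ∧
      ∀ x y, (∀ k, x ∈ A k ↔ y ∈ A k) → ∃ n ∈ N, n • x = y := by
  have : CompactSpace N := isCompact_iff_compactSpace.1 hN
  have : SecondCountableTopology N :=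
    TopologicalSpace.Subtype.secondCountableTopology (N : Set H)
  have : PolishSpace N := polishSpace_of_compact N
  have hactN : Measurable fun p : N × X => p.1 • p.2 :=
    hact.comp ((measurable_subtype_coe.comp measurable_fst).prodMk measurable_snd)
  obtain ⟨A, h1, h2, h3⟩ := exists_invariants (G := N) hactN ⊤ (by
    rw [Subgroup.coe_top]
    exact isCompact_univ)
  refine ⟨A, h1, fun k n hn x => h2 k ⟨n, hn⟩ (Subgroup.mem_top _) x, fun x y hxy => ?_⟩
  obtain ⟨n, -, hn⟩ := h3 x y hxy
  exact ⟨n, n.2, hn⟩

theorem exists_index' (hact : Measurable fun p : H × X => p.1 • p.2) (N : Subgroup H)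
    (hN : (N : Set H).Finite) :
    ∃ i : X → ℕ, Measurable i ∧ ∀ x y, i x = i y → (∃ n ∈ N, n • x = y) → x = y := by
  have : CompactSpace N := isCompact_iff_compactSpace.1 hN.isCompact
  have : SecondCountableTopology N :=
    TopologicalSpace.Subtype.secondCountableTopology (N : Set H)
  have : PolishSpace N := polishSpace_of_compact N
  have hactN : Measurable fun p : N × X => p.1 • p.2 :=
    hact.comp ((measurable_subtype_coe.comp measurable_fst).prodMk measurable_snd)
  have : Finite N := hN
  obtain ⟨i, h1, h2⟩ := exists_index (G := N) hactN ⊤ (Set.toFinite _)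
  refine ⟨i, h1, fun x y hxy ⟨n, hn, hnx⟩ => h2 x y hxy ⟨⟨n, hn⟩, Subgroup.mem_top _, hnx⟩⟩

end Pool.Agent.PathAct
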