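import Pool.Agent.PathAct.Decode

/-! Coding the points of a Borel `A`-space by one Borel set, up to meagre sets, for a connected and
locally connected Polish group `A`. -/

set_option autoImplicit false
set_option linter.unusedSectionVars false

open Topology Set Metric TopologicalSpace

namespace Pool.Agent.PathAct

open Pool.Agent.LeftAct

universe u v

section coding

variable {X : Type v} {K : Type u} [MeasurableSpace X] [Group K] [TopologicalSpace K]
  [IsTopologicalGroup K] [PolishSpace K] [MeasurableSpace K] [BorelSpace K]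

/-- The hull of a nonmeagre Borel set has interior points. -/
theorem interior_hull_nonempty {S : Set K} (hS : MeasurableSet S) (h : (hull S).Nonempty) :
    (interior (hull S)).Nonempty := by
  obtain ⟨B, _, hBe, hB⟩ := exists_countable_basis K
  have h1 : ¬ IsMeagre (univ ∩ Sᶜᶜ) := by
    rw [compl_compl]
    exact (hull_inter_nonempty isOpen_univ).1 (by simpa using h)
  obtain ⟨V, hV, -, hm⟩ := (not_isMeagre_compl_iff hB hBe hS.compl isOpen_univ).1 h1
  have hVo : IsOpen V := hB.isOpen hV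
  have hVne : V.Nonempty := by
    rw [nonempty_iff_ne_empty]
    rintro rfl
    exact hBe hV
  refine hVne.mono (interior_maximal ?_ hVo)
  intro g hg W hW hgW hWm
  refine not_isMeagre_of_isOpen (hW.inter hVo) ⟨g, hgW, hg⟩ ((hWm.union hm).mono ?_)
  rintro x ⟨hxW, hxV⟩
  by_cases hx : x ∈ S
  · exact Or.inl ⟨hxW, hx⟩
  · exact Or.inr ⟨hxV, hx⟩

/-- The equivariant coding of a Borel action of a Polish group by sequences of regular closed
subsets of the group. -/
theorem exists_coding [StandardBorelSpace X] (act : K → X → X) (act_one : ∀ x, act 1 x = x)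
    (act_mul : ∀ g h x, act (g * h) x = act g (act h x))
    (hact : Measurable fun p : K × X => act p.1 p.2) :
    ∃ (B : ℕ → Set X) (F : X → ℕ → Set K), (∀ n, MeasurableSet (B n)) ∧
      (∀ x y, (∀ n, x ∈ B n ↔ y ∈ B n) → x = y) ∧ (∀ x n, IsClosed (F x n)) ∧
      (∀ k x n, F (act k x) n = (fun g => k * g) '' F x n) ∧
      (∀ n (U : Set K), IsOpen U → MeasurableSet {x | (F x n ∩ U).Nonempty}) ∧
      (∀ x y, F x = F y → x = y) ∧
      (∀ x n, (F x n).Nonempty → (interior (F x n)).Nonempty) := by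
  obtain ⟨ι, hι, ιinj⟩ :=
    MeasurableSpace.measurable_injection_nat_bool_of_countablySeparated X
  set B : ℕ → Set X := fun n => {x | ι x n = true} with hBdef
  have hB : ∀ n, MeasurableSet (B n) := fun n =>
    ((measurable_pi_apply n).comp hι) (measurableSet_singleton true)
  have hBsep : ∀ x y, (∀ n, x ∈ B n ↔ y ∈ B n) → x = y := by
    intro x y h
    apply ιinj
    funext n
    exact Bool.eq_iff_iff.2 (h n)
  let S : X → ℕ → Set K := fun x n => {k | act k⁻¹ x ∈ B n}
  have hSm : ∀ n, MeasurableSet {p : X × K | act p.2⁻¹ p.1 ∈ B n} := by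
    intro n
    have h1 : Measurable fun p : X × K => act p.2⁻¹ p.1 :=
      hact.comp ((measurable_inv.comp measurable_snd).prodMk measurable_fst)
    exact h1 (hB n)
  have hSx : ∀ x n, MeasurableSet (S x n) := fun x n => measurable_prodMk_left (hSm n)
  refine ⟨B, fun x n => hull (S x n), hB, hBsep, fun x n => isClosed_hull _, ?_, ?_, ?_, ?_⟩
  · intro k x n
    have hS : S (act k x) n = (fun g => k⁻¹ * g) ⁻¹' S x n := by
      ext g
      show act g⁻¹ (act k x) ∈ B n ↔ act (k⁻¹ * g)⁻¹ x ∈ B n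
      rw [← act_mul, mul_inv_rev, inv_inv]
    show hull (S (act k x) n) = _
    rw [hS, hull_mul_left]
  · intro n U hU
    have h1 := measurableSet_category (hSm n) U hU
    convert h1 using 1
    ext x
    exact hull_inter_nonempty hU
  · intro x y hxy
    have hxy' : ∀ n, hull (S x n) = hull (S y n) := fun n => congrFun hxy n
    have h1 : ∀ n, IsMeagre ((S x n \ S y n) ∪ (S y n \ S x n)) := fun n =>
      (meagre_diff_of_hull (hSx x n) (hSx y n) (hxy' n)).union
        (meagre_diff_of_hull (hSx y n) (hSx x n) (hxy' n).symm)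
    have h2 : IsMeagre (⋃ n, ((S x n \ S y n) ∪ (S y n \ S x n))) := isMeagre_iUnion h1
    have h3 : ∃ k : K, k ∉ ⋃ n, ((S x n \ S y n) ∪ (S y n \ S x n)) := by
      by_contra hcon
      push Not at hcon
      refine not_isMeagre_of_isOpen (X := K) isOpen_univ ⟨1, trivial⟩ (h2.mono fun k _ => hcon k)
    obtain ⟨k, hk⟩ := h3
    have h4 : act k⁻¹ x = act k⁻¹ y := by
      apply hBsep
      intro n
      have h5 : k ∉ (S x n \ S y n) ∪ (S y n \ S x n) := fun h => hk (mem_iUnion.2 ⟨n, h⟩)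
      constructor
      · intro hx
        by_contra hy
        exact h5 (Or.inl ⟨hx, hy⟩)
      · intro hy
        by_contra hx
        exact h5 (Or.inr ⟨hy, hx⟩)
    calc x = act k (act k⁻¹ x) := by rw [← act_mul, mul_inv_cancel, act_one]
      _ = act k (act k⁻¹ y) := by rw [h4]
      _ = y := by rw [← act_mul, mul_inv_cancel, act_one]
  · intro x n h
    exact interior_hull_nonempty (hSx x n) h

end coding

variable {A : Type u} [Group A] [MetricSpace A] [IsTopologicalGroup A] [IsIsometricSMul A A]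

namespace Scale

variable (S : Scale A)

/-! ### Equivariance -/

theorem R_image (a : A) (C : Set A) (m : ℕ) :
    S.R ((fun g => a * g) '' C) m = (fun g => a * g) '' S.R C m := by
  have h1 : {p | ∀ v ∈ S.V m, p * v ∈ (fun g => a * g) '' C} =
      (fun g => a * g) '' {p | ∀ v ∈ S.V m, p * v ∈ C} := by
    ext p
    constructor
    · intro hp
      refine ⟨a⁻¹ * p, fun v hv => ?_, by simp⟩
      obtain ⟨c, hc, hcp⟩ := hp v hv
      have : a⁻¹ * p * v = c := by
        rw [mul_assoc, ← hcp]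
        simp
      rw [this]
      exact hc
    · rintro ⟨q, hq, rfl⟩ v hv
      exact ⟨q * v, hq v hv, by simp [mul_assoc]⟩
  unfold R
  rw [h1]
  exact ((Homeomorph.mulLeft a).image_interior _).symm

theorem T_image (a : A) (C : Set A) (m : ℕ) :
    S.T ((fun g => a * g) '' C) m = (fun g => a * g) '' S.T C m := by
  ext x
  constructor
  · rintro ⟨p, hp, hpx⟩
    rw [R_image] at hp
    obtain ⟨q, hq, rfl⟩ := hp
    refine ⟨a⁻¹ * x, ⟨q, hq, ?_⟩, by simp⟩
    have : q⁻¹ * (a⁻¹ * x) = (a * q)⁻¹ * x := by group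
    rw [this]
    exact hpx
  · rintro ⟨y, ⟨p, hp, hpy⟩, rfl⟩
    refine ⟨a * p, ?_, ?_⟩
    · rw [R_image]
      exact ⟨p, hp, rfl⟩
    · have : (a * p)⁻¹ * (a * y) = p⁻¹ * y := by group
      show (a * p)⁻¹ * (a * y) ∈ S.V m
      rw [this]
      exact hpy

theorem infDist_T_image (a : A) (C : Set A) (m : ℕ) (p : A) :
    infDist (a * p) (S.T ((fun g => a * g) '' C) m) = infDist p (S.T C m) := by
  rw [T_image]
  exact infDist_image (isometry_mul_left a)

theorem infDist_T_image' (a : A) (C : Set A) (m : ℕ) (p : A) :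
    infDist p (S.T ((fun g => a * g) '' C) m) = infDist (a⁻¹ * p) (S.T C m) := by
  rw [← S.infDist_T_image a C m (a⁻¹ * p), mul_inv_cancel_left]

theorem good_image (a : A) (C : Set A) (m s : ℕ) :
    S.Good ((fun g => a * g) '' C) m s ↔ S.Good C m s := by
  unfold Good
  refine and_congr_right fun _ => ?_
  constructor
  · rintro ⟨p, hp⟩
    exact ⟨a⁻¹ * p, by rwa [infDist_T_image'] at hp⟩
  · rintro ⟨p, hp⟩
    exact ⟨a * p, by rwa [infDist_T_image]⟩

theorem mem_W_image (a : A) (C : Set A) (m s j : ℕ) (p : A) :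
    p ∈ S.W ((fun g => a * g) '' C) m s j ↔ a⁻¹ * p ∈ S.W C m s j := by
  unfold W
  simp only [mem_ofPred_eq, infDist_T_image']

theorem mem_T_image (a : A) (C : Set A) (m : ℕ) (p : A) :
    p ∈ S.T ((fun g => a * g) '' C) m ↔ a⁻¹ * p ∈ S.T C m := by
  rw [T_image]
  constructor
  · rintro ⟨q, hq, rfl⟩
    simpa using hq
  · intro h
    exact ⟨a⁻¹ * p, h, by simp⟩

theorem nonempty_R_image (a : A) (C : Set A) (m : ℕ) :
    (S.R ((fun g => a * g) '' C) m).Nonempty ↔ (S.R C m).Nonempty := by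
  rw [R_image]
  exact image_nonempty

/-! ### Measurability -/

variable {X : Type v} [MeasurableSpace X] [SecondCountableTopology A] {F : X → Set A}

theorem measurableSet_mem_R (hF : ∀ x, IsClosed (F x))
    (hFm : ∀ U : Set A, IsOpen U → MeasurableSet {x | (F x ∩ U).Nonempty}) (m : ℕ) (p : A) :
    MeasurableSet {x | p ∈ S.R (F x) m} := by
  obtain ⟨b, hbc, hbe, hb⟩ := exists_countable_basis A
  have h1 : {x | p ∈ S.R (F x) m} = ⋃ B ∈ {B ∈ b | p ∈ B}, ⋂ W ∈ {W ∈ b | ∀ w ∈ W, ∃ q ∈ B,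
      q⁻¹ * w ∈ S.V m}, {x | (F x ∩ W).Nonempty} := by
    ext x
    simp only [mem_iUnion, mem_iInter, mem_ofPred_eq, exists_prop]
    constructor
    · intro hp
      obtain ⟨B, hB, hpB, hBs⟩ := hb.exists_subset_of_mem_open hp isOpen_interior
      refine ⟨B, ⟨hB, hpB⟩, fun W hW => ?_⟩
      have hWne : W.Nonempty := by
        rw [nonempty_iff_ne_empty]
        rintro rfl
        exact hbe hW.1
      obtain ⟨w, hw⟩ := hWne
      obtain ⟨q, hq, hqw⟩ := hW.2 w hw
      refine ⟨w, ?_, hw⟩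
      have := interior_subset (hBs hq) _ hqw
      simpa using this
    · rintro ⟨B, ⟨hB, hpB⟩, hW⟩
      rw [R, mem_interior]
      refine ⟨B, fun q hq v hv => ?_, hb.isOpen hB, hpB⟩
      by_contra hqv
      have h2 : IsOpen {w | w ∉ F x ∧ q⁻¹ * w ∈ S.V m} :=
        ((hF x).isOpen_compl).inter ((S.isOpen m).preimage (continuous_const_mul _))
      obtain ⟨W, hWb, hqW, hWs⟩ := hb.exists_subset_of_mem_open
        (show q * v ∈ {w | w ∉ F x ∧ q⁻¹ * w ∈ S.V m} from ⟨hqv, by simpa using hv⟩) h2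
      obtain ⟨w, hwF, hwW⟩ := hW W ⟨hWb, fun w hw => ⟨q, hq, (hWs hw).2⟩⟩
      exact (hWs hwW).1 hwF
  rw [h1]
  refine MeasurableSet.biUnion (hbc.mono (sep_subset _ _)) fun B _ => ?_
  exact MeasurableSet.biInter (hbc.mono (sep_subset _ _)) fun W hW => hFm W (hb.isOpen hW.1)

variable {lam : ℕ → A}

theorem nonempty_R_iff (hlam : ∀ O : Set A, IsOpen O → O.Nonempty → ∀ N, ∃ i, N ≤ i ∧ lam i ∈ O)
    (C : Set A) (m : ℕ) : (S.R C m).Nonempty ↔ ∃ i, lam i ∈ S.R C m := by
  constructor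
  · intro h
    obtain ⟨i, _, hi⟩ := hlam _ (S.isOpen_R C m) h 0
    exact ⟨i, hi⟩
  · rintro ⟨i, hi⟩
    exact ⟨_, hi⟩

theorem measurableSet_nonempty_R
    (hlam : ∀ O : Set A, IsOpen O → O.Nonempty → ∀ N, ∃ i, N ≤ i ∧ lam i ∈ O)
    (hF : ∀ x, IsClosed (F x))
    (hFm : ∀ U : Set A, IsOpen U → MeasurableSet {x | (F x ∩ U).Nonempty}) (m : ℕ) :
    MeasurableSet {x | (S.R (F x) m).Nonempty} := by
  simp only [S.nonempty_R_iff hlam]
  have : {x | ∃ i, lam i ∈ S.R (F x) m} = ⋃ i, {x | lam i ∈ S.R (F x) m} := by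
    ext x
    simp
  rw [this]
  exact MeasurableSet.iUnion fun i => S.measurableSet_mem_R hF hFm m (lam i)

theorem mem_T_iff (hlam : ∀ O : Set A, IsOpen O → O.Nonempty → ∀ N, ∃ i, N ≤ i ∧ lam i ∈ O)
    (C : Set A) (m : ℕ) (a : A) :
    a ∈ S.T C m ↔ ∃ i, lam i ∈ S.R C m ∧ (lam i)⁻¹ * a ∈ S.V m := by
  constructor
  · rintro ⟨p, hp, hpa⟩
    have ho : IsOpen {q | q ∈ S.R C m ∧ q⁻¹ * a ∈ S.V m} :=
      (S.isOpen_R C m).inter ((S.isOpen m).preimage (by fun_prop))
    obtain ⟨i, _, hi⟩ := hlam _ ho ⟨p, hp, hpa⟩ 0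
    exact ⟨i, hi⟩
  · rintro ⟨i, h1, h2⟩
    exact ⟨_, h1, h2⟩

theorem measurableSet_mem_T
    (hlam : ∀ O : Set A, IsOpen O → O.Nonempty → ∀ N, ∃ i, N ≤ i ∧ lam i ∈ O)
    (hF : ∀ x, IsClosed (F x))
    (hFm : ∀ U : Set A, IsOpen U → MeasurableSet {x | (F x ∩ U).Nonempty}) (m : ℕ) (a : A) :
    MeasurableSet {x | a ∈ S.T (F x) m} := by
  simp only [S.mem_T_iff hlam]
  have : {x | ∃ i, lam i ∈ S.R (F x) m ∧ (lam i)⁻¹ * a ∈ S.V m} =
      ⋃ i, ({x | lam i ∈ S.R (F x) m} ∩ {_x | (lam i)⁻¹ * a ∈ S.V m}) := by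
    ext x
    simp
  rw [this]
  exact MeasurableSet.iUnion fun i => (S.measurableSet_mem_R hF hFm m (lam i)).inter
    (MeasurableSet.const _)

theorem measurableSet_infDist_lt
    (hlam : ∀ O : Set A, IsOpen O → O.Nonempty → ∀ N, ∃ i, N ≤ i ∧ lam i ∈ O)
    (hF : ∀ x, IsClosed (F x))
    (hFm : ∀ U : Set A, IsOpen U → MeasurableSet {x | (F x ∩ U).Nonempty}) (m : ℕ) (a : A)
    (c : ℝ) :
    MeasurableSet {x | (S.R (F x) m).Nonempty ∧ infDist a (S.T (F x) m) < c} := by
  have : {x | (S.R (F x) m).Nonempty ∧ infDist a (S.T (F x) m) < c} =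
      {x | (S.R (F x) m).Nonempty} ∩
        ⋃ i, ({x | lam i ∈ S.T (F x) m} ∩ {_x | dist a (lam i) < c}) := by
    ext x
    simp only [mem_ofPred_eq, mem_inter_iff, mem_iUnion]
    refine and_congr_right fun hR => ?_
    rw [infDist_lt_iff (hR.mono (S.R_subset_T (F x) m))]
    constructor
    · rintro ⟨t, ht, hd⟩
      have ho : IsOpen {q | q ∈ S.T (F x) m ∧ dist a q < c} :=
        (S.isOpen_T (F x) m).inter (isOpen_lt (continuous_const.dist continuous_id) continuous_const)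
      obtain ⟨i, _, hi⟩ := hlam _ ho ⟨t, ht, hd⟩ 0
      exact ⟨i, hi⟩
    · rintro ⟨i, h1, h2⟩
      exact ⟨_, h1, h2⟩
  rw [this]
  exact (S.measurableSet_nonempty_R hlam hF hFm m).inter
    (MeasurableSet.iUnion fun i => (S.measurableSet_mem_T hlam hF hFm m (lam i)).inter
      (MeasurableSet.const _))

theorem measurableSet_lt_infDist
    (hlam : ∀ O : Set A, IsOpen O → O.Nonempty → ∀ N, ∃ i, N ≤ i ∧ lam i ∈ O)
    (hF : ∀ x, IsClosed (F x))
    (hFm : ∀ U : Set A, IsOpen U → MeasurableSet {x | (F x ∩ U).Nonempty}) (m : ℕ) (a : A)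
    (c : ℝ) :
    MeasurableSet {x | (S.R (F x) m).Nonempty ∧ c < infDist a (S.T (F x) m)} := by
  have : {x | (S.R (F x) m).Nonempty ∧ c < infDist a (S.T (F x) m)} =
      {x | (S.R (F x) m).Nonempty} \
        ⋂ i : ℕ, {x | (S.R (F x) m).Nonempty ∧ infDist a (S.T (F x) m) < c + 1 / ((i : ℝ) + 1)} := by
    ext x
    simp only [mem_ofPred_eq, mem_sdiff, mem_iInter, not_forall]
    refine and_congr_right fun hR => ?_
    constructor
    · intro h
      obtain ⟨i, hi⟩ := exists_nat_one_div_lt (sub_pos.2 h)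
      refine ⟨i, fun h2 => ?_⟩
      linarith [h2.2]
    · rintro ⟨i, hi⟩
      by_contra hcon
      apply hi
      refine ⟨hR, ?_⟩
      have : (0 : ℝ) < 1 / ((i : ℝ) + 1) := by positivity
      linarith [not_lt.1 hcon]
  rw [this]
  exact (S.measurableSet_nonempty_R hlam hF hFm m).diff
    (MeasurableSet.iInter fun i => S.measurableSet_infDist_lt hlam hF hFm m a _)

theorem measurableSet_good
    (hlam : ∀ O : Set A, IsOpen O → O.Nonempty → ∀ N, ∃ i, N ≤ i ∧ lam i ∈ O)
    (hF : ∀ x, IsClosed (F x))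
    (hFm : ∀ U : Set A, IsOpen U → MeasurableSet {x | (F x ∩ U).Nonempty}) (m s : ℕ) :
    MeasurableSet {x | (S.R (F x) m).Nonempty ∧ S.Good (F x) m s} := by
  have : {x | (S.R (F x) m).Nonempty ∧ S.Good (F x) m s} =
      {_x | (1 / 2 : ℝ) ^ s ≤ S.ρ m} ∩
        ⋃ i, {x | (S.R (F x) m).Nonempty ∧ (1 / 2 : ℝ) ^ s < infDist (lam i) (S.T (F x) m)} := by
    ext x
    simp only [mem_ofPred_eq, mem_inter_iff, mem_iUnion]
    constructor
    · rintro ⟨hR, hρ, p, hp⟩
      have ho : IsOpen {q | (1 / 2 : ℝ) ^ s < infDist q (S.T (F x) m)} :=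
        isOpen_lt continuous_const (continuous_infDist_pt _)
      obtain ⟨i, _, hi⟩ := hlam _ ho ⟨p, hp⟩ 0
      exact ⟨hρ, i, hR, hi⟩
    · rintro ⟨hρ, i, hR, hi⟩
      exact ⟨hR, hρ, _, hi⟩
  rw [this]
  exact (MeasurableSet.const _).inter
    (MeasurableSet.iUnion fun i => S.measurableSet_lt_infDist hlam hF hFm m (lam i) _)

theorem measurableSet_mem_W
    (hlam : ∀ O : Set A, IsOpen O → O.Nonempty → ∀ N, ∃ i, N ≤ i ∧ lam i ∈ O)
    (hF : ∀ x, IsClosed (F x))
    (hFm : ∀ U : Set A, IsOpen U → MeasurableSet {x | (F x ∩ U).Nonempty}) (m s j : ℕ) (a : A) :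
    MeasurableSet {x | (S.R (F x) m).Nonempty ∧ a ∈ S.W (F x) m s j} := by
  have : {x | (S.R (F x) m).Nonempty ∧ a ∈ S.W (F x) m s j} =
      {x | (S.R (F x) m).Nonempty ∧ (1 / 2 : ℝ) ^ s * wl j < infDist a (S.T (F x) m)} ∩
      {x | (S.R (F x) m).Nonempty ∧ infDist a (S.T (F x) m) < (1 / 2 : ℝ) ^ s * wr j} := by
    ext x
    simp only [mem_ofPred_eq, mem_inter_iff, W]
    tauto
  rw [this]
  exact (S.measurableSet_lt_infDist hlam hF hFm m a _).inter
    (S.measurableSet_infDist_lt hlam hF hFm m a _)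

end Scale

end Pool.Agent.PathAct
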