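import Pool.Agent.PathAct.Line

/-! The coding lemma for Borel actions of connected and locally connected Polish groups. -/

set_option autoImplicit false
set_option linter.unusedSectionVars false

open Topology Set Metric TopologicalSpace

namespace Pool.Agent.PathAct

open Pool.Agent.LeftAct

universe u v

variable {A : Type u} [Group A] [MetricSpace A] [IsTopologicalGroup A] [IsIsometricSMul A A]
  [PolishSpace A] [MeasurableSpace A] [BorelSpace A] [PreconnectedSpace A]
  {X : Type v} [MeasurableSpace X] [StandardBorelSpace X]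

/-- A sequence which is dense with infinite repetitions. -/
theorem exists_dense_seq (A : Type u) [TopologicalSpace A] [SeparableSpace A] [Nonempty A] :
    ∃ lam : ℕ → A, ∀ O : Set A, IsOpen O → O.Nonempty → ∀ N, ∃ i, N ≤ i ∧ lam i ∈ O := by
  refine ⟨fun i => denseSeq A (Nat.unpair i).1, fun O hO hne N => ?_⟩
  obtain ⟨l, hl⟩ := (denseRange_denseSeq A).exists_mem_open hO hne
  exact ⟨Nat.pair l N, Nat.right_le_pair l N, by simpa using hl⟩

/-- **The coding lemma.** -/
theorem exists_line_code (S : Scale A) (act : A → X → X) (act_one : ∀ x, act 1 x = x)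
    (act_mul : ∀ g h x, act (g * h) x = act g (act h x))
    (hact : Measurable fun p : A × X => act p.1 p.2) :
    ∃ P : Set X, MeasurableSet P ∧ (∀ x ∈ P, ∃ a, act a x ≠ x) ∧
      (∀ x, (∃ a, act a x ≠ x) → ¬ IsMeagre {a | act a⁻¹ x ∈ P}) ∧
      ∀ x y, (∃ a, act a x ≠ x) → IsMeagre {a | ¬ (act a⁻¹ x ∈ P ↔ act a⁻¹ y ∈ P)} → x = y := by
  classical
  obtain ⟨B, F, hB, hBsep, hFc, hFe, hFm, hFinj, hFi⟩ := exists_coding act act_one act_mul hact
  obtain ⟨lam, hlam⟩ := exists_dense_seq A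
  -- the nontrivial codes
  let N : ℕ → X → Prop := fun n x => (F x n).Nonempty ∧ F x n ≠ univ
  have hNe : ∀ n a x, N n (act a x) ↔ N n x := by
    intro n a x
    show (F (act a x) n).Nonempty ∧ F (act a x) n ≠ univ ↔ _
    rw [hFe a x n]
    have h1 : (fun g => a * g) '' F x n = univ ↔ F x n = univ := by
      constructor
      · intro h
        ext g
        simp only [mem_univ, iff_true]
        have : a * g ∈ (fun g => a * g) '' F x n := h ▸ mem_univ _
        obtain ⟨g', hg', hgg⟩ := this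
        have h2 : g' = g := mul_left_cancel hgg
        exact h2 ▸ hg'
      · intro h
        rw [h]
        exact image_univ_of_surjective (Group.mulLeft_bijective a).surjective
    rw [image_nonempty, ne_eq, h1]
  have hNfix : ∀ x, (∃ a, act a x ≠ x) → ∃ n, N n x := by
    rintro x ⟨a, ha⟩
    by_contra hcon
    apply ha
    apply hFinj
    funext n
    rw [hFe]
    rcases (F x n).eq_empty_or_nonempty with h | h
    · simp [h]
    · have h1 : F x n = univ := by
        by_contra h2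
        exact hcon ⟨n, h, h2⟩
      rw [h1]
      exact image_univ_of_surjective (Group.mulLeft_bijective a).surjective
  have hNnf : ∀ n x, N n x → ∃ a, act a x ≠ x := by
    rintro n x ⟨⟨g, hg⟩, hne⟩
    by_contra hcon
    push Not at hcon
    apply hne
    ext g'
    simp only [mem_univ, iff_true]
    have h1 := hFe (g' * g⁻¹) x n
    rw [hcon] at h1
    rw [h1]
    exact ⟨g, hg, by simp⟩
  have hNm : ∀ n, MeasurableSet {x | N n x} := by
    intro n
    obtain ⟨b, hbc, hbe, hb⟩ := exists_countable_basis A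
    have h1 : {x | N n x} = {x | (F x n ∩ univ).Nonempty} ∩
        ⋃ W ∈ b, {x | (F x n ∩ W).Nonempty}ᶜ := by
      ext x
      simp only [mem_ofPred_eq, inter_univ, mem_inter_iff, mem_iUnion, mem_compl_iff, exists_prop]
      refine and_congr_right fun _ => ?_
      constructor
      · intro h
        obtain ⟨g, hg⟩ := (ne_univ_iff_exists_notMem _).1 h
        obtain ⟨W, hW, hgW, hWs⟩ := hb.exists_subset_of_mem_open hg (hFc x n).isOpen_compl
        refine ⟨W, hW, ?_⟩
        rintro ⟨w, hw1, hw2⟩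
        exact hWs hw2 hw1
      · rintro ⟨W, hW, hWx⟩ h
        have hWne : W.Nonempty := by
          rw [nonempty_iff_ne_empty]
          rintro rfl
          exact hbe hW
        apply hWx
        rw [h, univ_inter]
        exact hWne
    rw [h1]
    exact (hFm n univ isOpen_univ).inter (MeasurableSet.biUnion hbc fun W hW =>
      (hFm n W (hb.isOpen hW)).compl)
  -- the cells
  let Cell : ℕ → ℕ → ℕ → Set X := fun n m s => {x | (N n x ∧ ∀ k < n, ¬ N k x) ∧
    ((S.R (F x n) m).Nonempty ∧ ∀ k < m, ¬ (S.R (F x n) k).Nonempty) ∧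
    (((S.R (F x n) m).Nonempty ∧ S.Good (F x n) m s) ∧
      ∀ k < s, ¬ ((S.R (F x n) m).Nonempty ∧ S.Good (F x n) m k))}
  have hRm : ∀ n m, MeasurableSet {x | (S.R (F x n) m).Nonempty} := fun n m =>
    S.measurableSet_nonempty_R hlam (fun x => hFc x n) (hFm n) m
  have hGm : ∀ n m s, MeasurableSet {x | (S.R (F x n) m).Nonempty ∧ S.Good (F x n) m s} :=
    fun n m s => S.measurableSet_good hlam (fun x => hFc x n) (hFm n) m s
  have hCm : ∀ n m s, MeasurableSet (Cell n m s) := by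
    intro n m s
    have h1 : Cell n m s = ({x | N n x} ∩ ⋂ k ∈ {k | k < n}, {x | N k x}ᶜ) ∩
        (({x | (S.R (F x n) m).Nonempty} ∩ ⋂ k ∈ {k | k < m}, {x | (S.R (F x n) k).Nonempty}ᶜ) ∩
        ({x | (S.R (F x n) m).Nonempty ∧ S.Good (F x n) m s} ∩
          ⋂ k ∈ {k | k < s}, {x | (S.R (F x n) m).Nonempty ∧ S.Good (F x n) m k}ᶜ)) := by
      ext x
      simp only [Cell, mem_ofPred_eq, mem_inter_iff, mem_iInter, mem_compl_iff]
    rw [h1]
    refine ((hNm n).inter (MeasurableSet.biInter (to_countable _) fun k _ => (hNm k).compl)).inter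
      (((hRm n m).inter (MeasurableSet.biInter (to_countable _) fun k _ => (hRm n k).compl)).inter
      ((hGm n m s).inter (MeasurableSet.biInter (to_countable _) fun k _ => (hGm n m k).compl)))
  have hCe : ∀ n m s a x, act a x ∈ Cell n m s ↔ x ∈ Cell n m s := by
    intro n m s a x
    simp only [Cell, mem_ofPred_eq, hNe, hFe, S.nonempty_R_image, S.good_image]
  have hCex : ∀ x, (∃ a, act a x ≠ x) → ∃ n m s, x ∈ Cell n m s := by
    intro x hx
    have h1 := hNfix x hx
    obtain ⟨n, hn, hnmin⟩ : ∃ n, N n x ∧ ∀ k < n, ¬ N k x :=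
      ⟨Nat.find h1, Nat.find_spec h1, fun k hk => Nat.find_min h1 hk⟩
    have h2 := S.exists_R_nonempty (hFi x n hn.1)
    obtain ⟨m, hm, hmmin⟩ : ∃ m, (S.R (F x n) m).Nonempty ∧ ∀ k < m, ¬ (S.R (F x n) k).Nonempty :=
      ⟨Nat.find h2, Nat.find_spec h2, fun k hk => Nat.find_min h2 hk⟩
    have h3 : ∃ s, (S.R (F x n) m).Nonempty ∧ S.Good (F x n) m s := by
      obtain ⟨s, hs⟩ := S.exists_good (hFc x n) hn.2 hm
      exact ⟨s, hm, hs⟩
    exact ⟨n, m, Nat.find h3, ⟨hn, hnmin⟩, ⟨hm, hmmin⟩, Nat.find_spec h3,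
      fun k hk => Nat.find_min h3 hk⟩
  -- the data
  let D : X → ℕ → Set A := fun x j =>
    {a | act (a * lam (Nat.unpair j).1)⁻¹ x ∈ B (Nat.unpair j).2}
  let Q : ℕ → ℕ → ℕ → Set X := fun n m s => {x | x ∈ Cell n m s ∧ (1 : A) ∈ S.code (F x n) m s (D x)}
  have hQm : ∀ n m s, MeasurableSet (Q n m s) := by
    intro n m s
    have h1 : Q n m s = Cell n m s ∩ ({x | (1 : A) ∈ S.T (F x n) m} ∪
        ⋃ j, ({x | (S.R (F x n) m).Nonempty ∧ (1 : A) ∈ S.W (F x n) m s j} ∩
          {x | act (lam (Nat.unpair j).1)⁻¹ x ∈ B (Nat.unpair j).2})) := by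
      ext x
      simp only [Q, Scale.code, D, mem_ofPred_eq, mem_inter_iff, mem_union, mem_iUnion, one_mul]
      refine and_congr_right fun hx => ?_
      refine or_congr_right (exists_congr fun j => ?_)
      have := hx.2.1.1
      tauto
    rw [h1]
    refine (hCm n m s).inter ((S.measurableSet_mem_T hlam (fun x => hFc x n) (hFm n) m 1).union
      (MeasurableSet.iUnion fun j => (S.measurableSet_mem_W hlam (fun x => hFc x n) (hFm n) m s j
        1).inter ?_))
    have h2 : Measurable fun x : X => act (lam (Nat.unpair j).1)⁻¹ x :=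
      hact.comp measurable_prodMk_left
    exact h2 (hB _)
  let P : Set X := ⋃ n, ⋃ m, ⋃ s, Q n m s
  have hPm : MeasurableSet P := MeasurableSet.iUnion fun n => MeasurableSet.iUnion fun m =>
    MeasurableSet.iUnion fun s => hQm n m s
  have hcell_unique : ∀ x n m s n' m' s', x ∈ Cell n m s → x ∈ Cell n' m' s' →
      n = n' ∧ m = m' ∧ s = s' := by
    intro x n m s n' m' s' h h'
    have hn : n = n' := by
      rcases lt_trichotomy n n' with h1 | h1 | h1
      · exact absurd h.1.1 (h'.1.2 n h1)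
      · exact h1
      · exact absurd h'.1.1 (h.1.2 n' h1)
    subst hn
    have hm : m = m' := by
      rcases lt_trichotomy m m' with h1 | h1 | h1
      · exact absurd h.2.1.1 (h'.2.1.2 m h1)
      · exact h1
      · exact absurd h'.2.1.1 (h.2.1.2 m' h1)
    subst hm
    refine ⟨rfl, rfl, ?_⟩
    rcases lt_trichotomy s s' with h1 | h1 | h1
    · exact absurd h.2.2.1 (h'.2.2.2 s h1)
    · exact h1
    · exact absurd h'.2.2.1 (h.2.2.2 s' h1)
  -- the trace of `P` on an orbit
  have htrace : ∀ x n m s, x ∈ Cell n m s →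
      {a | act a⁻¹ x ∈ P} = S.code (F x n) m s (D x) := by
    intro x n m s hx
    ext a
    have h1 : act a⁻¹ x ∈ P ↔ (1 : A) ∈ S.code (F (act a⁻¹ x) n) m s (D (act a⁻¹ x)) := by
      constructor
      · intro h
        obtain ⟨n', hn'⟩ := mem_iUnion.1 h
        obtain ⟨m', hm'⟩ := mem_iUnion.1 hn'
        obtain ⟨s', hs'⟩ := mem_iUnion.1 hm'
        obtain ⟨rfl, rfl, rfl⟩ := hcell_unique _ _ _ _ _ _ _ ((hCe n m s a⁻¹ x).2 hx) hs'.1
        exact hs'.2
      · intro h
        exact mem_iUnion.2 ⟨n, mem_iUnion.2 ⟨m, mem_iUnion.2 ⟨s, (hCe n m s a⁻¹ x).2 hx, h⟩⟩⟩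
    show act a⁻¹ x ∈ P ↔ _
    rw [h1, hFe]
    unfold Scale.code
    simp only [mem_union, mem_iUnion, mem_inter_iff, S.mem_T_image, S.mem_W_image, inv_inv, mul_one]
    refine or_congr_right (exists_congr fun j => and_congr_right fun _ => ?_)
    show act (1 * lam (Nat.unpair j).1)⁻¹ (act a⁻¹ x) ∈ B (Nat.unpair j).2 ↔
      act (a * lam (Nat.unpair j).1)⁻¹ x ∈ B (Nat.unpair j).2
    rw [← act_mul, one_mul, mul_inv_rev]
  have hPnf : ∀ x ∈ P, ∃ a, act a x ≠ x := by
    intro x h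
    obtain ⟨n', hn'⟩ := mem_iUnion.1 h
    obtain ⟨m', hm'⟩ := mem_iUnion.1 hn'
    obtain ⟨s', hs'⟩ := mem_iUnion.1 hm'
    exact hNnf n' x hs'.1.1.1
  have hnm : ∀ x, (∃ a, act a x ≠ x) → ¬ IsMeagre {a | act a⁻¹ x ∈ P} := by
    intro x hx
    obtain ⟨n, m, s, hc⟩ := hCex x hx
    rw [htrace x n m s hc]
    intro hm
    refine not_isMeagre_of_isOpen (S.isOpen_T (F x n) m)
      (hc.2.1.1.mono (S.R_subset_T (F x n) m)) (hm.mono ?_)
    exact subset_union_left
  refine ⟨P, hPm, hPnf, hnm, ?_⟩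
  intro x y hx hxy
  have hy : ∃ a, act a y ≠ y := by
    by_contra hcon
    push Not at hcon
    apply hnm x hx
    refine hxy.mono ?_
    intro a ha hiff
    have h1 := hiff.1 ha
    rw [hcon] at h1
    obtain ⟨a', ha'⟩ := hPnf y h1
    exact ha' (hcon a')
  obtain ⟨n, m, s, hc⟩ := hCex x hx
  obtain ⟨n', m', s', hc'⟩ := hCex y hy
  have e1 := htrace x n m s hc
  have e2 := htrace y n' m' s' hc'
  have h1 : IsMeagre (S.code (F x n) m s (D x) \ S.code (F y n') m' s' (D y)) := by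
    rw [← e1, ← e2]
    refine hxy.mono ?_
    rintro a ⟨ha1, ha2⟩ hiff
    exact ha2 (hiff.1 ha1)
  have h2 : IsMeagre (S.code (F y n') m' s' (D y) \ S.code (F x n) m s (D x)) := by
    rw [← e1, ← e2]
    refine hxy.mono ?_
    rintro a ⟨ha1, ha2⟩ hiff
    exact ha2 (hiff.2 ha1)
  have hmin : ∀ {x n m s}, x ∈ Cell n m s → ∀ k, (S.R (F x n) k).Nonempty → m ≤ k :=
    fun h k hk => by
      by_contra hcon
      exact h.2.1.2 k (not_le.1 hcon) hk
  have hsmin : ∀ {x n m s}, x ∈ Cell n m s → ∀ k, S.Good (F x n) m k → s ≤ k :=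
    fun h k hk => by
      by_contra hcon
      exact h.2.2.2 k (not_le.1 hcon) ⟨h.2.1.1, hk⟩
  obtain ⟨rfl, rfl, hT, hD⟩ := S.decode (hFc x n) (hFc y n') hc.2.1.1 hc'.2.1.1
    (hmin hc) (hmin hc') hc.2.2.1.2 hc'.2.2.1.2 (hsmin hc) (hsmin hc') h1 h2
  -- the digits agree on a comeagre set
  have hbad : ∀ k, IsMeagre {a | ¬ (act a⁻¹ x ∈ B k ↔ act a⁻¹ y ∈ B k)} := by
    intro k
    let O : Set A := ⋃ i, (fun p => p * lam i) '' S.W (F x n) m s (Nat.pair i k)
    have hOo : IsOpen O := isOpen_iUnion fun i => isOpenMap_mul_right (lam i) _ (S.isOpen_W _ _ _ _)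
    have hOd : Dense O := by
      rw [dense_iff_inter_open]
      rintro U hU ⟨q, hq⟩
      obtain ⟨i, p, hp, hpU⟩ := S.coverage hc.2.1.1 hc.2.2.1.2 hlam q hU hq k
      exact ⟨p * lam i, hpU, mem_iUnion.2 ⟨i, p, hp, rfl⟩⟩
    have hOm : IsMeagre Oᶜ := by
      have : O ∈ residual A := residual_of_dense_open hOo hOd
      show Oᶜᶜ ∈ residual A
      rwa [compl_compl]
    have h3 : IsMeagre (⋃ i, (fun a => a * (lam i)⁻¹) ⁻¹'
        {p | p ∈ S.W (F x n) m s (Nat.pair i k) ∧
          ¬ (p ∈ D x (Nat.pair i k) ↔ p ∈ D y (Nat.pair i k))}) :=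
      isMeagre_iUnion fun i => (hD (Nat.pair i k)).preimage_of_isOpenMap
        (continuous_mul_const _) (isOpenMap_mul_right _)
    refine (hOm.union h3).mono ?_
    intro a ha
    by_cases haO : a ∈ O
    · refine Or.inr ?_
      obtain ⟨i, p, hp, rfl⟩ := mem_iUnion.1 haO
      refine mem_iUnion.2 ⟨i, ?_⟩
      show (p * lam i) * (lam i)⁻¹ ∈ {p | p ∈ S.W (F x n) m s (Nat.pair i k) ∧
          ¬ (p ∈ D x (Nat.pair i k) ↔ p ∈ D y (Nat.pair i k))}
      rw [mul_inv_cancel_right]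
      refine ⟨hp, ?_⟩
      intro hiff
      apply ha
      have h4 : ∀ z, p ∈ D z (Nat.pair i k) ↔ act (p * lam i)⁻¹ z ∈ B k := by
        intro z
        show act (p * lam (Nat.unpair (Nat.pair i k)).1)⁻¹ z ∈ B (Nat.unpair (Nat.pair i k)).2 ↔ _
        rw [Nat.unpair_pair]
      rw [h4, h4] at hiff
      exact hiff
    · exact Or.inl haO
  have hall : IsMeagre (⋃ k, {a | ¬ (act a⁻¹ x ∈ B k ↔ act a⁻¹ y ∈ B k)}) := isMeagre_iUnion hbad
  obtain ⟨a, ha⟩ : ∃ a, a ∉ ⋃ k, {a | ¬ (act a⁻¹ x ∈ B k ↔ act a⁻¹ y ∈ B k)} := by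
    by_contra hcon
    exact not_isMeagre_of_isOpen (X := A) isOpen_univ ⟨1, trivial⟩
      (hall.mono fun a _ => not_not.1 fun h => hcon ⟨a, h⟩)
  have h5 : act a⁻¹ x = act a⁻¹ y := by
    apply hBsep
    intro k
    by_contra hcon
    exact ha (mem_iUnion.2 ⟨k, hcon⟩)
  calc x = act a (act a⁻¹ x) := by rw [← act_mul, mul_inv_cancel, act_one]
    _ = act a (act a⁻¹ y) := by rw [h5]
    _ = y := by rw [← act_mul, mul_inv_cancel, act_one]

end Pool.Agent.PathAct
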