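import Pool.Agent.PathAct.Assembly

/-! Borel actions of non-archimedean Polish groups with a complete left invariant metric: the
points with non-open stabilizers embed equivariantly into the closed subsets of the group. -/

set_option autoImplicit false
set_option linter.unusedSectionVars false

open Topology Set TopologicalSpace

namespace Pool.Agent.PathAct

open Pool.Agent.LeftAct

universe u v

namespace NA

section abstract_part

variable {G : Type u} [Group G] {X : Type v} [MulAction G X]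

/-- A decreasing sequence of subgroups and a sequence of sets; the `k`-th set is invariant under
the subgroup number `m k`. -/
structure Data (G : Type u) [Group G] (X : Type v) [MulAction G X] where
  V : ℕ → Subgroup G
  anti : Antitone V
  conj : ∀ (g : G) (l : ℕ), ∃ l', ∀ v ∈ V l', g * v * g⁻¹ ∈ V l
  E : ℕ → Set X
  m : ℕ → ℕ
  inv : ∀ k, ∀ v ∈ V (m k), ∀ x, v • x ∈ E k ↔ x ∈ E k
  sep : ∀ x y : X, (∀ k, x ∈ E k ↔ y ∈ E k) → x = y

variable (D : Data G X)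

namespace Data

/-- The delayed sequence of sets. -/
def Ed (j : ℕ) : Set X := {x | D.m (Nat.unpair j).1 ≤ j ∧ x ∈ D.E (Nat.unpair j).1}

theorem inv_Ed (j : ℕ) {v : G} (hv : v ∈ D.V j) (x : X) : v • x ∈ D.Ed j ↔ x ∈ D.Ed j := by
  unfold Ed
  refine and_congr_right fun h => ?_
  exact D.inv _ v (D.anti h hv) x

theorem sep_Ed {x y : X} (h : ∀ j, x ∈ D.Ed j ↔ y ∈ D.Ed j) : x = y := by
  apply D.sep
  intro k
  have h1 := h (Nat.pair k (D.m k))
  have h2 : D.m (Nat.unpair (Nat.pair k (D.m k))).1 ≤ Nat.pair k (D.m k) := by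
    rw [Nat.unpair_pair]
    exact Nat.right_le_pair _ _
  have h3 : ∀ z, z ∈ D.Ed (Nat.pair k (D.m k)) ↔ z ∈ D.E k := by
    intro z
    constructor
    · rintro ⟨_, h4⟩
      rwa [Nat.unpair_pair] at h4
    · intro h4
      refine ⟨h2, ?_⟩
      rwa [Nat.unpair_pair]
  rw [h3, h3] at h1
  exact h1

/-- `E k` is constant on `V l • x`. -/
def Cst (x : X) (l k : ℕ) : Prop := ∀ v ∈ D.V l, (v • x ∈ D.E k ↔ x ∈ D.E k)

theorem cst_smul {x : X} {l k : ℕ} {v : G} (hv : v ∈ D.V l) : D.Cst (v • x) l k ↔ D.Cst x l k := by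
  constructor
  · intro h w hw
    have h1 := h (w * v⁻¹) ((D.V l).mul_mem hw ((D.V l).inv_mem hv))
    rw [smul_smul, inv_mul_cancel_right] at h1
    have h2 := h v⁻¹ ((D.V l).inv_mem hv)
    rw [inv_smul_smul] at h2
    rw [h1, h2]
  · intro h w hw
    have h1 := h (w * v) ((D.V l).mul_mem hw hv)
    rw [mul_smul] at h1
    rw [h1, h v hv]

theorem cst_mono {x : X} {l l' k : ℕ} (h : l ≤ l') (hc : D.Cst x l k) : D.Cst x l' k :=
  fun v hv => hc v (D.anti h hv)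

/-- `E k` splits `V l • x` into sets which are unions of pieces of level `l + 1`. -/
def Sp (x : X) (l k : ℕ) : Prop := (∀ v ∈ D.V l, D.Cst (v • x) (l + 1) k) ∧ ¬ D.Cst x l k

theorem sp_smul {x : X} {l k : ℕ} {v : G} (hv : v ∈ D.V l) : D.Sp (v • x) l k ↔ D.Sp x l k := by
  unfold Sp
  rw [D.cst_smul hv]
  refine and_congr_left fun _ => ?_
  constructor
  · intro h w hw
    have h1 := h (w * v⁻¹) ((D.V l).mul_mem hw ((D.V l).inv_mem hv))
    rwa [smul_smul, inv_mul_cancel_right] at h1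
  · intro h w hw
    have h1 := h (w * v) ((D.V l).mul_mem hw hv)
    rwa [mul_smul] at h1

/-- Some set splits `V l • x`. -/
def Split (x : X) (l : ℕ) : Prop := ∃ k, D.Sp x l k

theorem split_smul {x : X} {l : ℕ} {v : G} (hv : v ∈ D.V l) : D.Split (v • x) l ↔ D.Split x l :=
  exists_congr fun _ => D.sp_smul hv

open Classical in
/-- The first set which splits `V l • x`. -/
noncomputable def kap (x : X) (l : ℕ) : ℕ := sInf {k | D.Sp x l k}

theorem kap_smul {x : X} {l : ℕ} {v : G} (hv : v ∈ D.V l) : D.kap (v • x) l = D.kap x l := by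
  unfold kap
  simp only [D.sp_smul hv]

theorem sp_kap {x : X} {l : ℕ} (h : D.Split x l) : D.Sp x l (D.kap x l) :=
  Nat.sInf_mem (s := {k | D.Sp x l k}) h

/-- The active points. -/
def Act : ℕ → Set X
  | 0 => univ
  | l + 1 => {x | x ∈ Act l ∧ (D.Split x l → x ∈ D.E (D.kap x l))}

theorem mem_act_succ {x : X} {l : ℕ} :
    x ∈ D.Act (l + 1) ↔ x ∈ D.Act l ∧ (D.Split x l → x ∈ D.E (D.kap x l)) := Iff.rfl

theorem act_anti : Antitone D.Act := antitone_nat_of_succ_le fun _ _ hx => hx.1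

theorem mem_E_kap_smul {x : X} {l : ℕ} {v : G} (hv : v ∈ D.V (l + 1)) (h : D.Split x l) :
    v • x ∈ D.E (D.kap x l) ↔ x ∈ D.E (D.kap x l) := by
  have h1 := (D.sp_kap h).1 1 (D.V l).one_mem
  rw [one_smul] at h1
  exact h1 v hv

theorem act_smul {l : ℕ} {x : X} {v : G} (hv : v ∈ D.V l) : v • x ∈ D.Act l ↔ x ∈ D.Act l := by
  induction l generalizing x with
  | zero => exact Iff.rfl
  | succ l ih =>
    have hv' : v ∈ D.V l := D.anti (Nat.le_succ l) hv
    rw [mem_act_succ, mem_act_succ, ih hv', D.split_smul hv', D.kap_smul hv']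
    refine and_congr_right fun _ => ?_
    constructor
    · intro h hs
      exact (D.mem_E_kap_smul hv hs).1 (h hs)
    · intro h hs
      exact (D.mem_E_kap_smul hv hs).2 (h hs)

open Classical in
/-- The number of splittings before level `l`. -/
noncomputable def cnt (x : X) : ℕ → ℕ
  | 0 => 0
  | l + 1 => cnt x l + if D.Split x l then 1 else 0

theorem cnt_smul {l : ℕ} {x : X} {v : G} (hv : v ∈ D.V l) : D.cnt (v • x) l = D.cnt x l := by
  induction l with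
  | zero => rfl
  | succ l ih =>
    have hv' : v ∈ D.V l := D.anti (Nat.le_succ l) hv
    have h1 := D.split_smul (x := x) hv'
    by_cases h2 : D.Split x l
    · simp [cnt, ih hv', h2, h1.2 h2]
    · simp [cnt, ih hv', h2, mt h1.1 h2]

theorem cnt_le (x : X) (l : ℕ) : D.cnt x l ≤ l := by
  induction l with
  | zero => exact le_rfl
  | succ l ih =>
    simp only [cnt]
    split_ifs <;> omega

theorem cnt_eq_of_not_split {x : X} {l l' : ℕ} (h : l ≤ l')
    (hs : ∀ i, l ≤ i → i < l' → ¬ D.Split x i) : D.cnt x l' = D.cnt x l := by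
  induction l', h using Nat.le_induction with
  | base => rfl
  | succ n hn ih =>
    have h1 := ih fun i hi hin => hs i hi (hin.trans (Nat.lt_succ_self n))
    simp only [cnt, hs n hn (Nat.lt_succ_self n), if_false, h1, Nat.add_zero]

theorem act_of_not_split {x : X} {l l' : ℕ} (h : l ≤ l')
    (hs : ∀ i, l ≤ i → i < l' → ¬ D.Split x i) (hx : x ∈ D.Act l) : x ∈ D.Act l' := by
  induction l', h using Nat.le_induction with
  | base => exact hx
  | succ n hn ih =>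
    have h1 := ih fun i hi hin => hs i hi (hin.trans (Nat.lt_succ_self n))
    exact ⟨h1, fun h2 => absurd h2 (hs n hn (Nat.lt_succ_self n))⟩

/-- The bit stored at the splitting of level `l`. -/
def Bit (x : X) (t : ℕ) : Prop := if Even t then x ∈ D.Ed (t / 2) else x ∉ D.Ed (t / 2)

theorem bit_smul {x : X} {l t : ℕ} (ht : t ≤ l) {v : G} (hv : v ∈ D.V l) :
    D.Bit (v • x) t ↔ D.Bit x t := by
  have h1 : v ∈ D.V (t / 2) := D.anti (by omega) hv
  unfold Bit
  split_ifs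
  · exact D.inv_Ed _ h1 x
  · rw [D.inv_Ed _ h1 x]

/-- `x` is coded at level `l`. -/
def Coded (x : X) (l : ℕ) : Prop := x ∈ D.Act l ∧ x ∉ D.Act (l + 1)

theorem Coded.split {x : X} {l : ℕ} (h : D.Coded x l) : D.Split x l := by
  by_contra hcon
  exact h.2 ⟨h.1, fun hs => absurd hs hcon⟩

theorem coded_unique {x : X} {l l' : ℕ} (h : D.Coded x l) (h' : D.Coded x l') : l = l' := by
  rcases lt_trichotomy l l' with h1 | h1 | h1
  · exact absurd (D.act_anti h1 h'.1) h.2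
  · exact h1
  · exact absurd (D.act_anti h1 h.1) h'.2

theorem coded_smul {x : X} {l : ℕ} {v : G} (hv : v ∈ D.V (l + 1)) :
    D.Coded (v • x) l ↔ D.Coded x l := by
  unfold Coded
  rw [D.act_smul hv, D.act_smul (D.anti (Nat.le_succ l) hv)]

/-- The coding set. -/
def P : Set X := {x | ∃ l, D.Coded x l ∧ D.Bit x (D.cnt x l)}

theorem mem_P_of_coded {x : X} {l : ℕ} (h : D.Coded x l) : x ∈ D.P ↔ D.Bit x (D.cnt x l) := by
  constructor
  · rintro ⟨l', h', hb⟩
    rw [D.coded_unique h h']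
    exact hb
  · intro hb
    exact ⟨l, h, hb⟩

theorem smul_mem_P {x : X} {l : ℕ} (h : D.Coded x l) {v : G} (hv : v ∈ D.V (l + 1)) :
    v • x ∈ D.P ↔ x ∈ D.P := by
  rw [D.mem_P_of_coded h, D.mem_P_of_coded ((D.coded_smul hv).2 h),
    D.cnt_smul (D.anti (Nat.le_succ l) hv),
    D.bit_smul (D.cnt_le x l) (D.anti (Nat.le_succ l) hv)]

/-! ### Existence of splittings -/

/-- The stabilizer of `x` contains no `V l`. -/
def Free (x : X) : Prop := ∀ l, ∃ v ∈ D.V l, v • x ≠ x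

theorem exists_split {x : X} (hx : D.Free x) (l : ℕ) :
    ∃ l', l ≤ l' ∧ ∃ v ∈ D.V l, D.Split (v • x) l' := by
  by_contra hcon
  have hcon' : ∀ l', l ≤ l' → ∀ v ∈ D.V l, ¬ D.Split (v • x) l' := fun l' hl v hv hs =>
    hcon ⟨l', hl, v, hv, hs⟩
  obtain ⟨v, hv, hvx⟩ := hx l
  apply hvx
  apply D.sep
  intro k
  -- downward induction
  have key : ∀ d, ∀ l'', l ≤ l'' → D.m k ≤ l'' + d → ∀ w ∈ D.V l, D.Cst (w • x) l'' k := by
    intro d
    induction d with
    | zero =>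
      intro l'' _ hm w _ u hu
      exact D.inv k u (D.anti hm hu) _
    | succ d ih =>
      intro l'' hl hm w hw
      by_contra hc
      apply hcon' l'' hl w hw
      refine ⟨k, ?_, hc⟩
      intro u hu
      rw [smul_smul]
      exact ih (l'' + 1) (by omega) (by omega) _ ((D.V l).mul_mem (D.anti hl hu) hw)
  have h1 := key (D.m k) l le_rfl (by omega) 1 (D.V l).one_mem
  rw [one_smul] at h1
  exact h1 v hv

theorem free_smul {x : X} (hx : D.Free x) (g : G) : D.Free (g • x) := by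
  intro l
  by_contra hcon
  push Not at hcon
  obtain ⟨l', hl'⟩ := D.conj g l
  obtain ⟨v, hv, hvx⟩ := hx l'
  apply hvx
  have h1 := hcon _ (hl' v hv)
  rw [smul_smul, inv_mul_cancel_right, mul_smul] at h1
  exact smul_left_cancel g h1

theorem exists_in {x : X} {l : ℕ} (hx : x ∈ D.Act l) (hs : D.Split x l) :
    ∃ u ∈ D.V l, u • x ∈ D.Act (l + 1) := by
  obtain ⟨h1, h2⟩ := D.sp_kap hs
  have h3 : ∃ v ∈ D.V l, v • x ∈ D.E (D.kap x l) := by
    by_contra hcon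
    push Not at hcon
    apply h2
    intro v hv
    have h4 := hcon 1 (D.V l).one_mem
    rw [one_smul] at h4
    exact iff_of_false (hcon v hv) h4
  obtain ⟨v, hv, hvE⟩ := h3
  refine ⟨v, hv, D.mem_act_succ.2 ⟨(D.act_smul hv).2 hx, fun _ => ?_⟩⟩
  rw [D.kap_smul hv]
  exact hvE

theorem exists_out {x : X} {l : ℕ} (hx : x ∈ D.Act l) (hs : D.Split x l) :
    ∃ u ∈ D.V l, D.Coded (u • x) l := by
  obtain ⟨h1, h2⟩ := D.sp_kap hs
  have h3 : ∃ v ∈ D.V l, v • x ∉ D.E (D.kap x l) := by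
    by_contra hcon
    push Not at hcon
    apply h2
    intro v hv
    have h4 := hcon 1 (D.V l).one_mem
    rw [one_smul] at h4
    exact iff_of_true (hcon v hv) h4
  obtain ⟨v, hv, hvE⟩ := h3
  refine ⟨v, hv, (D.act_smul hv).2 hx, fun h4 => ?_⟩
  have h5 := (D.mem_act_succ.1 h4).2 ((D.split_smul hv).2 hs)
  rw [D.kap_smul hv] at h5
  exact hvE h5

theorem next_split {x : X} {l : ℕ} (hx : D.Free x) (ha : x ∈ D.Act l) :
    ∃ l', l ≤ l' ∧ ∃ v ∈ D.V l, v • x ∈ D.Act l' ∧ D.Split (v • x) l' ∧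
      D.cnt (v • x) l' = D.cnt x l := by
  classical
  have hex : ∃ l', l ≤ l' ∧ ∃ v ∈ D.V l, D.Split (v • x) l' := D.exists_split hx l
  obtain ⟨hl, v, hv, hs⟩ := Nat.find_spec hex
  have hmin : ∀ i, l ≤ i → i < Nat.find hex → ¬ D.Split (v • x) i := fun i hi hif hsi =>
    Nat.find_min hex hif ⟨hi, v, hv, hsi⟩
  refine ⟨Nat.find hex, hl, v, hv, ?_, hs, ?_⟩
  · exact D.act_of_not_split hl hmin ((D.act_smul hv).2 ha)
  · rw [D.cnt_eq_of_not_split hl hmin, D.cnt_smul hv]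

theorem cnt_succ_of_split {x : X} {l : ℕ} (hs : D.Split x l) :
    D.cnt x (l + 1) = D.cnt x l + 1 := by
  simp [cnt, hs]

theorem exists_cnt {x : X} {l : ℕ} (hx : D.Free x) (ha : x ∈ D.Act l) {n : ℕ}
    (hn : D.cnt x l ≤ n) :
    ∃ l', l ≤ l' ∧ ∃ v ∈ D.V l, v • x ∈ D.Act l' ∧ D.Split (v • x) l' ∧
      D.cnt (v • x) l' = n := by
  induction n, hn using Nat.le_induction with
  | base => exact D.next_split hx ha
  | succ n hn ih =>
    obtain ⟨l', hl, v, hv, ha', hs, hc⟩ := ih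
    obtain ⟨u, hu, hua⟩ := D.exists_in ha' hs
    obtain ⟨l'', hl'', w, hw, ha'', hs'', hc''⟩ :=
      D.next_split (D.free_smul (D.free_smul hx v) u) hua
    refine ⟨l'', hl.trans ((Nat.le_succ l').trans hl''), w * (u * v), ?_, ?_, ?_, ?_⟩
    · exact (D.V l).mul_mem (D.anti (hl.trans (Nat.le_succ l')) hw)
        ((D.V l).mul_mem (D.anti hl hu) hv)
    · rw [mul_smul, mul_smul]
      exact ha''
    · rw [mul_smul, mul_smul]
      exact hs''
    · rw [mul_smul, mul_smul, hc'', D.cnt_succ_of_split ((D.split_smul hu).2 hs),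
        D.cnt_smul hu, hc]

theorem exists_coded {x : X} {l : ℕ} (hx : D.Free x) (ha : x ∈ D.Act l) {n : ℕ}
    (hn : D.cnt x l ≤ n) :
    ∃ l', l ≤ l' ∧ ∃ v ∈ D.V l, D.Coded (v • x) l' ∧ D.cnt (v • x) l' = n := by
  obtain ⟨l', hl, v, hv, ha', hs, hc⟩ := D.exists_cnt hx ha hn
  obtain ⟨u, hu, huc⟩ := D.exists_out ha' hs
  refine ⟨l', hl, u * v, (D.V l).mul_mem (D.anti hl hu) hv, ?_, ?_⟩
  · rw [mul_smul]
    exact huc
  · rw [mul_smul, D.cnt_smul hu, hc]

/-- Both kinds of coded points occur near an active point. -/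
theorem both_values {x : X} {l : ℕ} (hx : D.Free x) (ha : x ∈ D.Act l) :
    (∃ v ∈ D.V l, v • x ∈ D.P) ∧
      ∃ v ∈ D.V l, ∃ l', D.Coded (v • x) l' ∧ v • x ∉ D.P := by
  have hle := D.cnt_le x l
  obtain ⟨l₁, hl₁, v₁, hv₁, hc₁, hn₁⟩ :=
    D.exists_coded hx ha (n := 2 * D.cnt x l) (by omega)
  obtain ⟨l₂, hl₂, v₂, hv₂, hc₂, hn₂⟩ :=
    D.exists_coded hx ha (n := 2 * D.cnt x l + 1) (by omega)
  have e : ∀ v ∈ D.V l, (v • x ∈ D.Ed (D.cnt x l) ↔ x ∈ D.Ed (D.cnt x l)) := fun v hv =>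
    D.inv_Ed _ (D.anti hle hv) x
  have h1 : v₁ • x ∈ D.P ↔ x ∈ D.Ed (D.cnt x l) := by
    rw [D.mem_P_of_coded hc₁, hn₁]
    have h3 : Even (2 * D.cnt x l) := even_two_mul _
    have h4 : 2 * D.cnt x l / 2 = D.cnt x l := by omega
    simp only [Bit, h3, if_true, h4]
    exact e v₁ hv₁
  have h2 : v₂ • x ∈ D.P ↔ x ∉ D.Ed (D.cnt x l) := by
    rw [D.mem_P_of_coded hc₂, hn₂]
    have h3 : ¬ Even (2 * D.cnt x l + 1) := by simp
    have h4 : (2 * D.cnt x l + 1) / 2 = D.cnt x l := by omega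
    simp only [Bit, h3, if_false, h4]
    exact not_congr (e v₂ hv₂)
  by_cases hE : x ∈ D.Ed (D.cnt x l)
  · exact ⟨⟨v₁, hv₁, h1.2 hE⟩, ⟨v₂, hv₂, l₂, hc₂, fun h => h2.1 h hE⟩⟩
  · exact ⟨⟨v₂, hv₂, h2.2 hE⟩, ⟨v₁, hv₁, l₁, hc₁, fun h => hE (h1.1 h)⟩⟩

/-! ### The coding sets -/

/-- The closed set which codes `x`. -/
def C (x : X) : Set G := {p | ∀ l, ∃ v ∈ D.V l, (p * v)⁻¹ • x ∈ D.P}

theorem mem_C_of_coded {x : X} {p : G} {l : ℕ} (h : D.Coded (p⁻¹ • x) l) :
    p ∈ D.C x ↔ p⁻¹ • x ∈ D.P := by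
  constructor
  · intro hp
    obtain ⟨v, hv, hvP⟩ := hp (l + 1)
    rw [mul_inv_rev, mul_smul] at hvP
    exact (D.smul_mem_P h ((D.V _).inv_mem hv)).1 hvP
  · intro hp l'
    exact ⟨1, (D.V l').one_mem, by simpa using hp⟩

theorem exists_coded_of_notMem_act {x : X} {l : ℕ} (h : x ∉ D.Act l) :
    ∃ l', l' < l ∧ D.Coded x l' := by
  induction l with
  | zero => exact absurd (mem_univ x) h
  | succ l ih =>
    by_cases h1 : x ∈ D.Act l
    · exact ⟨l, Nat.lt_succ_self l, h1, h⟩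
    · obtain ⟨l', hl', hc⟩ := ih h1
      exact ⟨l', hl'.trans (Nat.lt_succ_self l), hc⟩

/-- The active points can be read off the closed set. -/
theorem mem_act_iff {x : X} (hx : D.Free x) (p : G) (l : ℕ) :
    p⁻¹ • x ∈ D.Act l ↔ (∃ v ∈ D.V l, p * v ∈ D.C x) ∧ ∃ v ∈ D.V l, p * v ∉ D.C x := by
  constructor
  · intro ha
    obtain ⟨⟨v, hv, hvP⟩, ⟨w, hw, l', hwc, hwP⟩⟩ := D.both_values (D.free_smul hx p⁻¹) ha
    constructor
    · refine ⟨v⁻¹, (D.V l).inv_mem hv, fun l' => ⟨1, (D.V l').one_mem, ?_⟩⟩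
      rw [mul_one, mul_inv_rev, inv_inv, mul_smul]
      exact hvP
    · refine ⟨w⁻¹, (D.V l).inv_mem hw, fun hC => hwP ?_⟩
      have e : (p * w⁻¹)⁻¹ • x = w • p⁻¹ • x := by
        rw [mul_inv_rev, inv_inv, mul_smul]
      have h1 := (D.mem_C_of_coded (x := x) (p := p * w⁻¹) (l := l') (by rwa [e])).1 hC
      rwa [e] at h1
  · rintro ⟨⟨v, hv, hvC⟩, ⟨w, hw, hwC⟩⟩
    by_contra hcon
    obtain ⟨l', hl', hc⟩ := D.exists_coded_of_notMem_act hcon
    have key : ∀ u ∈ D.V l, (p * u ∈ D.C x ↔ p⁻¹ • x ∈ D.P) := by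
      intro u hu
      have hu' : u⁻¹ ∈ D.V (l' + 1) := (D.V _).inv_mem (D.anti hl' hu)
      have e : (p * u)⁻¹ • x = u⁻¹ • p⁻¹ • x := by rw [mul_inv_rev, mul_smul]
      rw [D.mem_C_of_coded (x := x) (p := p * u) (l := l')
        (by rw [e]; exact (D.coded_smul hu').2 hc), e, D.smul_mem_P hc hu']
    exact hwC ((key w hw).2 ((key v hv).1 hvC))

theorem split_iff {x : X} {l : ℕ} (ha : x ∈ D.Act l) :
    D.Split x l ↔ ∃ v ∈ D.V l, v • x ∉ D.Act (l + 1) := by
  constructor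
  · intro hs
    obtain ⟨u, hu, hc⟩ := D.exists_out ha hs
    exact ⟨u, hu, hc.2⟩
  · rintro ⟨v, hv, hva⟩
    have h1 : D.Coded (v • x) l := ⟨(D.act_smul hv).2 ha, hva⟩
    exact (D.split_smul hv).1 h1.split

theorem injective_aux {x y : X} (hx : D.Free x) (hy : D.Free y) (hxy : D.C x = D.C y) :
    (∀ (p : G) l, p⁻¹ • x ∈ D.Act l ↔ p⁻¹ • y ∈ D.Act l) ∧
    (∀ (p : G) l, p⁻¹ • x ∈ D.Act l → (D.Split (p⁻¹ • x) l ↔ D.Split (p⁻¹ • y) l)) ∧
    ∀ (p : G) l, p⁻¹ • x ∈ D.Act l → D.cnt (p⁻¹ • x) l = D.cnt (p⁻¹ • y) l := by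
  have hA : ∀ (p : G) l, p⁻¹ • x ∈ D.Act l ↔ p⁻¹ • y ∈ D.Act l := by
    intro p l
    rw [D.mem_act_iff hx, D.mem_act_iff hy, hxy]
  have hS : ∀ (p : G) l, p⁻¹ • x ∈ D.Act l →
      (D.Split (p⁻¹ • x) l ↔ D.Split (p⁻¹ • y) l) := by
    intro p l ha
    rw [D.split_iff ha, D.split_iff ((hA p l).1 ha)]
    refine exists_congr fun v => and_congr_right fun _ => not_congr ?_
    have h1 := hA (p * v⁻¹) (l + 1)
    simpa only [mul_inv_rev, inv_inv, mul_smul] using h1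
  refine ⟨hA, hS, fun p l ha => ?_⟩
  induction l with
  | zero => rfl
  | succ l ih =>
    have ha' : p⁻¹ • x ∈ D.Act l := D.act_anti (Nat.le_succ l) ha
    have h1 := hS p l ha'
    by_cases h2 : D.Split (p⁻¹ • x) l
    · rw [D.cnt_succ_of_split h2, D.cnt_succ_of_split (h1.1 h2), ih ha']
    · have h3 := mt h1.2 h2
      rw [D.cnt_eq_of_not_split (Nat.le_succ l) (fun i hi hi' => by
          have : i = l := by omega
          rwa [this]),
        D.cnt_eq_of_not_split (x := p⁻¹ • y) (Nat.le_succ l) (fun i hi hi' => by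
          have : i = l := by omega
          rwa [this]), ih ha']

/-- There is a branch of active nodes with infinitely many splittings. -/
theorem exists_branch {x : X} (hx : D.Free x)
    (hcomp : ∀ p : ℕ → G, (∀ n, (p n)⁻¹ * p (n + 1) ∈ D.V n) → ∃ q, ∀ n, (p n)⁻¹ * q ∈ D.V n) :
    ∃ q : G, ∀ n, ∃ l, q⁻¹ • x ∈ D.Act l ∧ n ≤ l ∧ n ≤ D.cnt (q⁻¹ • x) l := by
  have step : ∀ s : {s : G × ℕ // s.1⁻¹ • x ∈ D.Act s.2}, ∃ t : {s : G × ℕ // s.1⁻¹ • x ∈ D.Act s.2},
      s.1.2 < t.1.2 ∧ s.1.1⁻¹ * t.1.1 ∈ D.V s.1.2 ∧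
        D.cnt (t.1.1⁻¹ • x) t.1.2 = D.cnt (s.1.1⁻¹ • x) s.1.2 + 1 := by
    rintro ⟨⟨p, l⟩, ha⟩
    obtain ⟨l', hl, v, hv, ha', hs, hc⟩ := D.next_split (D.free_smul hx p⁻¹) ha
    obtain ⟨u, hu, hua⟩ := D.exists_in ha' hs
    have e : (p * (u * v)⁻¹)⁻¹ • x = u • v • p⁻¹ • x := by
      rw [mul_inv_rev, inv_inv, mul_smul, mul_smul]
    refine ⟨⟨(p * (u * v)⁻¹, l' + 1), ?_⟩, ?_, ?_, ?_⟩
    · show (p * (u * v)⁻¹)⁻¹ • x ∈ D.Act (l' + 1)
      rw [e]
      exact hua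
    · show l < l' + 1
      omega
    · show p⁻¹ * (p * (u * v)⁻¹) ∈ D.V l
      rw [inv_mul_cancel_left]
      exact (D.V l).inv_mem ((D.V l).mul_mem (D.anti hl hu) hv)
    · show D.cnt ((p * (u * v)⁻¹)⁻¹ • x) (l' + 1) = D.cnt (p⁻¹ • x) l + 1
      rw [e, D.cnt_succ_of_split ((D.split_smul hu).2 hs), D.cnt_smul hu, hc]
  choose nxt h1 h2 h3 using step
  let s : ℕ → {s : G × ℕ // s.1⁻¹ • x ∈ D.Act s.2} := fun n =>
    Nat.rec ⟨(1, 0), mem_univ _⟩ (fun _ t => nxt t) n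
  have hs1 : ∀ n, (s n).1.2 < (s (n + 1)).1.2 := fun n => h1 (s n)
  have hs2 : ∀ n, (s n).1.1⁻¹ * (s (n + 1)).1.1 ∈ D.V (s n).1.2 := fun n => h2 (s n)
  have hs3 : ∀ n, D.cnt ((s (n + 1)).1.1⁻¹ • x) (s (n + 1)).1.2 =
      D.cnt ((s n).1.1⁻¹ • x) (s n).1.2 + 1 := fun n => h3 (s n)
  have hl : ∀ n, n ≤ (s n).1.2 := by
    intro n
    induction n with
    | zero => exact Nat.zero_le _
    | succ n ih => exact Nat.succ_le_of_lt (lt_of_le_of_lt ih (hs1 n))
  have hmono : Monotone fun n => (s n).1.2 := monotone_nat_of_le_succ fun n => (hs1 n).le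
  have hc : ∀ n, n ≤ D.cnt ((s n).1.1⁻¹ • x) (s n).1.2 := by
    intro n
    induction n with
    | zero => exact Nat.zero_le _
    | succ n ih =>
      rw [hs3]
      omega
  obtain ⟨q, hq⟩ := hcomp (fun n => (s n).1.1) fun n => D.anti (hl n) (hs2 n)
  have hq' : ∀ n, (s n).1.1⁻¹ * q ∈ D.V (s n).1.2 := by
    intro n
    have h5 : ∀ k, n ≤ k → (s n).1.1⁻¹ * (s k).1.1 ∈ D.V (s n).1.2 := by
      intro k hk
      induction k, hk using Nat.le_induction with
      | base =>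
        rw [inv_mul_cancel]
        exact (D.V _).one_mem
      | succ k hk ih =>
        have h6 : (s n).1.1⁻¹ * (s (k + 1)).1.1 =
            ((s n).1.1⁻¹ * (s k).1.1) * ((s k).1.1⁻¹ * (s (k + 1)).1.1) := by group
        rw [h6]
        exact (D.V _).mul_mem ih (D.anti (hmono hk) (hs2 k))
    have h7 := h5 (max n (s n).1.2) (le_max_left _ _)
    have h8 := D.anti (le_max_right n (s n).1.2) (hq (max n (s n).1.2))
    have h9 : (s n).1.1⁻¹ * q = ((s n).1.1⁻¹ * (s (max n (s n).1.2)).1.1) *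
        ((s (max n (s n).1.2)).1.1⁻¹ * q) := by group
    rw [h9]
    exact (D.V _).mul_mem h7 h8
  refine ⟨q, fun n => ⟨(s n).1.2, ?_, hl n, ?_⟩⟩
  · have e : q⁻¹ • x = ((s n).1.1⁻¹ * q)⁻¹ • (s n).1.1⁻¹ • x := by
      rw [smul_smul]
      congr 1
      group
    rw [e, D.act_smul ((D.V _).inv_mem (hq' n))]
    exact (s n).2
  · have e : q⁻¹ • x = ((s n).1.1⁻¹ * q)⁻¹ • (s n).1.1⁻¹ • x := by
      rw [smul_smul]
      congr 1
      group
    rw [e, D.cnt_smul ((D.V _).inv_mem (hq' n))]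
    exact hc n

/-- **Injectivity of the coding.** -/
theorem injective {x y : X} (hx : D.Free x) (hy : D.Free y)
    (hcomp : ∀ p : ℕ → G, (∀ n, (p n)⁻¹ * p (n + 1) ∈ D.V n) → ∃ q, ∀ n, (p n)⁻¹ * q ∈ D.V n)
    (hxy : D.C x = D.C y) : x = y := by
  classical
  obtain ⟨hA, hS, hc⟩ := D.injective_aux hx hy hxy
  obtain ⟨q, hq⟩ := D.exists_branch hx hcomp
  have hqA : ∀ l, q⁻¹ • x ∈ D.Act l := by
    intro l
    obtain ⟨l', h1, h2, -⟩ := hq l
    exact D.act_anti h2 h1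
  have key : q⁻¹ • x = q⁻¹ • y := by
    apply D.sep_Ed
    intro j
    -- the level of the splitting number `2 * j`
    have hex : ∃ l, 2 * j < D.cnt (q⁻¹ • x) (l + 1) := by
      obtain ⟨l, -, -, h3⟩ := hq (2 * j + 1)
      cases l with
      | zero =>
        simp [cnt] at h3
      | succ l => exact ⟨l, h3⟩
    obtain ⟨l, hl, hmin⟩ : ∃ l, 2 * j < D.cnt (q⁻¹ • x) (l + 1) ∧ D.cnt (q⁻¹ • x) l ≤ 2 * j := by
      refine ⟨Nat.find hex, Nat.find_spec hex, ?_⟩
      cases hf : Nat.find hex with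
      | zero => exact Nat.zero_le _
      | succ l =>
        have := Nat.find_min hex (m := l) (by omega)
        omega
    have hsp : D.Split (q⁻¹ • x) l := by
      by_contra hcon
      have : D.cnt (q⁻¹ • x) (l + 1) = D.cnt (q⁻¹ • x) l :=
        D.cnt_eq_of_not_split (Nat.le_succ l) (fun i hi hi' => by
          have : i = l := by omega
          rwa [this])
      omega
    have hcn : D.cnt (q⁻¹ • x) l = 2 * j := by
      have := D.cnt_succ_of_split hsp
      omega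
    obtain ⟨u, hu, huc⟩ := D.exists_out (hqA l) hsp
    have ex : (q * u⁻¹)⁻¹ • x = u • q⁻¹ • x := by rw [mul_inv_rev, inv_inv, mul_smul]
    have ey : (q * u⁻¹)⁻¹ • y = u • q⁻¹ • y := by rw [mul_inv_rev, inv_inv, mul_smul]
    have hyc : D.Coded (u • q⁻¹ • y) l := by
      have h1 := hA (q * u⁻¹) l
      have h2 := hA (q * u⁻¹) (l + 1)
      rw [ex, ey] at h1 h2
      exact ⟨h1.1 huc.1, fun h => huc.2 (h2.2 h)⟩
    have hb : D.Bit (u • q⁻¹ • x) (2 * j) ↔ D.Bit (u • q⁻¹ • y) (2 * j) := by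
      have h1 := D.mem_C_of_coded (x := x) (p := q * u⁻¹) (l := l) (by rw [ex]; exact huc)
      have h2 := D.mem_C_of_coded (x := y) (p := q * u⁻¹) (l := l) (by rw [ey]; exact hyc)
      rw [ex, D.mem_P_of_coded huc, D.cnt_smul hu, hcn] at h1
      rw [ey, D.mem_P_of_coded hyc, D.cnt_smul hu, ← hc q l (hqA l), hcn] at h2
      rw [← h1, ← h2, hxy]
    have h3 : Even (2 * j) := even_two_mul _
    have h4 : 2 * j / 2 = j := by omega
    simp only [Bit, h3, if_true, h4] at hb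
    have hjl : j ≤ l := by
      have := D.cnt_le (q⁻¹ • x) l
      omega
    rw [D.inv_Ed j (D.anti hjl hu), D.inv_Ed j (D.anti hjl hu)] at hb
    exact hb
  exact smul_left_cancel _ key

end Data

end abstract_part

end NA

end Pool.Agent.PathAct
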