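import Pool.Agent.PathAct.NonArchTop

/-! Borel actions of non-archimedean Polish groups with a complete left uniformity: the points with
non-open stabilizers embed equivariantly into the closed subsets of the group. -/

set_option autoImplicit false
set_option linter.unusedSectionVars false

open Topology Set TopologicalSpace

namespace Pool.Agent.PathAct

open Pool.Agent.LeftAct

universe u v w

namespace NA

variable {H : Type w} [Group H] [TopologicalSpace H] [NonarchimedeanGroup H] [PolishSpace H]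
  [MeasurableSpace H] [BorelSpace H] {X : Type v} [MeasurableSpace X] [StandardBorelSpace X]
  [MulAction H X]

theorem exists_data (hact : Measurable fun p : H × X => p.1 • p.2) :
    ∃ D : Data H X, (∀ n, IsOpen (D.V n : Set H)) ∧
      (∀ U ∈ 𝓝 (1 : H), ∃ n, (D.V n : Set H) ⊆ U) ∧ ∀ k, MeasurableSet (D.E k) := by
  obtain ⟨V, ho, ha, hb⟩ := exists_subgroup_basis (H := H)
  obtain ⟨B, F, -, -, hFc, hFe, hFm, hFinj, -⟩ := exists_coding (fun (g : H) (x : X) => g • x)
    (fun x => one_smul H x) (fun g h x => mul_smul g h x) hact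
  let c : ℕ → H := denseSeq H
  have hc : DenseRange c := denseRange_denseSeq H
  choose m hm using fun k : ℕ => exists_conj ho hb (c (Nat.unpair (Nat.unpair k).2).1)⁻¹
    (Nat.unpair (Nat.unpair k).2).2
  let U : ℕ → Set H := fun k =>
    {z | (c (Nat.unpair (Nat.unpair k).2).1)⁻¹ * z ∈ V (Nat.unpair (Nat.unpair k).2).2}
  have hU : ∀ k, IsOpen (U k) := fun k =>
    (ho (Nat.unpair (Nat.unpair k).2).2).preimage (continuous_const_mul _)
  have hUv : ∀ k, ∀ v ∈ V (m k), ∀ z, v * z ∈ U k ↔ z ∈ U k := by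
    intro k v hv z
    have h1 := hm k v hv
    rw [inv_inv] at h1
    show (c (Nat.unpair (Nat.unpair k).2).1)⁻¹ * (v * z) ∈ V (Nat.unpair (Nat.unpair k).2).2 ↔
      (c (Nat.unpair (Nat.unpair k).2).1)⁻¹ * z ∈ V (Nat.unpair (Nat.unpair k).2).2
    have h2 : (c (Nat.unpair (Nat.unpair k).2).1)⁻¹ * (v * z) =
        ((c (Nat.unpair (Nat.unpair k).2).1)⁻¹ * v * c (Nat.unpair (Nat.unpair k).2).1) *
          ((c (Nat.unpair (Nat.unpair k).2).1)⁻¹ * z) := by group
    rw [h2]
    exact Subgroup.mul_mem_cancel_left _ h1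
  refine ⟨⟨V, ha, exists_conj ho hb, fun k => {x | (F x (Nat.unpair k).1 ∩ U k).Nonempty}, m,
    ?_, ?_⟩, ho, hb, fun k => hFm _ _ (hU k)⟩
  · intro k v hv x
    show (F (v • x) (Nat.unpair k).1 ∩ U k).Nonempty ↔ (F x (Nat.unpair k).1 ∩ U k).Nonempty
    rw [hFe]
    constructor
    · rintro ⟨_, ⟨z, hz, rfl⟩, hzU⟩
      exact ⟨z, hz, (hUv k v hv z).1 hzU⟩
    · rintro ⟨z, hz, hzU⟩
      exact ⟨v * z, ⟨z, hz, rfl⟩, (hUv k v hv z).2 hzU⟩
  · intro x y hxy
    have hsub : ∀ x y : X, (∀ k, (F x (Nat.unpair k).1 ∩ U k).Nonempty ↔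
        (F y (Nat.unpair k).1 ∩ U k).Nonempty) → ∀ n, F x n ⊆ F y n := by
      intro x y hxy n z hz
      rw [← (hFc y n).closure_eq, mem_closure_iff_nhds]
      intro W hW
      have h1 : (fun w => z * w) ⁻¹' W ∈ 𝓝 (1 : H) := by
        refine (continuous_const_mul z).continuousAt.preimage_mem_nhds ?_
        rwa [mul_one]
      obtain ⟨l, hl⟩ := hb _ h1
      have h2 : IsOpen {w : H | z⁻¹ * w ∈ V l} := (ho l).preimage (continuous_const_mul _)
      obtain ⟨w, hw, i, rfl⟩ : ∃ w, w ∈ {w : H | z⁻¹ * w ∈ V l} ∧ w ∈ range c := by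
        obtain ⟨w, hw, hw'⟩ := hc.inter_open_nonempty _ h2 ⟨z, by
          show z⁻¹ * z ∈ V l
          rw [inv_mul_cancel]
          exact (V l).one_mem⟩
        exact ⟨w, hw, hw'⟩
      have hw' : z⁻¹ * c i ∈ V l := hw
      have h3 := hxy (Nat.pair n (Nat.pair i l))
      have hUk : U (Nat.pair n (Nat.pair i l)) = {u | (c i)⁻¹ * u ∈ V l} := by
        show {z | (c (Nat.unpair (Nat.unpair (Nat.pair n (Nat.pair i l))).2).1)⁻¹ * z ∈
          V (Nat.unpair (Nat.unpair (Nat.pair n (Nat.pair i l))).2).2} = _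
        simp only [Nat.unpair_pair]
      rw [hUk, Nat.unpair_pair] at h3
      obtain ⟨u, hu, hu'⟩ := h3.1 ⟨z, hz, by
        show (c i)⁻¹ * z ∈ V l
        have : (c i)⁻¹ * z = (z⁻¹ * c i)⁻¹ := by group
        rw [this]
        exact (V l).inv_mem hw'⟩
      refine ⟨u, ?_, hu⟩
      have h4 : z⁻¹ * u ∈ V l := by
        have : z⁻¹ * u = (z⁻¹ * c i) * ((c i)⁻¹ * u) := by group
        rw [this]
        exact (V l).mul_mem hw' hu'
      have h5 : z * (z⁻¹ * u) ∈ W := hl h4
      rwa [mul_inv_cancel_left] at h5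
    apply hFinj
    funext n
    exact Subset.antisymm (hsub x y hxy n) (hsub y x (fun k => (hxy k).symm) n)

/-- **The coding theorem.** -/
theorem exists_free_coding
    (hcomp : @CompleteSpace H (IsTopologicalGroup.leftUniformSpace H))
    (hact : Measurable fun p : H × X => p.1 • p.2) :
    ∃ f : X → Closeds H, @Measurable X (Closeds H) _ (effros H) f ∧
      (∀ (g : H) x, f (g • x) = translate g (f x)) ∧
      (∀ x, ¬ IsOpen {g : H | g • x = x} → ∀ y, f x = f y → x = y) ∧
      ∀ x, ¬ IsOpen {g : H | g • x = x} → (interior (f x : Set H)).Nonempty := by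
  obtain ⟨D, ho, hb, hE⟩ := exists_data (H := H) (X := X) hact
  obtain ⟨C, hCc, hC⟩ := exists_countable_dense H
  have hP := measurableSet_P hact ho hE
  let O : X → Set H := fun x => {p | p⁻¹ • x ∈ D.P}
  have hO : ∀ x, IsOpen (O x) := by
    intro x
    rw [isOpen_iff_mem_nhds]
    intro p hp
    obtain ⟨l, hc, hbit⟩ : p⁻¹ • x ∈ D.P := hp
    have h1 : IsOpen {q : H | p⁻¹ * q ∈ D.V (l + 1)} :=
      (ho (l + 1)).preimage (continuous_const_mul _)
    refine Filter.mem_of_superset (h1.mem_nhds (by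
      show p⁻¹ * p ∈ D.V (l + 1)
      rw [inv_mul_cancel]
      exact (D.V _).one_mem)) ?_
    intro q hq
    have hq' : p⁻¹ * q ∈ D.V (l + 1) := hq
    have e : q⁻¹ • x = (p⁻¹ * q)⁻¹ • p⁻¹ • x := by
      rw [smul_smul]
      congr 1
      group
    show q⁻¹ • x ∈ D.P
    rw [e, D.smul_mem_P hc ((D.V _).inv_mem hq')]
    exact ⟨l, hc, hbit⟩
  have hcl : ∀ x, closure (O x) = D.C x := by
    intro x
    ext p
    constructor
    · intro hp l
      have h1 : IsOpen {q : H | p⁻¹ * q ∈ D.V l} := (ho l).preimage (continuous_const_mul _)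
      obtain ⟨q, hq, hqO⟩ := mem_closure_iff.1 hp _ h1 (by
        show p⁻¹ * p ∈ D.V l
        rw [inv_mul_cancel]
        exact (D.V _).one_mem)
      refine ⟨p⁻¹ * q, hq, ?_⟩
      rw [mul_inv_cancel_left]
      exact hqO
    · intro hp
      rw [mem_closure_iff_nhds]
      intro W hW
      have h1 : (fun w => p * w) ⁻¹' W ∈ 𝓝 (1 : H) := by
        refine (continuous_const_mul p).continuousAt.preimage_mem_nhds ?_
        rwa [mul_one]
      obtain ⟨l, hl⟩ := hb _ h1
      obtain ⟨v, hv, hvP⟩ := hp l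
      exact ⟨p * v, hl hv, hvP⟩
  have hfree : ∀ x, ¬ IsOpen {g : H | g • x = x} → D.Free x := by
    intro x hx l
    by_contra hcon
    push Not at hcon
    apply hx
    have h1 : IsOpen ((MulAction.stabilizer H x : Subgroup H) : Set H) := by
      refine Subgroup.isOpen_mono (H₁ := D.V l) ?_ (ho l)
      intro v hv
      exact hcon v hv
    exact h1
  let f : X → Closeds H := fun x => ⟨closure (O x), isClosed_closure⟩
  have hfe : ∀ (g : H) x, f (g • x) = translate g (f x) := by
    intro g x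
    apply Closeds.ext
    show closure (O (g • x)) = (fun h => g * h) '' closure (O x)
    have h1 : O (g • x) = (fun h => g * h) '' O x := by
      ext p
      constructor
      · intro hp
        refine ⟨g⁻¹ * p, ?_, by simp⟩
        show (g⁻¹ * p)⁻¹ • x ∈ D.P
        have hp' : p⁻¹ • g • x ∈ D.P := hp
        rwa [mul_inv_rev, inv_inv, mul_smul]
      · rintro ⟨q, hq, rfl⟩
        have hq' : q⁻¹ • x ∈ D.P := hq
        show (g * q)⁻¹ • g • x ∈ D.P
        rw [mul_inv_rev, mul_smul, inv_smul_smul]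
        exact hq'
    rw [h1]
    exact ((Homeomorph.mulLeft g).image_closure (O x)).symm
  have hfi : ∀ x y, D.Free x → D.Free y → f x = f y → x = y := by
    intro x y hx hy hxy
    have h1 : closure (O x) = closure (O y) := congrArg (fun F : Closeds H => (F : Set H)) hxy
    rw [hcl, hcl] at h1
    exact D.injective hx hy (exists_limit ho D.anti hb hcomp) h1
  refine ⟨f, ?_, hfe, ?_, ?_⟩
  · refine @measurable_generateFrom _ _ _ _ _ ?_
    rintro _ ⟨U, hU, rfl⟩
    have h1 : f ⁻¹' {F : Closeds H | ((F : Set H) ∩ U).Nonempty} =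
        ⋃ c ∈ C ∩ U, {x | c⁻¹ • x ∈ D.P} := by
      ext x
      show (closure (O x) ∩ U).Nonempty ↔ _
      rw [closure_inter_open_nonempty_iff hU]
      simp only [mem_iUnion, exists_prop, mem_ofPred_eq]
      constructor
      · intro h
        obtain ⟨c, hcU, hcC⟩ := hC.inter_open_nonempty _ ((hO x).inter hU) h
        exact ⟨c, ⟨hcC, hcU.2⟩, hcU.1⟩
      · rintro ⟨c, hc, hcP⟩
        exact ⟨c, hcP, hc.2⟩
    rw [h1]
    exact MeasurableSet.biUnion (hCc.mono inter_subset_left) fun c _ =>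
      (measurable_smul_const hact c⁻¹) hP
  · intro x hx y hxy
    have hxf := hfree x hx
    by_cases hy : D.Free y
    · exact hfi x y hxf hy hxy
    · exfalso
      unfold Data.Free at hy
      push Not at hy
      obtain ⟨l, hl⟩ := hy
      obtain ⟨v, hv, hvx⟩ := hxf l
      apply hvx
      refine hfi _ _ (D.free_smul hxf v) hxf ?_
      rw [hfe, hxy, ← hfe, hl v hv]
  · intro x hx
    have hxf := hfree x hx
    obtain ⟨⟨v, -, hvP⟩, -⟩ := D.both_values (l := 0) hxf (mem_univ x)
    refine ⟨v⁻¹, interior_maximal subset_closure (hO x) ?_⟩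
    show (v⁻¹)⁻¹ • x ∈ D.P
    rw [inv_inv]
    exact hvP

end NA

end Pool.Agent.PathAct
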