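import Pool.Agent.PathAct.NonArch
import Mathlib.Topology.Algebra.Nonarchimedean.Basic

/-! Borel actions of non-archimedean Polish groups with a complete left uniformity: the
topological part. -/

set_option autoImplicit false
set_option linter.unusedSectionVars false

open Topology Set TopologicalSpace

namespace Pool.Agent.PathAct

open Pool.Agent.LeftAct

universe u v w

namespace NA

section basics

variable {H : Type w} [Group H] [TopologicalSpace H] [NonarchimedeanGroup H]
  [SecondCountableTopology H]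

/-- A decreasing basis of neighbourhoods of the identity which consists of open subgroups. -/
theorem exists_subgroup_basis : ∃ V : ℕ → Subgroup H, (∀ n, IsOpen (V n : Set H)) ∧ Antitone V ∧
    ∀ U ∈ 𝓝 (1 : H), ∃ n, (V n : Set H) ⊆ U := by
  obtain ⟨B, hB⟩ := (𝓝 (1 : H)).exists_antitone_basis
  choose W hW using fun n => NonarchimedeanGroup.is_nonarchimedean (B n) (hB.1.mem_of_mem trivial)
  have key : ∀ n : ℕ, IsOpen ((⨅ k ∈ Finset.range (n + 1), (W k : Subgroup H) : Subgroup H) :
      Set H) := by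
    intro n
    have h1 : ((⨅ k ∈ Finset.range (n + 1), (W k : Subgroup H) : Subgroup H) : Set H) =
        ⋂ k ∈ Finset.range (n + 1), (W k : Set H) := by
      simp [Subgroup.coe_iInf]
    rw [h1]
    exact isOpen_biInter_finset fun k _ => (W k).isOpen
  refine ⟨fun n => ⨅ k ∈ Finset.range (n + 1), (W k : Subgroup H), key, ?_, ?_⟩
  · intro n m hnm
    refine le_iInf₂ fun k hk => iInf₂_le k ?_
    rw [Finset.mem_range] at hk ⊢
    omega
  · intro U hU
    obtain ⟨n, -, hn⟩ := hB.1.mem_iff.1 hU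
    refine ⟨n, fun x hx => hn (hW n ?_)⟩
    have h1 : (⨅ k ∈ Finset.range (n + 1), (W k : Subgroup H)) ≤ (W n : Subgroup H) :=
      iInf₂_le n (Finset.mem_range.2 (Nat.lt_succ_self n))
    exact h1 hx

theorem exists_conj {V : ℕ → Subgroup H} (ho : ∀ n, IsOpen (V n : Set H))
    (hb : ∀ U ∈ 𝓝 (1 : H), ∃ n, (V n : Set H) ⊆ U) (g : H) (l : ℕ) :
    ∃ l', ∀ v ∈ V l', g * v * g⁻¹ ∈ V l := by
  have h1 : Continuous fun v : H => g * v * g⁻¹ := by fun_prop
  have h2 : (fun v : H => g * v * g⁻¹) ⁻¹' (V l : Set H) ∈ 𝓝 (1 : H) := by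
    refine ((ho l).preimage h1).mem_nhds ?_
    show g * 1 * g⁻¹ ∈ V l
    simp [(V l).one_mem]
  obtain ⟨l', hl'⟩ := hb _ h2
  exact ⟨l', fun v hv => hl' hv⟩

theorem exists_limit {V : ℕ → Subgroup H} (ho : ∀ n, IsOpen (V n : Set H)) (ha : Antitone V)
    (hb : ∀ U ∈ 𝓝 (1 : H), ∃ n, (V n : Set H) ⊆ U)
    (hcomp : @CompleteSpace H (IsTopologicalGroup.leftUniformSpace H))
    (p : ℕ → H) (hp : ∀ n, (p n)⁻¹ * p (n + 1) ∈ V n) : ∃ q, ∀ n, (p n)⁻¹ * q ∈ V n := by
  let _ : UniformSpace H := IsTopologicalGroup.leftUniformSpace H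
  have h1 : ∀ n k, n ≤ k → (p n)⁻¹ * p k ∈ V n := by
    intro n k hk
    induction k, hk using Nat.le_induction with
    | base =>
      rw [inv_mul_cancel]
      exact (V n).one_mem
    | succ k hk ih =>
      have h6 : (p n)⁻¹ * p (k + 1) = ((p n)⁻¹ * p k) * ((p k)⁻¹ * p (k + 1)) := by group
      rw [h6]
      exact (V n).mul_mem ih (ha hk (hp k))
  have h2 : CauchySeq p := by
    rw [cauchySeq_iff]
    intro S hS
    rw [show uniformity H = Filter.comap (fun p : H × H => p.1⁻¹ * p.2) (𝓝 (1 : H)) from rfl] at hS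
    obtain ⟨U, hU, hUS⟩ := Filter.mem_comap.1 hS
    obtain ⟨n, hn⟩ := hb U hU
    refine ⟨n, fun i hi j hj => hUS ?_⟩
    show (p i)⁻¹ * p j ∈ U
    apply hn
    have h6 : (p i)⁻¹ * p j = ((p n)⁻¹ * p i)⁻¹ * ((p n)⁻¹ * p j) := by group
    rw [h6]
    exact (V n).mul_mem ((V n).inv_mem (h1 n i hi)) (h1 n j hj)
  obtain ⟨q, hq⟩ := cauchySeq_tendsto_of_complete h2
  refine ⟨q, fun n => ?_⟩
  have h3 : IsClosed (V n : Set H) := (V n).isClosed_of_isOpen (ho n)
  have h4 : Filter.Tendsto (fun k => (p n)⁻¹ * p k) Filter.atTop (𝓝 ((p n)⁻¹ * q)) :=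
    hq.const_mul _
  refine h3.mem_of_tendsto h4 ?_
  filter_upwards [Filter.eventually_ge_atTop n] with k hk
  exact h1 n k hk

end basics

section measurable

variable {H : Type w} [Group H] [TopologicalSpace H] [IsTopologicalGroup H]
  [SecondCountableTopology H] [MeasurableSpace H] [BorelSpace H] {X : Type v} [MeasurableSpace X]
  [MulAction H X] (D : Data H X)

theorem measurable_smul_const (hact : Measurable fun p : H × X => p.1 • p.2) (g : H) :
    Measurable fun x : X => g • x := hact.comp measurable_prodMk_left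

/-- A property of group elements which is invariant under an open subgroup holds on an open
subgroup as soon as it holds on a dense subset of it. -/
theorem forall_iff_dense {C : Set H} (hC : Dense C) {V W : Subgroup H}
    (hV : IsOpen (V : Set H)) (hW : IsOpen (W : Set H)) {Q : H → Prop}
    (hQ : ∀ v, ∀ u ∈ W, Q (u * v) → Q v) : (∀ v ∈ V, Q v) ↔ ∀ v ∈ C ∩ V, Q v := by
  constructor
  · intro h v hv
    exact h v hv.2
  · intro h v hv
    have h1 : IsOpen ((V : Set H) ∩ (fun z => z * v⁻¹) ⁻¹' (W : Set H)) :=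
      hV.inter (hW.preimage (continuous_mul_const _))
    have h2 : ((V : Set H) ∩ (fun z => z * v⁻¹) ⁻¹' (W : Set H)).Nonempty :=
      ⟨v, hv, by
        show v * v⁻¹ ∈ W
        rw [mul_inv_cancel]
        exact W.one_mem⟩
    obtain ⟨c, hc, hcC⟩ := hC.inter_open_nonempty _ h1 h2
    refine hQ v (c * v⁻¹) hc.2 ?_
    rw [inv_mul_cancel_right]
    exact h c ⟨hcC, hc.1⟩

variable {D}

theorem measurableSet_cst (hact : Measurable fun p : H × X => p.1 • p.2)
    (ho : ∀ n, IsOpen (D.V n : Set H)) (hE : ∀ k, MeasurableSet (D.E k)) (l k : ℕ) :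
    MeasurableSet {x | D.Cst x l k} := by
  obtain ⟨C, hCc, hC⟩ := exists_countable_dense H
  have h1 : {x | D.Cst x l k} = ⋂ v ∈ C ∩ D.V l, {x | v • x ∈ D.E k ↔ x ∈ D.E k} := by
    ext x
    simp only [mem_iInter, mem_ofPred_eq]
    refine forall_iff_dense hC (ho l) (ho (D.m k)) (Q := fun v => (v • x ∈ D.E k ↔ x ∈ D.E k)) ?_
    intro v u hu h
    rw [mul_smul, D.inv k u hu] at h
    exact h
  rw [h1]
  refine MeasurableSet.biInter (hCc.mono inter_subset_left) fun v _ => ?_
  have h2 : MeasurableSet {x | v • x ∈ D.E k} := (measurable_smul_const hact v) (hE k)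
  have h3 : {x | v • x ∈ D.E k ↔ x ∈ D.E k} =
      ({x | v • x ∈ D.E k} ∩ D.E k) ∪ ({x | v • x ∈ D.E k}ᶜ ∩ (D.E k)ᶜ) := by
    ext x
    simp only [mem_ofPred_eq, mem_union, mem_inter_iff, mem_compl_iff]
    tauto
  rw [h3]
  exact (h2.inter (hE k)).union (h2.compl.inter (hE k).compl)

theorem measurableSet_sp (hact : Measurable fun p : H × X => p.1 • p.2)
    (ho : ∀ n, IsOpen (D.V n : Set H)) (hE : ∀ k, MeasurableSet (D.E k)) (l k : ℕ) :
    MeasurableSet {x | D.Sp x l k} := by
  obtain ⟨C, hCc, hC⟩ := exists_countable_dense H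
  have h1 : {x | D.Sp x l k} = (⋂ v ∈ C ∩ D.V l, {x | D.Cst (v • x) (l + 1) k}) ∩
      {x | D.Cst x l k}ᶜ := by
    ext x
    simp only [mem_iInter, mem_ofPred_eq, mem_inter_iff, mem_compl_iff]
    refine and_congr_left fun _ => ?_
    refine forall_iff_dense hC (ho l) (ho (l + 1)) (Q := fun v => D.Cst (v • x) (l + 1) k) ?_
    intro v u hu h
    rw [mul_smul] at h
    exact (D.cst_smul hu).1 h
  rw [h1]
  refine MeasurableSet.inter ?_ (measurableSet_cst hact ho hE l k).compl
  refine MeasurableSet.biInter (hCc.mono inter_subset_left) fun v _ => ?_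
  exact (measurable_smul_const hact v) (measurableSet_cst hact ho hE (l + 1) k)

theorem measurableSet_split (hact : Measurable fun p : H × X => p.1 • p.2)
    (ho : ∀ n, IsOpen (D.V n : Set H)) (hE : ∀ k, MeasurableSet (D.E k)) (l : ℕ) :
    MeasurableSet {x | D.Split x l} := by
  have h1 : {x | D.Split x l} = ⋃ k, {x | D.Sp x l k} := by
    ext x
    simp [Data.Split]
  rw [h1]
  exact MeasurableSet.iUnion fun k => measurableSet_sp hact ho hE l k

theorem measurableSet_act (hact : Measurable fun p : H × X => p.1 • p.2)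
    (ho : ∀ n, IsOpen (D.V n : Set H)) (hE : ∀ k, MeasurableSet (D.E k)) (l : ℕ) :
    MeasurableSet (D.Act l) := by
  induction l with
  | zero => exact MeasurableSet.univ
  | succ l ih =>
    have h1 : D.Act (l + 1) = D.Act l ∩ ⋂ k, {x | (D.Sp x l k ∧ ∀ k' < k, ¬ D.Sp x l k') →
        x ∈ D.E k} := by
      ext x
      rw [D.mem_act_succ]
      simp only [mem_inter_iff, mem_iInter, mem_ofPred_eq]
      refine and_congr_right fun _ => ?_
      constructor
      · rintro h k ⟨hk, hk'⟩
        have h2 : D.kap x l = k := by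
          refine le_antisymm (Nat.sInf_le hk) ?_
          by_contra hcon
          push Not at hcon
          exact hk' _ hcon (D.sp_kap ⟨k, hk⟩)
        rw [← h2]
        exact h ⟨k, hk⟩
      · intro h hs
        exact h _ ⟨D.sp_kap hs, fun k' hk' hsp =>
          absurd (Nat.sInf_le (s := {k | D.Sp x l k}) hsp) (not_le.2 hk')⟩
    rw [h1]
    refine ih.inter (MeasurableSet.iInter fun k => ?_)
    have h2 : {x | (D.Sp x l k ∧ ∀ k' < k, ¬ D.Sp x l k') → x ∈ D.E k} =
        ({x | D.Sp x l k} ∩ ⋂ k' ∈ {k' | k' < k}, {x | D.Sp x l k'}ᶜ)ᶜ ∪ D.E k := by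
      ext x
      simp only [mem_ofPred_eq, mem_union, mem_compl_iff, mem_inter_iff, mem_iInter]
      tauto
    rw [h2]
    refine ((measurableSet_sp hact ho hE l k).inter ?_).compl.union (hE k)
    exact MeasurableSet.biInter (to_countable _) fun k' _ =>
      (measurableSet_sp hact ho hE l k').compl

theorem measurableSet_cnt (hact : Measurable fun p : H × X => p.1 • p.2)
    (ho : ∀ n, IsOpen (D.V n : Set H)) (hE : ∀ k, MeasurableSet (D.E k)) (l n : ℕ) :
    MeasurableSet {x | D.cnt x l = n} := by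
  induction l generalizing n with
  | zero =>
    show MeasurableSet {_x : X | 0 = n}
    exact MeasurableSet.const _
  | succ l ih =>
    have h1 : {x | D.cnt x (l + 1) = n} =
        ({x | D.Split x l} ∩ ⋃ m, ({x | D.cnt x l = m} ∩ {_x | m + 1 = n})) ∪
        ({x | D.Split x l}ᶜ ∩ {x | D.cnt x l = n}) := by
      ext x
      by_cases hs : D.Split x l
      · simp [Data.cnt, hs]
      · simp [Data.cnt, hs]
    rw [h1]
    refine ((measurableSet_split hact ho hE l).inter (MeasurableSet.iUnion fun m =>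
      (ih m).inter (MeasurableSet.const _))).union
      ((measurableSet_split hact ho hE l).compl.inter (ih n))

theorem measurableSet_bit (hE : ∀ k, MeasurableSet (D.E k)) (t : ℕ) :
    MeasurableSet {x | D.Bit x t} := by
  have h1 : ∀ j, MeasurableSet (D.Ed j) := fun j =>
    (MeasurableSet.const (D.m (Nat.unpair j).1 ≤ j)).inter (hE _)
  by_cases ht : Even t
  · simp only [Data.Bit, ht, if_true]
    exact h1 _
  · simp only [Data.Bit, ht, if_false]
    exact (h1 _).compl

theorem measurableSet_P (hact : Measurable fun p : H × X => p.1 • p.2)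
    (ho : ∀ n, IsOpen (D.V n : Set H)) (hE : ∀ k, MeasurableSet (D.E k)) :
    MeasurableSet D.P := by
  have h1 : D.P = ⋃ l, ⋃ n, (D.Act l ∩ (D.Act (l + 1))ᶜ ∩ ({x | D.cnt x l = n} ∩
      {x | D.Bit x n})) := by
    ext x
    simp only [mem_iUnion, mem_inter_iff, mem_compl_iff, mem_ofPred_eq]
    constructor
    · rintro ⟨l, hc, hb⟩
      exact ⟨l, _, hc, rfl, hb⟩
    · rintro ⟨l, n, hc, rfl, hb⟩
      exact ⟨l, hc, hb⟩
  rw [h1]
  refine MeasurableSet.iUnion fun l => MeasurableSet.iUnion fun n => ?_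
  exact ((measurableSet_act hact ho hE l).inter (measurableSet_act hact ho hE (l + 1)).compl).inter
    ((measurableSet_cnt hact ho hE l n).inter (measurableSet_bit hE n))

end measurable

end NA

end Pool.Agent.PathAct
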