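import Pool.Agent.PathAct.Final
import Pool.Agent.PathAct.Invariants2

/-! Universality of the left action on closed subsets: a relative version for one Borel space. -/

set_option autoImplicit false
set_option linter.unusedSectionVars false

open Topology Set TopologicalSpace

namespace Pool.Agent.PathAct

open Pool.Agent.LeftAct

universe u v w

/-- The coding of the orbits of a Borel action of a group `H` by closed subsets of a group `G`. -/
theorem exists_relative_coding {G : Type u} [Group G] [TopologicalSpace G] [IsTopologicalGroup G]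
    [PolishSpace G] [MeasurableSpace G] [BorelSpace G]
    {H : Type w} [Group H] [TopologicalSpace H] [IsTopologicalGroup H]
    [T2Space H] [SecondCountableTopology H] [MeasurableSpace H] [BorelSpace H] {X : Type v} [MeasurableSpace X]
    [StandardBorelSpace X] [MulAction H X] (hact : Measurable fun p : H × X => p.1 • p.2)
    (N : Subgroup H) (L : Subgroup G) [N.Normal]
    (hN : IsCompact (N : Set H)) (hL : IsClosed (L : Set G)) (hidx : L.index = 0)
    (hNL : (N : Set H).Finite ∨ ¬ IsOpen (L : Set G)) (φ : L →* H) (hφ : Continuous φ)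
    (hs : ∀ (g : H) (x : X), ∃ l : L, ∃ n ∈ N, g • x = (φ l * n) • x) :
    ∃ f : X → Closeds G, @Measurable X (Closeds G) _ (effros G) f ∧ Function.Injective f ∧
      (∀ x y, (∃ g : H, g • y = x) ↔ ∃ g : G, translate g (f y) = f x) ∧
      (¬ IsOpen (L : Set G) → ∀ x, interior (f x : Set G) = ∅) ∧
      ∀ x, ∃ j : G, ∀ l : L, φ l • x = x → translate (j * l * j⁻¹) (f x) = f x := by
  obtain ⟨A, hA, hAN, hAsep⟩ := exists_invariants' hact N hN
  obtain ⟨c, hcH, hcc, hLF, hR⟩ := exists_good_seq L hL hidx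
  -- the family of translations
  obtain ⟨j, hj, hj1, hj2⟩ : ∃ j : X → G, Measurable j ∧
      (∀ x y, (j x)⁻¹ * j y ∈ L → j x = j y) ∧
      ∀ x y, j x = j y → (∃ n ∈ N, n • x = y) → x = y := by
    rcases hNL with hfin | ho
    · obtain ⟨i, hi, hi2⟩ := exists_index' hact N hfin
      have hd : ∀ n m, (c n) * (c m)⁻¹ ∈ L → n = m := by
        intro n m h
        by_contra hnm
        exact hcc n m hnm h
      refine ⟨fun x => (c (i x))⁻¹, (measurable_from_nat (f := fun n => (c n)⁻¹)).comp hi, ?_, ?_⟩
      · intro x y h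
        have h1 : c (i x) * (c (i y))⁻¹ ∈ L := by simpa using h
        show (c (i x))⁻¹ = (c (i y))⁻¹
        rw [hd _ _ h1]
      · intro x y h hxy
        have h' : (c (i x))⁻¹ = (c (i y))⁻¹ := h
        refine hi2 x y (hd _ _ ?_) hxy
        rw [← h', mul_inv_cancel]
        exact L.one_mem
    · obtain ⟨q, hq, hq2⟩ := exists_cantor L hL ho
      obtain ⟨ι, hι, ιinj⟩ :=
        MeasurableSpace.measurable_injection_nat_bool_of_countablySeparated X
      have h0 : ∀ x y, (q (ι x))⁻¹ * q (ι y) ∈ L → x = y := by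
        intro x y h
        by_contra hxy
        exact hq2 _ _ (fun h' => hxy (ιinj h')) h
      refine ⟨fun x => q (ι x), hq.comp hι, ?_, ?_⟩
      · intro x y h
        show q (ι x) = q (ι y)
        rw [h0 x y h]
      · intro x y h _
        have h' : q (ι x) = q (ι y) := h
        refine h0 x y ?_
        rw [← h', inv_mul_cancel]
        exact L.one_mem
  -- the coding of the action of `L`
  have : PolishSpace L := hL.polishSpace
  have hactL : Measurable fun p : L × X => φ p.1 • p.2 :=
    hact.comp ((hφ.measurable.comp measurable_fst).prodMk measurable_snd)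
  obtain ⟨F, hFc, hFe, hFm, hF1, hF2⟩ := exists_closed_coding (fun (l : L) (x : X) => φ l • x)
    (fun g h x => by rw [map_mul, mul_smul]) hactL A hA
  -- the pieces
  let P : X → ℕ → Set G := fun x k =>
    if Even k then (L : Set G) else Subtype.val '' F x (k / 2)
  have hPe : ∀ x k, Even k → P x k = L := fun x k hk => by simp [P, hk]
  have hPo : ∀ x k, ¬ Even k → P x k = Subtype.val '' F x (k / 2) := fun x k hk => by
    simp [P, hk]
  have hPH : ∀ x k, P x k ⊆ L := by
    intro x k
    by_cases hk : Even k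
    · rw [hPe x k hk]
    · rw [hPo x k hk]
      rintro _ ⟨l, _, rfl⟩
      exact l.2
  have hPc : ∀ x k, IsClosed (P x k) := by
    intro x k
    by_cases hk : Even k
    · rw [hPe x k hk]
      exact hL
    · rw [hPo x k hk]
      exact hL.isClosedEmbedding_subtypeVal.isClosedMap _ (hFc x _)
  have hPeq : ∀ (l : L) x k, (fun h => (l : G) * h) '' P x k = P (φ l • x) k := by
    intro l x k
    by_cases hk : Even k
    · rw [hPe x k hk, hPe _ k hk]
      ext y
      constructor
      · rintro ⟨z, hz, rfl⟩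
        exact L.mul_mem l.2 hz
      · intro hy
        exact ⟨(l : G)⁻¹ * y, L.mul_mem (L.inv_mem l.2) hy, by simp⟩
    · rw [hPo x k hk, hPo _ k hk, hFe l x (k / 2), image_image, image_image]
      rfl
  have hPm : ∀ k (U : Set G), IsOpen U → MeasurableSet {x | (P x k ∩ U).Nonempty} := by
    intro k U hU
    by_cases hk : Even k
    · simp only [hPe _ k hk]
      exact MeasurableSet.const _
    · have h1 := hFm (k / 2) (Subtype.val ⁻¹' U) (hU.preimage continuous_subtype_val)
      convert h1 using 1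
      ext x
      show (P x k ∩ U).Nonempty ↔ _
      rw [hPo x k hk]
      constructor
      · rintro ⟨_, ⟨l, hl, rfl⟩, hlU⟩
        exact ⟨l, hl, hlU⟩
      · rintro ⟨l, hl, hlU⟩
        exact ⟨l, ⟨l, hl, rfl⟩, hlU⟩
  -- the glued sets
  let Φ : X → Set G := fun x => glue L c (P x)
  have hΦc : ∀ x, IsClosed (Φ x) := fun x => isClosed_glue hL hLF (hPc x) (hPH x)
  have hΦm : ∀ U : Set G, IsOpen U → MeasurableSet {x | (Φ x ∩ U).Nonempty} := by
    intro U hU
    have h1 : {x | (Φ x ∩ U).Nonempty} = {_x | ((L : Set G) ∩ U).Nonempty} ∪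
        ⋃ k, {x | (P x k ∩ (fun h => h * c k) ⁻¹' U).Nonempty} := by
      ext x
      constructor
      · rintro ⟨y, hy | ⟨k, hk⟩, hyU⟩
        · exact Or.inl ⟨y, hy, hyU⟩
        · refine Or.inr (mem_iUnion.2 ⟨k, y * (c k)⁻¹, hk, ?_⟩)
          show y * (c k)⁻¹ * c k ∈ U
          simpa using hyU
      · rintro (⟨y, hy, hyU⟩ | hx)
        · exact ⟨y, Or.inl hy, hyU⟩
        · obtain ⟨k, h, hh, hhU⟩ := mem_iUnion.1 hx
          exact ⟨h * c k, Or.inr ⟨k, by simpa using hh⟩, hhU⟩
    rw [h1]
    refine (MeasurableSet.const _).union (MeasurableSet.iUnion fun k => ?_)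
    exact hPm k _ (hU.preimage (continuous_mul_const (c k)))
  -- invariance under `N`
  have hFN : ∀ n ∈ N, ∀ x, F (n • x) = F x := by
    intro n hn x
    apply hF1
    intro l k
    have h1 : φ l • n • x = (φ l * n * (φ l)⁻¹) • φ l • x := by
      simp [smul_smul]
    show φ l • n • x ∈ A k ↔ φ l • x ∈ A k
    rw [h1]
    exact hAN k _ ((inferInstance : N.Normal).conj_mem n hn (φ l)) _
  have hPN : ∀ n ∈ N, ∀ x, P (n • x) = P x := by
    intro n hn x
    funext k
    by_cases hk : Even k
    · rw [hPe _ k hk, hPe _ k hk]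
    · rw [hPo _ k hk, hPo _ k hk, hFN n hn x]
  -- rigidity
  have hrig : ∀ x y (g : G), (fun h => g * h) '' Φ y = Φ x →
      g ∈ L ∧ ∃ g' : H, (g = 1 → g' ∈ N) ∧ g' • y = x := by
    intro x y g hg
    obtain ⟨hgL, hgP⟩ := glue_rigid hcc hcH hR (hPH y) (hPH x) (hPe y) hg
    refine ⟨hgL, ?_⟩
    have h1 : F (φ ⟨g, hgL⟩ • y) = F x := by
      funext k
      have h2 := hgP (2 * k + 1)
      have hk : ¬ Even (2 * k + 1) := by simp
      have h3 := hPeq ⟨g, hgL⟩ y (2 * k + 1)
      have h4 : P (φ ⟨g, hgL⟩ • y) (2 * k + 1) = P x (2 * k + 1) := h3.symm.trans h2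
      rw [hPo _ _ hk, hPo _ _ hk] at h4
      have h5 : (2 * k + 1) / 2 = k := by omega
      rw [h5] at h4
      exact Subtype.val_injective.image_injective h4
    obtain ⟨l, hl⟩ := hF2 _ _ h1
    obtain ⟨n, hn, hnx⟩ := hAsep _ _ hl
    have hnx' : n • φ l • φ ⟨g, hgL⟩ • y = φ l • x := hnx
    refine ⟨(φ l)⁻¹ * n * φ l * φ ⟨g, hgL⟩, ?_, ?_⟩
    · rintro rfl
      have h6 : φ (⟨1, hgL⟩ : L) = 1 := map_one φ
      rw [h6, mul_one]
      have := (inferInstance : N.Normal).conj_mem n hn (φ l)⁻¹
      simpa using this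
    · rw [mul_smul, mul_smul, mul_smul, hnx', inv_smul_smul]
  let f : X → Closeds G := fun x => translate (j x) ⟨Φ x, hΦc x⟩
  refine ⟨f, ?_, ?_, ?_, ?_, ?_⟩
  · refine @measurable_generateFrom _ _ _ _ _ ?_
    rintro _ ⟨U, hU, rfl⟩
    exact measurableSet_translate_inter hj hΦm hU
  · intro x y hxy
    have h1 : (fun h => j x * h) '' Φ x = (fun h => j y * h) '' Φ y :=
      congrArg (fun F : Closeds G => (F : Set G)) hxy
    have h2 : (fun h => ((j x)⁻¹ * j y) * h) '' Φ y = Φ x := by
      have h3 : (fun h => ((j x)⁻¹ * j y) * h) '' Φ y =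
          (fun h => (j x)⁻¹ * h) '' ((fun h => j y * h) '' Φ y) := by
        rw [image_image]
        simp only [mul_assoc]
      rw [h3, ← h1, image_image]
      simp
    obtain ⟨hL', g', hg', hgy⟩ := hrig x y _ h2
    have hjj := hj1 x y hL'
    have h4 : (j x)⁻¹ * j y = 1 := by rw [hjj, inv_mul_cancel]
    exact (hj2 y x hjj.symm ⟨g', hg' h4, hgy⟩).symm
  · intro x y
    constructor
    · rintro ⟨g, rfl⟩
      obtain ⟨l, n, hn, hgy⟩ := hs g y
      rw [hgy]
      refine ⟨j ((φ l * n) • y) * l * (j y)⁻¹, ?_⟩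
      have h1 : (fun h => (l : G) * h) '' Φ y = Φ ((φ l * n) • y) := by
        refine image_glue l.2 fun k => ?_
        rw [mul_smul, ← hPeq l (n • y) k, hPN n hn y]
      apply Closeds.ext
      show (fun h => (j ((φ l * n) • y) * l * (j y)⁻¹) * h) '' ((fun h => j y * h) '' Φ y) =
        (fun h => j ((φ l * n) • y) * h) '' Φ ((φ l * n) • y)
      rw [← h1, image_image, image_image]
      simp [mul_assoc]
    · rintro ⟨g, hg⟩
      have h1 : (fun h => g * h) '' ((fun h => j y * h) '' Φ y) = (fun h => j x * h) '' Φ x :=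
        congrArg (fun F : Closeds G => (F : Set G)) hg
      have h2 : (fun h => ((j x)⁻¹ * g * j y) * h) '' Φ y = Φ x := by
        have h3 : (fun h => ((j x)⁻¹ * g * j y) * h) '' Φ y =
            (fun h => (j x)⁻¹ * h) '' ((fun h => g * h) '' ((fun h => j y * h) '' Φ y)) := by
          rw [image_image, image_image]
          simp only [mul_assoc]
        rw [h3, h1, image_image]
        simp
      obtain ⟨_, g', _, hgy⟩ := hrig x y _ h2
      exact ⟨g', hgy⟩
  · intro ho x
    have hLm : IsMeagre (L : Set G) := by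
      have h1 : interior (L : Set G) = ∅ := by
        rw [eq_empty_iff_forall_notMem]
        intro z hz
        exact ho (L.isOpen_of_mem_nhds (mem_interior_iff_mem_nhds.1 hz))
      have h2 : IsNowhereDense (L : Set G) := by
        rw [IsNowhereDense, hL.closure_eq, h1]
      exact h2.isMeagre
    have htr : ∀ (a b : G) (S : Set G), IsMeagre S → IsMeagre ((fun h => a * h * b) '' S) := by
      intro a b S hS
      have h1 : (fun h => a * h * b) '' S =
          ((Homeomorph.mulLeft a⁻¹).trans (Homeomorph.mulRight b⁻¹)) ⁻¹' S := by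
        ext z
        constructor
        · rintro ⟨y, hy, rfl⟩
          show a⁻¹ * (a * y * b) * b⁻¹ ∈ S
          simpa [mul_assoc] using hy
        · intro hz
          exact ⟨a⁻¹ * z * b⁻¹, hz, by simp [mul_assoc]⟩
      rw [h1]
      exact hS.preimage_of_isOpenMap (Homeomorph.continuous _) (Homeomorph.isOpenMap _)
    have h2 : (f x : Set G) ⊆ (fun h => j x * h * 1) '' (L : Set G) ∪
        ⋃ k, (fun h => j x * h * c k) '' (L : Set G) := by
      rintro _ ⟨y, hy | ⟨k, hk⟩, rfl⟩
      · exact Or.inl ⟨y, hy, by simp⟩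
      · refine Or.inr (mem_iUnion.2 ⟨k, y * (c k)⁻¹, hPH x k hk, ?_⟩)
        simp [mul_assoc]
    have h3 : IsMeagre (f x : Set G) :=
      ((htr _ _ _ hLm).union (isMeagre_iUnion fun k => htr _ _ _ hLm)).mono h2
    by_contra hne
    exact not_isMeagre_of_isOpen isOpen_interior (nonempty_iff_ne_empty.2 hne)
      (h3.mono interior_subset)
  · intro x
    refine ⟨j x, fun l hl => ?_⟩
    have h1 : (fun h => (l : G) * h) '' Φ x = Φ x := by
      refine image_glue l.2 fun k => ?_
      rw [hPeq l x k, hl]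
    apply Closeds.ext
    show (fun h => (j x * l * (j x)⁻¹) * h) '' ((fun h => j x * h) '' Φ x) =
      (fun h => j x * h) '' Φ x
    conv_rhs => rw [← h1]
    rw [image_image, image_image]
    simp [mul_assoc]


end Pool.Agent.PathAct
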